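import Pool.Agent.Lib.MP_caca3f_an.Compact

/-!
# JOB S7. The optimal distortion is attained
-/

namespace Pool.Agent.Lib.MP_caca3f_an.Opt

universe u

/-- limits of Hilbertian bounds (compare `hilbert_compactness`) -/
theorem attain {X : Type u} [MetricSpace X] (D : ℝ) (hD : 1 ≤ D)
    (h : ∀ D', D < D' → ∃ (H : Type u) (_ : NormedAddCommGroup H) (_ : InnerProductSpace ℝ H)
      (_ : CompleteSpace H) (f : X → H) (s : ℝ), 0 < s ∧
      ∀ x y, s * dist x y ≤ ‖f x - f y‖ ∧ ‖f x - f y‖ ≤ s * D' * dist x y) :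
    ∃ (H : Type u) (_ : NormedAddCommGroup H) (_ : InnerProductSpace ℝ H)
      (_ : CompleteSpace H) (f : X → H) (s : ℝ), 0 < s ∧
      ∀ x y, s * dist x y ≤ ‖f x - f y‖ ∧ ‖f x - f y‖ ≤ s * D * dist x y := by
  classical
  rcases isEmpty_or_nonempty X with hX | ⟨⟨x0⟩⟩
  · exact ⟨EuclideanSpace ℝ PUnit.{u+1}, inferInstance, inferInstance, inferInstance,
      fun _ => 0, 1, one_pos, fun x => (hX.false x).elim⟩
  have hD' : ∀ n : ℕ, D < D + 1 / ((n:ℝ) + 1) := fun n => by
    have : (0:ℝ) < 1 / ((n:ℝ) + 1) := by positivity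
    linarith
  choose H i1 i2 i3 f s hs hf using fun n : ℕ => h _ (hD' n)
  set F : ∀ n : ℕ, X → H n := fun n x => (s n)⁻¹ • f n x with hF
  have hFd : ∀ n x y, ‖F n x - F n y‖ = (s n)⁻¹ * ‖f n x - f n y‖ := by
    intro n x y
    simp only [hF]
    rw [← smul_sub, norm_smul, Real.norm_eq_abs, abs_of_pos (inv_pos.2 (hs n))]
  have hF1 : ∀ n x y, dist x y ≤ ‖F n x - F n y‖ ∧
      ‖F n x - F n y‖ ≤ (D + 1 / ((n:ℝ) + 1)) * dist x y := by
    intro n x y
    rw [hFd]
    have hsn := hs n
    obtain ⟨h1, h2⟩ := hf n x y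
    constructor
    · rw [← div_eq_inv_mul, le_div_iff₀ hsn]; linarith
    · rw [← div_eq_inv_mul, div_le_iff₀ hsn]; linarith
  set b : ℕ → X → X → ℝ := fun n x y => ‖F n x - F n y‖ ^ 2 with hb
  set kS : ℕ → X → X → ℝ := fun n x y => inner ℝ (F n x - F n x0) (F n y - F n x0) with hkS
  have hkb : ∀ n x y, kS n x y = (b n x x0 + b n y x0 - b n x y) / 2 := by
    intro n x y
    have h1 := real_inner_eq_norm_mul_self_add_norm_mul_self_sub_norm_sub_mul_self_div_two
      (F n x - F n x0) (F n y - F n x0)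
    simp only [hkS, hb]
    rw [h1]
    have h2 : F n x - F n x0 - (F n y - F n x0) = F n x - F n y := by abel
    rw [h2]; ring
  set U : Ultrafilter ℕ := Ultrafilter.of Filter.atTop with hU
  have hUle : (U : Filter ℕ) ≤ Filter.atTop := Ultrafilter.of_le _
  have hbb : ∀ n x y, dist x y ^ 2 ≤ b n x y ∧
      b n x y ≤ ((D + 1 / ((n:ℝ) + 1)) * dist x y) ^ 2 := by
    intro n x y
    obtain ⟨h1, h2⟩ := hF1 n x y
    exact ⟨pow_le_pow_left₀ dist_nonneg h1 2, pow_le_pow_left₀ (norm_nonneg _) h2 2⟩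
  -- limits of the squared distances
  have hlim : ∀ x y, ∃ l : ℝ, l ∈ Set.Icc (dist x y ^ 2) ((D * dist x y) ^ 2) ∧
      Filter.Tendsto (fun n => b n x y) U (nhds l) := by
    intro x y
    have hev : ∀ n, b n x y ∈ Set.Icc (dist x y ^ 2) (((D + 1) * dist x y) ^ 2) := by
      intro n
      refine ⟨(hbb n x y).1, (hbb n x y).2.trans ?_⟩
      have h3 : 1 / ((n:ℝ) + 1) ≤ 1 := by
        rw [div_le_one (by positivity)]
        have : (0:ℝ) ≤ n := Nat.cast_nonneg n
        linarith
      have h4 : (0:ℝ) ≤ 1 / ((n:ℝ) + 1) := by positivity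
      have h5 := dist_nonneg (x := x) (y := y)
      gcongr
    have hcomp : IsCompact (Set.Icc (dist x y ^ 2) (((D + 1) * dist x y) ^ 2)) := isCompact_Icc
    have h3 : ((U.map fun n => b n x y) : Filter ℝ) ≤ Filter.principal
        (Set.Icc (dist x y ^ 2) (((D + 1) * dist x y) ^ 2)) := by
      rw [Filter.le_principal_iff]
      have hev2 : ∀ᶠ n in (U : Filter ℕ), b n x y ∈
          Set.Icc (dist x y ^ 2) (((D + 1) * dist x y) ^ 2) := Filter.Eventually.of_forall hev
      exact hev2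
    obtain ⟨l, hl, hl2⟩ := hcomp.ultrafilter_le_nhds (U.map fun n => b n x y) h3
    have hl2' : Filter.Tendsto (fun n => b n x y) U (nhds l) := hl2
    refine ⟨l, ⟨hl.1, ?_⟩, hl2'⟩
    have h6 : Filter.Tendsto (fun n : ℕ => ((D + 1 / ((n:ℝ) + 1)) * dist x y) ^ 2) U
        (nhds (((D + 0) * dist x y) ^ 2)) := by
      have h7 : Filter.Tendsto (fun n : ℕ => 1 / ((n:ℝ) + 1)) U (nhds 0) :=
        tendsto_one_div_add_atTop_nhds_zero_nat.mono_left hUle
      exact ((h7.const_add D).mul_const _).pow 2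
    rw [add_zero] at h6
    exact le_of_tendsto_of_tendsto' hl2' h6 fun n => (hbb n x y).2
  choose l hlmem hlt using hlim
  set k : X → X → ℝ := fun x y => (l x x0 + l y x0 - l x y) / 2 with hk
  have hkt : ∀ x y, Filter.Tendsto (fun n => kS n x y) U (nhds (k x y)) := by
    intro x y
    have : (fun n => kS n x y) = fun n => (b n x x0 + b n y x0 - b n x y) / 2 := by
      ext n; exact hkb n x y
    rw [this]
    exact (((hlt x x0).add (hlt y x0)).sub (hlt x y)).div_const 2
  have hlsymm : ∀ x y, l x y = l y x := by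
    intro x y
    have h1 : (fun n => b n x y) = fun n => b n y x := by
      ext n; simp only [hb]; rw [norm_sub_rev]
    have h2 := hlt x y
    rw [h1] at h2
    exact tendsto_nhds_unique h2 (hlt y x)
  have hl0 : ∀ x, l x x = 0 := by
    intro x
    have h1 : (fun n => b n x x) = fun n => 0 := by
      ext n; simp [hb]
    have h2 := hlt x x
    rw [h1] at h2
    exact tendsto_nhds_unique h2 tendsto_const_nhds
  have hksymm : ∀ x y, k x y = k y x := by
    intro x y; simp only [hk]; rw [hlsymm x y]; ring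
  have hkpos : ∀ v : X →₀ ℝ, 0 ≤ v.sum fun x w => v.sum fun y w' => k x y * w * w' := by
    intro v
    rw [quad_eq]
    have h1 : Filter.Tendsto (fun n => ∑ x ∈ v.support, ∑ y ∈ v.support, kS n x y * v x * v y) U
        (nhds (∑ x ∈ v.support, ∑ y ∈ v.support, k x y * v x * v y)) := by
      apply tendsto_finsetSum; intro x _
      apply tendsto_finsetSum; intro y _
      exact ((hkt x y).mul_const _).mul_const _
    have hnn : ∀ n, 0 ≤ ∑ x ∈ v.support, ∑ y ∈ v.support, kS n x y * v x * v y := by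
      intro n
      have h2 : ∑ x ∈ v.support, ∑ y ∈ v.support, kS n x y * v x * v y
          = inner ℝ (∑ x ∈ v.support, v x • (F n x - F n x0))
              (∑ x ∈ v.support, v x • (F n x - F n x0)) := by
        rw [sum_inner]
        apply Finset.sum_congr rfl; intro x _
        rw [inner_sum]
        apply Finset.sum_congr rfl; intro y _
        rw [real_inner_smul_left, real_inner_smul_right]
        simp only [hkS]; ring
      rw [h2]
      exact real_inner_self_nonneg
    exact ge_of_tendsto' h1 hnn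
  obtain ⟨H', j1, j2, j3, G, hG⟩ := kernel_embed k hksymm hkpos
  refine ⟨H', j1, j2, j3, G, 1, one_pos, fun x y => ?_⟩
  have h1 : ‖G x - G y‖ ^ 2 = l x y := by
    rw [@norm_sub_sq_real, ← real_inner_self_eq_norm_sq, ← real_inner_self_eq_norm_sq, hG, hG, hG]
    simp only [hk]; rw [hl0, hl0]; ring
  obtain ⟨h2, h3⟩ := hlmem x y
  rw [← h1] at h2 h3
  have hd := dist_nonneg (x := x) (y := y)
  rw [one_mul, one_mul]
  exact ⟨(sq_le_sq₀ hd (norm_nonneg _)).1 h2,
    (sq_le_sq₀ (norm_nonneg _) (mul_nonneg (by linarith) hd)).1 h3⟩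

end Pool.Agent.Lib.MP_caca3f_an.Opt
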