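import Mathlib

/-!
# JOB S1. Random-radius weights
-/

namespace Pool.Agent.Lib.MP_caca3f_an.Opt

open Finset

universe v

variable {ι : Type v} [Fintype ι]

/-- number of indices with value at most `ρ` -/
noncomputable def cnt (s : ι → ℝ) (ρ : ℝ) : ℕ := by
  classical exact (univ.filter (fun m => s m ≤ ρ)).card

/-- the weight of the pair (index `m`, label `i`): choose `ρ ∈ [ε/2, ε]` uniformly, then `m`
uniformly among the indices with `s m ≤ ρ`; the label is the integral part of the logarithm to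
base 2 of the number of these indices -/
noncomputable def pw (ε : ℝ) (s : ι → ℝ) (m : ι) (i : ℕ) : ℝ := by
  classical exact 2 / ε * ∫ ρ in (ε / 2)..ε,
    (if s m ≤ ρ ∧ Nat.log 2 (cnt s ρ) = i then 1 / (cnt s ρ : ℝ) else 0)

/-- the integrand of `pw` -/
noncomputable def ckrF (s : ι → ℝ) (m : ι) (i : ℕ) (ρ : ℝ) : ℝ := by
  classical exact (if s m ≤ ρ ∧ Nat.log 2 (cnt s ρ) = i then 1 / (cnt s ρ : ℝ) else 0)

theorem ckr_pw_eq (ε : ℝ) (s : ι → ℝ) (m : ι) (i : ℕ) :
    pw ε s m i = 2 / ε * ∫ ρ in (ε / 2)..ε, ckrF s m i ρ := rfl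

theorem ckr_cnt_mono (s : ι → ℝ) : Monotone (cnt s) := by
  classical
  intro a b hab
  unfold cnt
  apply Finset.card_le_card
  intro m hm
  rw [Finset.mem_filter] at hm ⊢
  exact ⟨hm.1, hm.2.trans hab⟩

theorem ckr_cnt_pos (s : ι → ℝ) (h0 : ∃ m, s m = 0) (ρ : ℝ) (hρ : 0 ≤ ρ) : 1 ≤ cnt s ρ := by
  classical
  obtain ⟨m, hm⟩ := h0
  unfold cnt
  apply Finset.card_pos.mpr
  exact ⟨m, Finset.mem_filter.mpr ⟨Finset.mem_univ m, by rw [hm]; exact hρ⟩⟩

theorem ckr_cnt_le (s : ι → ℝ) (ρ : ℝ) : cnt s ρ ≤ Fintype.card ι := by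
  classical
  unfold cnt
  exact Finset.card_le_univ _

theorem ckr_F_nonneg (s : ι → ℝ) (m : ι) (i : ℕ) (ρ : ℝ) : 0 ≤ ckrF s m i ρ := by
  classical
  unfold ckrF
  split_ifs <;> positivity

theorem ckr_F_le (s : ι → ℝ) (m : ι) (i : ℕ) (ρ : ℝ) : ckrF s m i ρ ≤ 1 := by
  classical
  unfold ckrF
  split_ifs
  · rcases Nat.eq_zero_or_pos (cnt s ρ) with h | h
    · rw [h]; simp
    · rw [div_le_one (by exact_mod_cast h)]
      exact_mod_cast h
  · norm_num

theorem ckr_cnt_meas (s : ι → ℝ) : Measurable (cnt s) := (ckr_cnt_mono s).measurable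

theorem ckr_F_meas (s : ι → ℝ) (m : ι) (i : ℕ) : Measurable (ckrF s m i) := by
  classical
  have h1 := ckr_cnt_meas s
  unfold ckrF
  apply Measurable.ite
  · apply MeasurableSet.inter
    · exact measurableSet_Ici
    · exact h1 (MeasurableSet.of_discrete (s := {n : ℕ | Nat.log 2 n = i}))
  · exact measurable_const.div (measurable_from_top.comp h1)
  · exact measurable_const

theorem ckr_F_int (s : ι → ℝ) (m : ι) (i : ℕ) (a b : ℝ) :
    IntervalIntegrable (ckrF s m i) MeasureTheory.volume a b := by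
  apply (intervalIntegrable_const (c := (1:ℝ))).mono_fun (ckr_F_meas s m i).aestronglyMeasurable
  apply Filter.Eventually.of_forall
  intro ρ
  show ‖ckrF s m i ρ‖ ≤ ‖(1:ℝ)‖
  rw [Real.norm_of_nonneg (ckr_F_nonneg s m i ρ), norm_one]
  exact ckr_F_le s m i ρ

theorem ckr_intsum {κ : Type*} (S : Finset κ) (f : κ → ℝ → ℝ) (a b : ℝ)
    (h : ∀ i ∈ S, IntervalIntegrable (f i) MeasureTheory.volume a b) :
    IntervalIntegrable (fun ρ => ∑ i ∈ S, f i ρ) MeasureTheory.volume a b := by
  have h1 := IntervalIntegrable.sum S h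
  have e : (fun ρ => ∑ i ∈ S, f i ρ) = ∑ i ∈ S, f i := by
    funext ρ
    rw [Finset.sum_apply]
  rw [e]
  exact h1

/-- pointwise sum over the labels -/
theorem ckr_sum_label (s : ι → ℝ) (h0 : ∃ m, s m = 0) (I : ℕ)
    (hI : Fintype.card ι < 2 ^ I) (c : ι → ℕ → ℝ) (ρ : ℝ) (hρ : 0 ≤ ρ) :
    ∑ m, ∑ i ∈ range I, ckrF s m i ρ * c m i =
      (∑ m ∈ univ.filter (fun m => s m ≤ ρ), c m (Nat.log 2 (cnt s ρ))) / (cnt s ρ : ℝ) := by
  classical
  have hpos := ckr_cnt_pos s h0 ρ hρ
  have hlog : Nat.log 2 (cnt s ρ) < I := by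
    apply Nat.log_lt_of_lt_pow (by omega)
    exact lt_of_le_of_lt (ckr_cnt_le s ρ) hI
  rw [Finset.sum_filter, Finset.sum_div]
  apply Finset.sum_congr rfl
  intro m _
  by_cases hm : s m ≤ ρ
  · rw [if_pos hm]
    rw [Finset.sum_eq_single (Nat.log 2 (cnt s ρ))]
    · unfold ckrF
      rw [if_pos ⟨hm, rfl⟩]
      ring
    · intro i _ hi
      unfold ckrF
      rw [if_neg (fun h => hi h.2.symm), zero_mul]
    · intro h
      exact absurd (Finset.mem_range.mpr hlog) h
  · rw [if_neg hm, zero_div]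
    apply Finset.sum_eq_zero
    intro i _
    unfold ckrF
    rw [if_neg (fun h => hm h.1), zero_mul]

theorem ckr_sum_int (ε : ℝ) (s : ι → ℝ) (I : ℕ) (c : ι → ℕ → ℝ) :
    ∑ m, ∑ i ∈ range I, pw ε s m i * c m i =
      2 / ε * ∫ ρ in (ε / 2)..ε, ∑ m, ∑ i ∈ range I, ckrF s m i ρ * c m i := by
  have h1 : ∀ m i, IntervalIntegrable (fun ρ => ckrF s m i ρ * c m i) MeasureTheory.volume
      (ε / 2) ε := fun m i => (ckr_F_int s m i _ _).mul_const _
  rw [intervalIntegral.integral_finsetSum]
  · rw [Finset.mul_sum]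
    apply Finset.sum_congr rfl
    intro m _
    rw [intervalIntegral.integral_finsetSum (fun i _ => h1 m i), Finset.mul_sum]
    apply Finset.sum_congr rfl
    intro i _
    rw [ckr_pw_eq, intervalIntegral.integral_mul_const]
    ring
  · intro m _
    exact ckr_intsum (range I) (fun i ρ => ckrF s m i ρ * c m i) _ _ (fun i _ => h1 m i)

theorem pw_nonneg (ε : ℝ) (hε : 0 < ε) (s : ι → ℝ) (m : ι) (i : ℕ) : 0 ≤ pw ε s m i := by
  rw [ckr_pw_eq]
  apply mul_nonneg (by positivity)
  exact intervalIntegral.integral_nonneg (by linarith) (fun ρ _ => ckr_F_nonneg s m i ρ)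

theorem pw_sum (ε : ℝ) (hε : 0 < ε) (s : ι → ℝ) (h0 : ∃ m, s m = 0) (I : ℕ)
    (hI : Fintype.card ι < 2 ^ I) : ∑ m, ∑ i ∈ range I, pw ε s m i = 1 := by
  classical
  have h1 := ckr_sum_int ε s I (fun _ _ => (1:ℝ))
  simp only [mul_one] at h1
  rw [h1]
  have h2 : ∫ ρ in (ε / 2)..ε, ∑ m, ∑ i ∈ range I, ckrF s m i ρ = ∫ ρ in (ε / 2)..ε, (1:ℝ) := by
    apply intervalIntegral.integral_congr
    intro ρ hρ
    rw [Set.uIcc_of_le (by linarith)] at hρ
    have hρ0 : 0 ≤ ρ := by have := hρ.1; linarith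
    have h3 := ckr_sum_label s h0 I hI (fun _ _ => (1:ℝ)) ρ hρ0
    simp only [mul_one] at h3
    have hpos := ckr_cnt_pos s h0 ρ hρ0
    show ∑ m, ∑ i ∈ range I, ckrF s m i ρ = 1
    rw [h3, Finset.sum_const, nsmul_eq_mul, mul_one]
    have hc : (univ.filter (fun m => s m ≤ ρ)).card = cnt s ρ := by
      unfold cnt
      congr
    rw [hc]
    have : (cnt s ρ : ℝ) ≠ 0 := by
      have : cnt s ρ ≠ 0 := by omega
      exact_mod_cast this
    exact div_self this
  rw [h2, intervalIntegral.integral_const, smul_eq_mul]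
  field_simp
  ring

theorem pw_pos (ε : ℝ) (hε : 0 < ε) (s : ι → ℝ) (h0 : ∃ m, s m = 0) (m : ι) (i : ℕ)
    (h : 0 < pw ε s m i) : s m ≤ ε ∧ 2 ^ i ≤ cnt s ε := by
  classical
  by_contra hcon
  have h1 : ∫ ρ in (ε / 2)..ε, ckrF s m i ρ = ∫ ρ in (ε / 2)..ε, (0:ℝ) := by
    apply intervalIntegral.integral_congr
    intro ρ hρ
    rw [Set.uIcc_of_le (by linarith)] at hρ
    show ckrF s m i ρ = 0
    unfold ckrF
    apply if_neg
    rintro ⟨h2, h3⟩
    apply hcon
    refine ⟨h2.trans hρ.2, ?_⟩
    have hρ0 : 0 ≤ ρ := by have := hρ.1; linarith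
    have hpos := ckr_cnt_pos s h0 ρ hρ0
    rw [← h3]
    exact (Nat.pow_log_le_self 2 (by omega)).trans (ckr_cnt_mono s hρ.2)
  rw [ckr_pw_eq, h1] at h
  simp at h

open Classical in
/-- averages with respect to `pw` are bounded if the averages for every radius are -/
theorem pw_avg (ε : ℝ) (hε : 0 < ε) (s : ι → ℝ) (h0 : ∃ m, s m = 0) (I : ℕ)
    (hI : Fintype.card ι < 2 ^ I) (c : ι → ℕ → ℝ) (b : ℝ)
    (h : ∀ ρ, ε / 2 ≤ ρ → ρ ≤ ε →
      (∑ m ∈ univ.filter (fun m => s m ≤ ρ), c m (Nat.log 2 (cnt s ρ))) / (cnt s ρ : ℝ) ≤ b) :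
    ∑ m, ∑ i ∈ range I, pw ε s m i * c m i ≤ b := by
  rw [ckr_sum_int]
  have h1 : ∫ ρ in (ε / 2)..ε, ∑ m, ∑ i ∈ range I, ckrF s m i ρ * c m i ≤
      ∫ ρ in (ε / 2)..ε, b := by
    apply intervalIntegral.integral_mono_on (by linarith)
    · exact ckr_intsum univ (fun m ρ => ∑ i ∈ range I, ckrF s m i ρ * c m i) _ _ (fun m _ =>
        ckr_intsum (range I) (fun i ρ => ckrF s m i ρ * c m i) _ _
          (fun i _ => (ckr_F_int s m i _ _).mul_const _))
    · exact intervalIntegrable_const
    · intro ρ hρ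
      have hρ0 : 0 ≤ ρ := by have := hρ.1; linarith
      rw [ckr_sum_label s h0 I hI c ρ hρ0]
      convert h ρ hρ.1 hρ.2
  rw [intervalIntegral.integral_const, smul_eq_mul] at h1
  calc 2 / ε * ∫ ρ in (ε / 2)..ε, ∑ m, ∑ i ∈ range I, ckrF s m i ρ * c m i
      ≤ 2 / ε * ((ε - ε / 2) * b) := mul_le_mul_of_nonneg_left h1 (by positivity)
    _ = b := by field_simp; ring

/-- the mean of the increment of a monotone nonnegative function -/
theorem ckr_shift (h : ℝ → ℝ) (hm : Monotone h) (h0 : ∀ x, 0 ≤ h x) (a b u : ℝ)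
    (hu : 0 ≤ u) :
    ∫ ρ in a..b, (h ρ - h (ρ - u)) ≤ u * h b := by
  have hint : ∀ x y, IntervalIntegrable h MeasureTheory.volume x y := fun x y =>
    hm.intervalIntegrable
  have hint2 : IntervalIntegrable (fun ρ => h (ρ - u)) MeasureTheory.volume a b := by
    have : Monotone (fun ρ => h (ρ - u)) := fun x y hxy => hm (by linarith)
    exact this.intervalIntegrable
  rw [intervalIntegral.integral_sub (hint a b) hint2, intervalIntegral.integral_comp_sub_right]
  have e1 : (∫ x in a..b, h x) = (∫ x in a..(b - u), h x) + ∫ x in (b - u)..b, h x :=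
    (intervalIntegral.integral_add_adjacent_intervals (hint _ _) (hint _ _)).symm
  have e2 : (∫ x in (a - u)..(b - u), h x) = (∫ x in (a - u)..a, h x) + ∫ x in a..(b - u), h x :=
    (intervalIntegral.integral_add_adjacent_intervals (hint _ _) (hint _ _)).symm
  have e3 : 0 ≤ ∫ x in (a - u)..a, h x :=
    intervalIntegral.integral_nonneg (by linarith) (fun x _ => h0 x)
  have e4 : (∫ x in (b - u)..b, h x) ≤ ∫ x in (b - u)..b, h b := by
    apply intervalIntegral.integral_mono_on (by linarith) (hint _ _) intervalIntegrable_const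
    intro x hx
    exact hm hx.2
  rw [intervalIntegral.integral_const, smul_eq_mul] at e4
  have e5 : (b - (b - u)) * h b = u * h b := by ring
  linarith

/-- pointwise total variation estimate -/
theorem ckr_pt (s s' : ι → ℝ) (I : ℕ) (hI : Fintype.card ι < 2 ^ I) (h0 : ∃ m, s m = 0)
    (h0' : ∃ m, s' m = 0) (ρ r : ℝ) (hρ : 0 ≤ ρ) (t : ι → ℝ)
    (ht : ∀ m, t m ≤ r → s m ≤ ρ ∧ s' m ≤ ρ) (ht2 : ∀ m, s m ≤ ρ ∨ s' m ≤ ρ → t m ≤ ρ)
    (hpos : 1 ≤ cnt t r) :
    ∑ m, ∑ i ∈ range I, |ckrF s m i ρ - ckrF s' m i ρ| ≤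
      (2 * Real.log (cnt t ρ) + 2 * (Nat.log 2 (cnt t ρ) : ℝ)) -
        (2 * Real.log (cnt t r) + 2 * (Nat.log 2 (cnt t r) : ℝ)) := by
  classical
  have hN := ckr_cnt_pos s h0 ρ hρ
  have hN' := ckr_cnt_pos s' h0' ρ hρ
  have hc : ∀ q : ι → ℝ, ∀ x, (univ.filter (fun m => q m ≤ x)).card = cnt q x := by
    intro q x
    unfold cnt
    congr
  have le1 : cnt s ρ ≤ cnt t ρ := by
    rw [← hc, ← hc]
    apply Finset.card_le_card
    intro m hm
    rw [Finset.mem_filter] at hm ⊢
    exact ⟨hm.1, ht2 m (Or.inl hm.2)⟩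
  have le2 : cnt s' ρ ≤ cnt t ρ := by
    rw [← hc, ← hc]
    apply Finset.card_le_card
    intro m hm
    rw [Finset.mem_filter] at hm ⊢
    exact ⟨hm.1, ht2 m (Or.inr hm.2)⟩
  have le3 : cnt t r ≤ cnt s ρ := by
    rw [← hc, ← hc]
    apply Finset.card_le_card
    intro m hm
    rw [Finset.mem_filter] at hm ⊢
    exact ⟨hm.1, (ht m hm.2).1⟩
  have le4 : cnt t r ≤ cnt s' ρ := by
    rw [← hc, ← hc]
    apply Finset.card_le_card
    intro m hm
    rw [Finset.mem_filter] at hm ⊢
    exact ⟨hm.1, (ht m hm.2).2⟩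
  set a := cnt t r with ha
  set b := cnt t ρ with hb
  have hab : a ≤ b := le3.trans le1
  have ha0 : (0:ℝ) < a := by exact_mod_cast hpos
  have hb0 : (0:ℝ) < b := by exact_mod_cast (lt_of_lt_of_le hpos hab)
  -- the identity for the total variation
  have hsum : ∀ q : ι → ℝ, (∃ m, q m = 0) → ∑ m, ∑ i ∈ range I, ckrF q m i ρ = 1 := by
    intro q hq
    have h3 := ckr_sum_label q hq I hI (fun _ _ => (1:ℝ)) ρ hρ
    simp only [mul_one] at h3
    have hpos := ckr_cnt_pos q hq ρ hρ
    rw [h3, Finset.sum_const, nsmul_eq_mul, mul_one, hc]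
    have : (cnt q ρ : ℝ) ≠ 0 := by
      have : cnt q ρ ≠ 0 := by omega
      exact_mod_cast this
    exact div_self this
  have hid : ∑ m, ∑ i ∈ range I, |ckrF s m i ρ - ckrF s' m i ρ| =
      2 - 2 * ∑ m, ∑ i ∈ range I, min (ckrF s m i ρ) (ckrF s' m i ρ) := by
    have e1 : ∀ x y : ℝ, |x - y| = x + y - 2 * min x y := by
      intro x y
      rcases le_total x y with h | h
      · rw [min_eq_left h, abs_of_nonpos (by linarith)]; ring
      · rw [min_eq_right h, abs_of_nonneg (by linarith)]; ring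
    simp only [e1]
    simp only [Finset.sum_sub_distrib, Finset.sum_add_distrib, ← Finset.mul_sum]
    rw [hsum s h0, hsum s' h0']
    ring
  have hminnn : ∀ m i, 0 ≤ min (ckrF s m i ρ) (ckrF s' m i ρ) := fun m i =>
    le_min (ckr_F_nonneg s m i ρ) (ckr_F_nonneg s' m i ρ)
  have hlogab : Real.log a ≤ Real.log b := Real.log_le_log ha0 (by exact_mod_cast hab)
  have hlogab2 : Nat.log 2 a ≤ Nat.log 2 b := Nat.log_mono_right hab
  rw [hid]
  by_cases hl : Nat.log 2 (cnt s ρ) = Nat.log 2 (cnt s' ρ)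
  · have hlog : Nat.log 2 (cnt s ρ) < I := by
      apply Nat.log_lt_of_lt_pow (by omega)
      exact lt_of_le_of_lt (ckr_cnt_le s ρ) hI
    have h1 : (a : ℝ) / b ≤ ∑ m, ∑ i ∈ range I, min (ckrF s m i ρ) (ckrF s' m i ρ) := by
      calc (a : ℝ) / b = ∑ m ∈ univ.filter (fun m => t m ≤ r), 1 / (b : ℝ) := by
            rw [Finset.sum_const, hc, nsmul_eq_mul]
            ring
        _ ≤ ∑ m ∈ univ.filter (fun m => t m ≤ r),
              ∑ i ∈ range I, min (ckrF s m i ρ) (ckrF s' m i ρ) := by
            apply Finset.sum_le_sum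
            intro m hm
            rw [Finset.mem_filter] at hm
            have hm2 := ht m hm.2
            calc 1 / (b : ℝ) ≤ min (ckrF s m (Nat.log 2 (cnt s ρ)) ρ)
                  (ckrF s' m (Nat.log 2 (cnt s ρ)) ρ) := by
                  apply le_min
                  · unfold ckrF
                    rw [if_pos ⟨hm2.1, rfl⟩]
                    apply one_div_le_one_div_of_le
                    · exact_mod_cast hN
                    · exact_mod_cast le1
                  · unfold ckrF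
                    rw [if_pos ⟨hm2.2, hl.symm⟩]
                    apply one_div_le_one_div_of_le
                    · exact_mod_cast hN'
                    · exact_mod_cast le2
              _ ≤ _ := Finset.single_le_sum
                  (f := fun i => min (ckrF s m i ρ) (ckrF s' m i ρ))
                  (fun i _ => hminnn m i) (Finset.mem_range.mpr hlog)
        _ ≤ _ := by
            apply Finset.sum_le_sum_of_subset_of_nonneg (Finset.filter_subset _ _)
            intro m _ _
            exact Finset.sum_nonneg (fun i _ => hminnn m i)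
    have h2 : 1 - (a : ℝ) / b ≤ Real.log b - Real.log a := by
      rw [← Real.log_div hb0.ne' ha0.ne']
      have := Real.one_sub_inv_le_log_of_pos (x := (b : ℝ) / a) (by positivity)
      rw [inv_div] at this
      exact this
    have h3 : (Nat.log 2 a : ℝ) ≤ Nat.log 2 b := by exact_mod_cast hlogab2
    linarith
  · have h1 : 0 ≤ ∑ m, ∑ i ∈ range I, min (ckrF s m i ρ) (ckrF s' m i ρ) :=
      Finset.sum_nonneg (fun m _ => Finset.sum_nonneg (fun i _ => hminnn m i))
    have h2 : Nat.log 2 a + 1 ≤ Nat.log 2 b := by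
      have m1 := Nat.log_mono_right (b := 2) le1
      have m2 := Nat.log_mono_right (b := 2) le2
      have m3 := Nat.log_mono_right (b := 2) le3
      have m4 := Nat.log_mono_right (b := 2) le4
      omega
    have h3 : (Nat.log 2 a : ℝ) + 1 ≤ Nat.log 2 b := by exact_mod_cast h2
    linarith

open Classical in
/-- total variation estimate -/
theorem pw_tv (ε u : ℝ) (hε : 0 < ε) (hu : 0 ≤ u) (s s' : ι → ℝ)
    (hs : ∀ m, 0 ≤ s m) (hs' : ∀ m, 0 ≤ s' m) (h0 : ∃ m, s m = 0) (h0' : ∃ m, s' m = 0)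
    (hss : ∀ m, s m ≤ ε ∨ s' m ≤ ε → |s m - s' m| ≤ u) (I : ℕ) (hI : Fintype.card ι < 2 ^ I)
    (n : ℕ) (hn : (univ.filter (fun m => s m ≤ ε ∨ s' m ≤ ε)).card ≤ n) :
    ∑ m, ∑ i ∈ range I, |pw ε s m i - pw ε s' m i| ≤ 20 * (u / ε) * (1 + Real.log n) := by
  have hlogn : 0 ≤ Real.log n := Real.log_natCast_nonneg n
  by_cases hu2 : ε / 2 < u
  · calc ∑ m, ∑ i ∈ range I, |pw ε s m i - pw ε s' m i|
        ≤ ∑ m, ∑ i ∈ range I, (pw ε s m i + pw ε s' m i) := by
          apply Finset.sum_le_sum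
          intro m _
          apply Finset.sum_le_sum
          intro i _
          have h1 := pw_nonneg ε hε s m i
          have h2 := pw_nonneg ε hε s' m i
          rw [abs_le]
          constructor <;> linarith
      _ = 2 := by
          simp only [Finset.sum_add_distrib]
          rw [pw_sum ε hε s h0 I hI, pw_sum ε hε s' h0' I hI]
          norm_num
      _ ≤ 20 * (u / ε) * (1 + Real.log n) := by
          have h1 : 1 / 2 < u / ε := by
            rw [lt_div_iff₀ hε]
            linarith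
          nlinarith
  · push Not at hu2
    set t : ι → ℝ := fun m => min (s m) (s' m) with ht
    set M : ℝ → ℕ := cnt t with hM
    set H : ℝ → ℝ := fun ρ => 2 * Real.log (M ρ) + 2 * (Nat.log 2 (M ρ) : ℝ) with hH
    have hMmono : Monotone M := ckr_cnt_mono t
    have h0t : ∃ m, t m = 0 := by
      obtain ⟨m, hm⟩ := h0
      exact ⟨m, by rw [ht]; simp only [hm]; exact min_eq_left (hs' m)⟩
    have hHmono : Monotone H := by
      intro x y hxy
      have h1 := hMmono hxy
      have h2 : Real.log (M x) ≤ Real.log (M y) := by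
        rcases Nat.eq_zero_or_pos (M x) with h | h
        · rw [h]
          simp only [Nat.cast_zero, Real.log_zero]
          exact Real.log_natCast_nonneg _
        · exact Real.log_le_log (by exact_mod_cast h) (by exact_mod_cast h1)
      have h3 : (Nat.log 2 (M x) : ℝ) ≤ Nat.log 2 (M y) := by
        exact_mod_cast Nat.log_mono_right h1
      rw [hH]
      simp only
      linarith
    have hH0 : ∀ x, 0 ≤ H x := by
      intro x
      have := Real.log_natCast_nonneg (M x)
      rw [hH]
      positivity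
    have hpt : ∀ ρ ∈ Set.Icc (ε / 2) ε,
        ∑ m, ∑ i ∈ range I, |ckrF s m i ρ - ckrF s' m i ρ| ≤ H ρ - H (ρ - u) := by
      intro ρ hρ
      have hρ0 : 0 ≤ ρ := by have := hρ.1; linarith
      apply ckr_pt s s' I hI h0 h0' ρ (ρ - u) hρ0 t
      · intro m hm
        rw [ht] at hm
        simp only [min_le_iff] at hm
        rcases hm with hm | hm
        · have h1 : s m ≤ ε := by have := hρ.2; linarith
          have h2 := (abs_le.mp (hss m (Or.inl h1))).1
          constructor <;> linarith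
        · have h1 : s' m ≤ ε := by have := hρ.2; linarith
          have h2 := (abs_le.mp (hss m (Or.inr h1))).2
          constructor <;> linarith
      · intro m hm
        rw [ht]
        simp only [min_le_iff]
        exact hm
      · apply ckr_cnt_pos t h0t
        have := hρ.1
        linarith
    -- integrability
    have hint1 : ∀ m i, IntervalIntegrable (fun ρ => |ckrF s m i ρ - ckrF s' m i ρ|)
        MeasureTheory.volume (ε / 2) ε := fun m i =>
      ((ckr_F_int s m i _ _).sub (ckr_F_int s' m i _ _)).abs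
    have hint2 : ∀ m, IntervalIntegrable (fun ρ => ∑ i ∈ range I, |ckrF s m i ρ - ckrF s' m i ρ|)
        MeasureTheory.volume (ε / 2) ε := by
      intro m
      exact ckr_intsum (range I) (fun i ρ => |ckrF s m i ρ - ckrF s' m i ρ|) _ _
        (fun i _ => hint1 m i)
    have hint3 : IntervalIntegrable
        (fun ρ => ∑ m, ∑ i ∈ range I, |ckrF s m i ρ - ckrF s' m i ρ|)
        MeasureTheory.volume (ε / 2) ε :=
      ckr_intsum univ (fun m ρ => ∑ i ∈ range I, |ckrF s m i ρ - ckrF s' m i ρ|) _ _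
        (fun m _ => hint2 m)
    have hintH : IntervalIntegrable (fun ρ => H ρ - H (ρ - u)) MeasureTheory.volume (ε / 2) ε := by
      have h2 : Monotone (fun ρ => H (ρ - u)) := fun x y hxy => hHmono (by linarith)
      exact hHmono.intervalIntegrable.sub h2.intervalIntegrable
    have step1 : ∀ m i, |pw ε s m i - pw ε s' m i| ≤
        2 / ε * ∫ ρ in (ε / 2)..ε, |ckrF s m i ρ - ckrF s' m i ρ| := by
      intro m i
      rw [ckr_pw_eq, ckr_pw_eq, ← mul_sub,
        ← intervalIntegral.integral_sub (ckr_F_int s m i _ _) (ckr_F_int s' m i _ _), abs_mul,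
        abs_of_pos (by positivity : (0:ℝ) < 2 / ε)]
      apply mul_le_mul_of_nonneg_left _ (by positivity)
      exact intervalIntegral.abs_integral_le_integral_abs (by linarith)
    have hMn : M ε ≤ n := by
      refine le_trans ?_ hn
      rw [hM]
      unfold cnt
      apply Finset.card_le_card
      intro m hm
      rw [Finset.mem_filter] at hm ⊢
      refine ⟨hm.1, ?_⟩
      have := hm.2
      rw [ht] at this
      simp only [min_le_iff] at this
      exact this
    have hMpos : 1 ≤ M ε := ckr_cnt_pos t h0t ε hε.le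
    have hHε : H ε ≤ 6 * Real.log n := by
      have h1 : Real.log (M ε) ≤ Real.log n :=
        Real.log_le_log (by exact_mod_cast hMpos) (by exact_mod_cast hMn)
      have h2 : (Nat.log 2 (M ε) : ℝ) * Real.log 2 ≤ Real.log (M ε) := by
        rw [← Real.log_pow]
        apply Real.log_le_log (by positivity)
        exact_mod_cast Nat.pow_log_le_self 2 (by omega)
      have h3 := Real.log_two_gt_d9
      have h4 : (0:ℝ) ≤ Nat.log 2 (M ε) := Nat.cast_nonneg _
      rw [hH]
      simp only
      nlinarith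
    calc ∑ m, ∑ i ∈ range I, |pw ε s m i - pw ε s' m i|
        ≤ ∑ m, ∑ i ∈ range I, 2 / ε * ∫ ρ in (ε / 2)..ε, |ckrF s m i ρ - ckrF s' m i ρ| :=
          Finset.sum_le_sum (fun m _ => Finset.sum_le_sum (fun i _ => step1 m i))
      _ = 2 / ε * ∫ ρ in (ε / 2)..ε, ∑ m, ∑ i ∈ range I, |ckrF s m i ρ - ckrF s' m i ρ| := by
          rw [intervalIntegral.integral_finsetSum (fun m _ => hint2 m), Finset.mul_sum]
          apply Finset.sum_congr rfl
          intro m _
          rw [intervalIntegral.integral_finsetSum (fun i _ => hint1 m i), Finset.mul_sum]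
      _ ≤ 2 / ε * ∫ ρ in (ε / 2)..ε, (H ρ - H (ρ - u)) := by
          apply mul_le_mul_of_nonneg_left _ (by positivity)
          exact intervalIntegral.integral_mono_on (by linarith) hint3 hintH hpt
      _ ≤ 2 / ε * (u * H ε) := by
          apply mul_le_mul_of_nonneg_left _ (by positivity)
          exact ckr_shift H hHmono hH0 (ε / 2) ε u hu
      _ ≤ 2 / ε * (u * (6 * Real.log n)) := by
          apply mul_le_mul_of_nonneg_left _ (by positivity)
          exact mul_le_mul_of_nonneg_left hHε hu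
      _ = 12 * (u / ε) * Real.log n := by ring
      _ ≤ 20 * (u / ε) * (1 + Real.log n) := by
          have : 0 ≤ u / ε := by positivity
          nlinarith

/-- sums over ranks: the `i`-th term in increasing order of `a` is at most `v i` -/
theorem rank_sum (S : Finset ι) (a : ι → ℝ) (r : ι → ℕ) (v : ℕ → ℝ) (hv : Monotone v)
    (hr : ∀ i ∈ S, ∀ T : Finset ι, (∀ j, j ∈ T ↔ j ∈ S ∧ a j < a i) → r i ≤ T.card) :
    ∑ i ∈ S, v (r i) ≤ ∑ j ∈ range S.card, v j := by
  classical
  have key : ∀ S : Finset ι,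
      ∑ i ∈ S, v (S.filter (fun j => a j < a i)).card ≤ ∑ j ∈ range S.card, v j := by
    intro S
    induction S using Finset.induction_on_max_value a with
    | empty => simp
    | insert x s hx hmax ih =>
      rw [Finset.sum_insert hx, Finset.card_insert_of_notMem hx, Finset.sum_range_succ]
      have h1 : v ((insert x s).filter (fun j => a j < a x)).card ≤ v s.card := by
        apply hv
        apply Finset.card_le_card
        intro j hj
        rw [Finset.mem_filter, Finset.mem_insert] at hj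
        rcases hj.1 with h | h
        · rw [h] at hj; exact absurd hj.2 (lt_irrefl _)
        · exact h
      have h2 : ∑ i ∈ s, v ((insert x s).filter (fun j => a j < a i)).card =
          ∑ i ∈ s, v (s.filter (fun j => a j < a i)).card := by
        apply Finset.sum_congr rfl
        intro i hi
        congr 2
        rw [Finset.filter_insert, if_neg (not_lt.mpr (hmax i hi))]
      rw [h2]
      linarith
  refine le_trans (Finset.sum_le_sum (fun i hi => ?_)) (key S)
  apply hv
  exact hr i hi _ (fun j => by rw [Finset.mem_filter])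

end Pool.Agent.Lib.MP_caca3f_an.Opt
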