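import Pool.Agent.Lib.MP_caca3f_an.Ext.Extend

/-!
# Definitions for the optimal upper bound
-/

namespace Pool.Agent.Lib.MP_caca3f_an.Opt

open Finset Pool.Agent.Lib.MP_caca3f_an.Ext

universe u v w

variable {X : Type u} [MetricSpace X] {ι : Type v} [Fintype ι]

/-- the classes much closer to `x` than the class `l` -/
noncomputable def Rk (C : Cover X ι) (ε : ℝ) (l : ι) (x : X) : Finset ι := by
  classical exact univ.filter (fun m => C.δ m x ≤ ε * C.δ l x)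

theorem mem_Rk (C : Cover X ι) (ε : ℝ) (l m : ι) (x : X) :
    m ∈ Rk C ε l x ↔ C.δ m x ≤ ε * C.δ l x := by
  classical
  unfold Rk
  simp

/-- scale parameters: `lam D i = 2^((D-1) i / 2)` -/
noncomputable def lam (D : ℝ) (i : ℕ) : ℝ := (2 : ℝ) ^ ((D - 1) / 2 * (i : ℝ))

theorem one_le_lam (D : ℝ) (hD : 1 ≤ D) (i : ℕ) : 1 ≤ lam D i := by
  apply Real.one_le_rpow (by norm_num)
  have : (0:ℝ) ≤ i := Nat.cast_nonneg i
  apply mul_nonneg _ this
  linarith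

/-- if `2^i ≤ n` then `lam D i ≤ n^((D-1)/2)` -/
theorem lam_le (D : ℝ) (hD : 1 ≤ D) (i n : ℕ) (h : 2 ^ i ≤ n) :
    lam D i ≤ (n : ℝ) ^ ((D - 1) / 2) := by
  unfold lam
  rw [mul_comm, Real.rpow_mul (by norm_num), Real.rpow_natCast]
  apply Real.rpow_le_rpow (by positivity) _ (by linarith)
  exact_mod_cast h

/-- anchor function -/
noncomputable def AA (D : ℝ) (n : ℕ) : ℝ := 20 * D ^ 2 * (n : ℝ) ^ ((D - 1) / 2)

/-- extension operator with anchor function `AA` and local Lipschitz constants `vv`, for near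
pairs of rank at most `j` -/
def IntOp (C : Cover X ι) (D : ℝ) (vv : ℕ → ℝ) (K : Type w) [NormedAddCommGroup K] (j : ℕ) :
    Prop :=
  ∀ (l : ι) (L : ℝ) (f : X → K), 0 ≤ L →
    (∀ x ∈ C.B l, ∀ y ∈ C.B l, ‖f x - f y‖ ≤ L * dist x y) →
    ∃ F : X → K, (∀ x ∈ C.B l, F x = f x) ∧
      (∀ x, ‖F x - f (C.z l x)‖ ≤ AA D (Rk C (1 / (6 * D)) l x).card * L * C.δ l x) ∧
      ∀ x y, Near C (1 / (24 * D)) l x y → (rel C (1 / (6 * D)) l x y).card ≤ j →
        ‖F x - F y‖ ≤ vv (rel C (1 / (6 * D)) l x y).card * L * dist x y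

/-- the recurrence for the local Lipschitz constants -/
def Rec (D : ℝ) (vv : ℕ → ℝ) : Prop :=
  ∀ n N : ℕ, 1 ≤ N → N ≤ n →
    (D + 2 / lam D (Nat.log 2 N)) * ((∑ j ∈ range N, vv j) / N)
      + 17000 * D ^ 4 * ((1 + Real.log n) * (n : ℝ) ^ ((D - 1) / 2)) ≤ vv n

/-- the extension property used for the embedding: bounded anchor, and a Lipschitz constant which
depends on the rank of the class `l` at the point `x` -/
def ExtSharp (C : Cover X ι) (D M : ℝ) (k : ℕ) (l : ι) : Prop :=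
  ∀ (K : Type w) [NormedAddCommGroup K] [InnerProductSpace ℝ K] (L : ℝ) (f : X → K), 0 ≤ L →
    (∀ x ∈ C.B l, ∀ y ∈ C.B l, ‖f x - f y‖ ≤ L * dist x y) →
    ∃ F : X → K, (∀ x ∈ C.B l, F x = f x) ∧
      (∀ x, ‖F x - f (C.z l x)‖ ≤ 12 * D ^ 2 * L * C.δ l x) ∧
      ∀ x y, ‖F x - F y‖ ≤ M * (((Rk C 1 l x).card : ℝ) ^ (D - 1) + (k : ℝ) ^ (3 / 4 * (D - 1)))
        * L * dist x y

end Pool.Agent.Lib.MP_caca3f_an.Opt
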