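import Pool.Agent.Lib.MP_caca3f_an.Opt.Stat
import Pool.Agent.Lib.MP_caca3f_an.Ext.Kernel
import Pool.Agent.Lib.MP_caca3f_an.Ext.Embed

/-!
# JOB S6. Embedding of a finite space with distortion `O(k^(D-1))`
-/

namespace Pool.Agent.Lib.MP_caca3f_an.Opt

open Finset Pool.Agent.Lib.MP_caca3f_an.Ext

universe u v w

section upper

variable {X : Type u} [MetricSpace X] {ι : Type v} [Fintype ι]

theorem embS_one_le_card (C : Cover X ι) (l : ι) (z : X) : 1 ≤ (Rk C 1 l z).card := by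
  rw [Nat.succ_le_iff, Finset.card_pos]
  exact ⟨l, (mem_Rk C 1 l l z).mpr (by rw [one_mul])⟩

open Classical in
/-- the total contribution of one of the two points -/
theorem embS_upper (C : Cover X ι) (D M : ℝ) (hD : 1 < D) (hM : 1 ≤ M) (k : ℕ) (hk1 : 1 ≤ k)
    (hk : Fintype.card ι ≤ k) (I : ℕ) (z : X) :
    ∑ σ : ι ≃ Fin (Fintype.card ι), ∑ l : ι, ∑ j ∈ range I,
      (if (∀ m, σ m < σ l → C.δ l z < C.δ m z) ∧ (Rk C 1 l z).card < 2 ^ j then
        ((k : ℝ) / 2 ^ j) ^ ((D - 1) / 2) *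
          (18 + 2 * (M * (((Rk C 1 l z).card : ℝ) ^ (D - 1) + (k : ℝ) ^ (3 / 4 * (D - 1)))) ^ 2)
        else 0) ≤
      (22 * M ^ 2 / (1 - (2 : ℝ) ^ (-((D - 1) / 2))) * (2 + 2 / (3 * (D - 1)) + 2 / (D - 1))) *
        ((Fintype.card ι).factorial : ℝ) * (k : ℝ) ^ (2 * (D - 1)) := by
  set x : ℝ := D - 1 with hx
  have hx0 : 0 < x := by linarith
  have hkr : (1 : ℝ) ≤ k := by exact_mod_cast hk1
  have hk0 : (0 : ℝ) < k := by linarith
  have hR0 : 0 < 1 - (2 : ℝ) ^ (-(x / 2)) := by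
    have : (2 : ℝ) ^ (-(x / 2)) < 1 :=
      Real.rpow_lt_one_of_one_lt_of_neg (by norm_num) (by linarith)
    linarith
  set R0 : ℝ := 1 - (2 : ℝ) ^ (-(x / 2)) with hR0def
  set r : ι → ℕ := fun l => (Rk C 1 l z).card with hr
  have hr1 : ∀ l, 1 ≤ r l := fun l => embS_one_le_card C l z
  have hr1' : ∀ l, (1 : ℝ) ≤ r l := fun l => by exact_mod_cast hr1 l
  have hr0 : ∀ l, (0 : ℝ) < r l := fun l => by linarith [hr1' l]
  have hrank : ∀ l, ∀ T : Finset ι, (∀ m, m ∈ T ↔ C.δ m z ≤ C.δ l z) → r l = T.card := by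
    intro l T hT
    have : Rk C 1 l z = T := by
      ext m
      rw [mem_Rk, hT, one_mul]
    rw [hr]
    show (Rk C 1 l z).card = _
    rw [this]
  -- rewrite the sum
  set Q : ι → ℝ := fun l => 18 + 2 * (M * ((r l : ℝ) ^ x + (k : ℝ) ^ (3 / 4 * x))) ^ 2 with hQ
  have hQ0 : ∀ l, 0 ≤ Q l := fun l => by positivity
  have hfac : (0 : ℝ) < ((Fintype.card ι).factorial : ℝ) := by positivity
  -- sum over levels
  have hlev : ∀ l, ∑ j ∈ (range I).filter (fun j => r l < 2 ^ j),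
      ((k : ℝ) / 2 ^ j) ^ (x / 2) * Q l ≤
      ((k : ℝ) ^ (x / 2) * (1 / R0 * (r l : ℝ) ^ (-(x / 2)))) * Q l := by
    intro l
    rw [← Finset.sum_mul]
    apply mul_le_mul_of_nonneg_right _ (hQ0 l)
    have h1 := geom_levels (x / 2) (by linarith) (r l) (hr1 l) I
    calc ∑ j ∈ (range I).filter (fun j => r l < 2 ^ j), ((k : ℝ) / 2 ^ j) ^ (x / 2)
        = (k : ℝ) ^ (x / 2) *
          ∑ j ∈ (range I).filter (fun j => r l < 2 ^ j), ((2 : ℝ) ^ j) ^ (-(x / 2)) := by
          rw [Finset.mul_sum]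
          refine Finset.sum_congr rfl (fun j _ => ?_)
          rw [Real.div_rpow hk0.le (by positivity), Real.rpow_neg (by positivity), div_eq_mul_inv]
      _ ≤ _ := mul_le_mul_of_nonneg_left h1 (by positivity)
  -- bound of `Q`
  have hQle : ∀ l, Q l ≤ 22 * M ^ 2 * ((r l : ℝ) ^ (2 * x) + (k : ℝ) ^ (3 / 2 * x)) := by
    intro l
    have e1 : ((r l : ℝ) ^ x) ^ 2 = (r l : ℝ) ^ (2 * x) := by
      rw [← Real.rpow_natCast, ← Real.rpow_mul (hr0 l).le]
      congr 1; push_cast; ring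
    have e2 : ((k : ℝ) ^ (3 / 4 * x)) ^ 2 = (k : ℝ) ^ (3 / 2 * x) := by
      rw [← Real.rpow_natCast, ← Real.rpow_mul hk0.le]
      congr 1; push_cast; ring
    have h1 : (1 : ℝ) ≤ (k : ℝ) ^ (3 / 2 * x) := Real.one_le_rpow hkr (by positivity)
    have h2 : ((r l : ℝ) ^ x + (k : ℝ) ^ (3 / 4 * x)) ^ 2 ≤
        2 * ((r l : ℝ) ^ (2 * x) + (k : ℝ) ^ (3 / 2 * x)) := by
      rw [← e1, ← e2]
      nlinarith [sq_nonneg ((r l : ℝ) ^ x - (k : ℝ) ^ (3 / 4 * x))]
    have h3 : (0 : ℝ) ≤ (r l : ℝ) ^ (2 * x) := by positivity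
    have hM2 : 1 ≤ M ^ 2 := by nlinarith
    calc Q l = 18 + 2 * M ^ 2 * ((r l : ℝ) ^ x + (k : ℝ) ^ (3 / 4 * x)) ^ 2 := by
          rw [hQ]; ring
      _ ≤ 18 + 2 * M ^ 2 * (2 * ((r l : ℝ) ^ (2 * x) + (k : ℝ) ^ (3 / 2 * x))) := by gcongr
      _ ≤ 22 * M ^ 2 * ((r l : ℝ) ^ (2 * x) + (k : ℝ) ^ (3 / 2 * x)) := by
          have h4 : 1 ≤ M ^ 2 * (k : ℝ) ^ (3 / 2 * x) := one_le_mul_of_one_le_of_one_le hM2 h1
          have h5 : 0 ≤ M ^ 2 * (r l : ℝ) ^ (2 * x) := by positivity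
          nlinarith
  -- the number of orders
  have hrec : ∀ l, ((univ.filter (fun σ : ι ≃ Fin (Fintype.card ι) =>
      ∀ m, σ m < σ l → C.δ l z < C.δ m z)).card : ℝ) ≤
      ((Fintype.card ι).factorial : ℝ) * (1 / (r l : ℝ)) := by
    intro l
    have h1 := record_count (fun m => C.δ m z) l
    have h2 : (univ.filter (fun m => C.δ m z ≤ C.δ l z)).card = r l := by
      symm
      apply hrank l
      intro m
      simp
    rw [h2] at h1
    rw [mul_one_div, le_div_iff₀ (hr0 l), mul_comm]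
    exact h1
  have hmain : ∑ σ : ι ≃ Fin (Fintype.card ι), ∑ l : ι, ∑ j ∈ range I,
      (if (∀ m, σ m < σ l → C.δ l z < C.δ m z) ∧ r l < 2 ^ j then
        ((k : ℝ) / 2 ^ j) ^ (x / 2) * Q l else 0) =
      ∑ l : ι, ((univ.filter (fun σ : ι ≃ Fin (Fintype.card ι) =>
      ∀ m, σ m < σ l → C.δ l z < C.δ m z)).card : ℝ) *
        ∑ j ∈ (range I).filter (fun j => r l < 2 ^ j), ((k : ℝ) / 2 ^ j) ^ (x / 2) * Q l := by
    rw [Finset.sum_comm]
    refine Finset.sum_congr rfl (fun l _ => ?_)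
    have h1 : ∀ σ : ι ≃ Fin (Fintype.card ι), (∑ j ∈ range I,
      (if (∀ m, σ m < σ l → C.δ l z < C.δ m z) ∧ r l < 2 ^ j then
        ((k : ℝ) / 2 ^ j) ^ (x / 2) * Q l else 0)) =
        if (∀ m, σ m < σ l → C.δ l z < C.δ m z) then
          ∑ j ∈ (range I).filter (fun j => r l < 2 ^ j), ((k : ℝ) / 2 ^ j) ^ (x / 2) * Q l
          else 0 := by
      intro σ
      by_cases h : ∀ m, σ m < σ l → C.δ l z < C.δ m z
      · rw [if_pos h, Finset.sum_filter]
        refine Finset.sum_congr rfl (fun j _ => ?_)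
        by_cases hj : r l < 2 ^ j
        · rw [if_pos ⟨h, hj⟩, if_pos hj]
        · rw [if_neg (fun h2 => hj h2.2), if_neg hj]
      · rw [if_neg h]
        apply Finset.sum_eq_zero
        intro j _
        rw [if_neg]
        intro h2
        exact h h2.1
    simp only [h1]
    rw [← Finset.sum_filter, Finset.sum_const, nsmul_eq_mul]
  have hgoal : ∑ σ : ι ≃ Fin (Fintype.card ι), ∑ l : ι, ∑ j ∈ range I,
      (if (∀ m, σ m < σ l → C.δ l z < C.δ m z) ∧ r l < 2 ^ j then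
        ((k : ℝ) / 2 ^ j) ^ (x / 2) * Q l else 0) ≤
      (22 * M ^ 2 / R0 * (2 + 2 / (3 * x) + 2 / x)) *
        ((Fintype.card ι).factorial : ℝ) * (k : ℝ) ^ (2 * x) := by
    rw [hmain]
    calc ∑ l : ι, ((univ.filter (fun σ : ι ≃ Fin (Fintype.card ι) =>
          ∀ m, σ m < σ l → C.δ l z < C.δ m z)).card : ℝ) *
          ∑ j ∈ (range I).filter (fun j => r l < 2 ^ j), ((k : ℝ) / 2 ^ j) ^ (x / 2) * Q l
        ≤ ∑ l : ι, (((Fintype.card ι).factorial : ℝ) * (1 / (r l : ℝ))) *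
          (((k : ℝ) ^ (x / 2) * (1 / R0 * (r l : ℝ) ^ (-(x / 2)))) *
            (22 * M ^ 2 * ((r l : ℝ) ^ (2 * x) + (k : ℝ) ^ (3 / 2 * x)))) := by
          refine Finset.sum_le_sum (fun l _ => ?_)
          refine mul_le_mul (hrec l) ((hlev l).trans ?_) ?_ ?_
          · exact mul_le_mul_of_nonneg_left (hQle l) (by have := hr0 l; positivity)
          · exact Finset.sum_nonneg (fun j _ => mul_nonneg (by positivity) (hQ0 l))
          · have := hr0 l; positivity
      _ = ((Fintype.card ι).factorial : ℝ) * (22 * M ^ 2 / R0) * (k : ℝ) ^ (x / 2) *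
          (∑ l : ι, (1 / (r l : ℝ)) * (r l : ℝ) ^ (3 / 2 * x) +
            (k : ℝ) ^ (3 / 2 * x) * ∑ l : ι, (1 / (r l : ℝ)) * (r l : ℝ) ^ (-(x / 2))) := by
          rw [Finset.mul_sum, ← Finset.sum_add_distrib, Finset.mul_sum]
          refine Finset.sum_congr rfl (fun l _ => ?_)
          have e1 : (r l : ℝ) ^ (3 / 2 * x) = (r l : ℝ) ^ (-(x / 2)) * (r l : ℝ) ^ (2 * x) := by
            rw [← Real.rpow_add (hr0 l)]
            congr 1; ring
          rw [e1]
          ring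
      _ ≤ ((Fintype.card ι).factorial : ℝ) * (22 * M ^ 2 / R0) * (k : ℝ) ^ (x / 2) *
          ((1 + 1 / (3 / 2 * x)) * (k : ℝ) ^ (3 / 2 * x) +
            (k : ℝ) ^ (3 / 2 * x) * (1 + 1 / (x / 2))) := by
          have h1 := sum_ranks (fun m => C.δ m z) r hrank k hk (3 / 2 * x) (by linarith)
          have h2 := sum_ranks_neg (fun m => C.δ m z) r hrank (x / 2) (by linarith)
          have h3 : (0 : ℝ) ≤ (k : ℝ) ^ (3 / 2 * x) := by positivity
          apply mul_le_mul_of_nonneg_left _ (by positivity)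
          exact add_le_add h1 (mul_le_mul_of_nonneg_left h2 h3)
      _ = _ := by
          have e1 : (k : ℝ) ^ (2 * x) = (k : ℝ) ^ (x / 2) * (k : ℝ) ^ (3 / 2 * x) := by
            rw [← Real.rpow_add hk0]
            congr 1; ring
          rw [e1]
          field_simp
          ring
  exact hgoal

/-- the amplitude of the class `l` at the level with order statistic `b` -/
noncomputable def ampl (C : Cover X ι) (Δ : ℝ) (b : X → ℝ) (σ : ι ≃ Fin (Fintype.card ι)) (l : ι)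
    (x : X) : ℝ :=
  max (min (aval C Δ σ l x) (b x) - C.δ l x) 0

theorem ampl_nonneg (C : Cover X ι) (Δ : ℝ) (b : X → ℝ) (σ : ι ≃ Fin (Fintype.card ι)) (l : ι)
    (x : X) : 0 ≤ ampl C Δ b σ l x := le_max_right _ _

theorem ampl_lip1 (C : Cover X ι) (Δ : ℝ) (b : X → ℝ) (hb : ∀ x y, |b x - b y| ≤ dist x y)
    (σ : ι ≃ Fin (Fintype.card ι)) (l : ι) (x y : X) :
    ampl C Δ b σ l x ≤ ampl C Δ b σ l y + 2 * dist x y := by
  have h1 := aval_lip C Δ σ l x y
  have h2 := C.δ_le l y x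
  have h4 := (abs_le.mp (hb x y)).2
  rw [dist_comm y x] at h2
  have h3 : min (aval C Δ σ l y) (b y) - C.δ l y ≤ ampl C Δ b σ l y := le_max_left _ _
  have h5 : min (aval C Δ σ l x) (b x) ≤ min (aval C Δ σ l y) (b y) + dist x y := by
    rw [← sub_le_iff_le_add]
    refine le_min ?_ ?_
    · have := min_le_left (aval C Δ σ l x) (b x)
      linarith
    · have := min_le_right (aval C Δ σ l x) (b x)
      linarith
  refine max_le (by linarith) ?_
  have := ampl_nonneg C Δ b σ l y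
  have := dist_nonneg (x := x) (y := y)
  linarith

theorem ampl_lip (C : Cover X ι) (Δ : ℝ) (b : X → ℝ) (hb : ∀ x y, |b x - b y| ≤ dist x y)
    (σ : ι ≃ Fin (Fintype.card ι)) (l : ι) (x y : X) :
    (ampl C Δ b σ l x - ampl C Δ b σ l y) ^ 2 ≤ 4 * dist x y ^ 2 := by
  have h1 := ampl_lip1 C Δ b hb σ l x y
  have h2 := ampl_lip1 C Δ b hb σ l y x
  rw [dist_comm y x] at h2
  have h3 : |ampl C Δ b σ l x - ampl C Δ b σ l y| ≤ 2 * dist x y := by
    rw [abs_sub_le_iff]
    constructor <;> linarith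
  calc (ampl C Δ b σ l x - ampl C Δ b σ l y) ^ 2 =
        |ampl C Δ b σ l x - ampl C Δ b σ l y| ^ 2 := by
        rw [sq_abs]
    _ ≤ (2 * dist x y) ^ 2 := by
        exact pow_le_pow_left₀ (abs_nonneg _) h3 2
    _ = 4 * dist x y ^ 2 := by ring

theorem ampl_eq_zero (C : Cover X ι) (Δ : ℝ) (b : X → ℝ) (J : ℕ)
    (hb : ∀ x t, ∀ T : Finset ι, (∀ m, m ∈ T ↔ C.δ m x ≤ t) → J ≤ T.card → b x ≤ t)
    (σ : ι ≃ Fin (Fintype.card ι)) (l : ι) (x : X)
    (h : ¬ ((∀ m, σ m < σ l → C.δ l x < C.δ m x) ∧ (Rk C 1 l x).card < J)) :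
    ampl C Δ b σ l x = 0 := by
  unfold ampl
  apply max_eq_right
  rw [not_and_or] at h
  rcases h with h | h
  · push Not at h
    obtain ⟨m, hm, h2⟩ := h
    have h3 := aval_le C Δ σ x hm
    have h4 := min_le_left (aval C Δ σ l x) (b x)
    linarith
  · push Not at h
    have h3 := hb x (C.δ l x) (Rk C 1 l x) (by intro m; rw [mem_Rk, one_mul]) h
    have h4 := min_le_right (aval C Δ σ l x) (b x)
    linarith

end upper

theorem sharp_embedding (D M : ℝ) (hD : 1 < D) (hM : 1 ≤ M) : ∃ W : ℝ, 1 ≤ W ∧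
    ∀ {X : Type u} [Fintype X] [MetricSpace X] {ι : Type v} [Fintype ι]
      (C : Cover X ι) (H : ι → Type w)
      [∀ l, NormedAddCommGroup (H l)] [∀ l, InnerProductSpace ℝ (H l)] (φ : ∀ l, X → H l)
      (_ : ∀ l, ∀ x ∈ C.B l, ∀ y ∈ C.B l, dist x y ≤ ‖φ l x - φ l y‖)
      (_ : ∀ l, ∀ x ∈ C.B l, ∀ y ∈ C.B l, ‖φ l x - φ l y‖ ≤ D * dist x y)
      (k : ℕ) (_ : 1 ≤ k) (_ : Fintype.card ι ≤ k) (_ : ∀ l, ExtSharp.{u, v, w} C D M k l),
      ∃ (K : Type (max u v)) (_ : NormedAddCommGroup K) (_ : InnerProductSpace ℝ K) (F : X → K),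
        ∀ x y, dist x y ^ 2 ≤ ‖F x - F y‖ ^ 2 ∧
          ‖F x - F y‖ ^ 2 ≤ (W * (k : ℝ) ^ (D - 1)) ^ 2 * dist x y ^ 2 := by
  classical
  have hx0 : 0 < D - 1 := by linarith
  have hD0 : 0 < D := by linarith
  obtain ⟨C1, hC1⟩ : ∃ C1 : ℝ, C1 = 22 * M ^ 2 / (1 - (2 : ℝ) ^ (-((D - 1) / 2))) *
    (2 + 2 / (3 * (D - 1)) + 2 / (D - 1)) := ⟨_, rfl⟩
  have hR0 : 0 < 1 - (2 : ℝ) ^ (-((D - 1) / 2)) := by
    have : (2 : ℝ) ^ (-((D - 1) / 2)) < 1 :=
      Real.rpow_lt_one_of_one_lt_of_neg (by norm_num) (by linarith)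
    linarith
  have hC10 : 0 ≤ C1 := by rw [hC1]; positivity
  obtain ⟨q, hq⟩ : ∃ q : ℝ, q = (2 : ℝ) ^ (-(4 / (D - 1))) := ⟨_, rfl⟩
  have hq0 : 0 < q := by rw [hq]; positivity
  have hq1 : q < 1 := by
    rw [hq]
    apply Real.rpow_lt_one_of_one_lt_of_neg (by norm_num)
    have : 0 < 4 / (D - 1) := by positivity
    linarith
  obtain ⟨C2, hC2⟩ : ∃ C2 : ℝ, C2 = 4 * (2 : ℝ) ^ ((D - 1) / 2) / q *
    (16 * (1 + 12 * D ^ 2 * D) ^ 2) := ⟨_, rfl⟩
  have hC20 : 0 ≤ C2 := by rw [hC2]; positivity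
  refine ⟨1 + C2 * (2 * C1), by nlinarith [mul_nonneg hC20 hC10], ?_⟩
  intro X _ _ ι _ C H _ _ φ hφ1 hφ2 k hk1 hk hext
  have hkr : (1 : ℝ) ≤ k := by exact_mod_cast hk1
  have hk0 : (0 : ℝ) < k := by linarith
  -- extensions
  have h0 := fun l => hext l (H l) 1 (fun x => D⁻¹ • φ l x) zero_le_one (by
    intro x hx y hy
    rw [← smul_sub, norm_smul, Real.norm_of_nonneg (inv_nonneg.mpr hD0.le), one_mul]
    calc D⁻¹ * ‖φ l x - φ l y‖ ≤ D⁻¹ * (D * dist x y) :=
          mul_le_mul_of_nonneg_left (hφ2 l x hx y hy) (inv_nonneg.mpr hD0.le)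
      _ = dist x y := by field_simp)
  choose F hF1 hF2 hF3 using h0
  simp only [mul_one] at hF2 hF3
  -- the maps `u_l`
  set U : ∀ l : ι, X → WithLp 2 (H l × ℝ) := fun l x => WithLp.toLp 2 (F l x, C.δ l x) with hU
  have hUn : ∀ l x y, ‖U l x - U l y‖ ^ 2 = ‖F l x - F l y‖ ^ 2 + (C.δ l x - C.δ l y) ^ 2 := by
    intro l x y
    rw [WithLp.prod_norm_sq_eq_of_L2]
    simp [hU]
  obtain ⟨Δ, hΔ0, hΔ⟩ : ∃ Δ : ℝ, 0 ≤ Δ ∧ ∀ x y : X, dist x y ≤ Δ := by
    refine ⟨∑ a : X, ∑ b : X, dist a b,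
      Finset.sum_nonneg (fun _ _ => Finset.sum_nonneg (fun _ _ => dist_nonneg)), fun x y => ?_⟩
    calc dist x y ≤ ∑ b : X, dist x b :=
          Finset.single_le_sum (f := fun b : X => dist x b) (fun _ _ => dist_nonneg) (mem_univ y)
      _ ≤ ∑ a : X, ∑ b : X, dist a b :=
          Finset.single_le_sum (f := fun a : X => ∑ b : X, dist a b)
            (fun _ _ => Finset.sum_nonneg (fun _ _ => dist_nonneg)) (mem_univ x)
  -- order statistics
  choose b hb1 hb2 hb3 hb4 hb5 using fun j : ℕ => exists_stat C Δ hΔ0 (2 ^ j) Nat.one_le_two_pow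
  obtain ⟨I, hI⟩ : ∃ I : ℕ, I = Nat.log 2 k + 2 := ⟨_, rfl⟩
  set g : ℕ → ℝ := fun j => ((k : ℝ) / 2 ^ j) ^ ((D - 1) / 4) with hg
  have hg0 : ∀ j, 0 < g j := fun j => by
    show 0 < ((k : ℝ) / 2 ^ j) ^ ((D - 1) / 4)
    positivity
  have hgsq : ∀ j, g j ^ 2 = ((k : ℝ) / 2 ^ j) ^ ((D - 1) / 2) := by
    intro j
    show (((k : ℝ) / 2 ^ j) ^ ((D - 1) / 4)) ^ 2 = _
    rw [← Real.rpow_natCast, ← Real.rpow_mul (by positivity)]
    congr 1; push_cast; ring
  have hb4' : ∀ j x t, ∀ T : Finset ι, (∀ m, m ∈ T ↔ C.δ m x ≤ t) → 2 ^ j ≤ T.card →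
      b j x ≤ t := by
    intro j x t T hT hc
    apply hb4 j x t
    have : (univ.filter (fun m => C.δ m x ≤ t)) = T := by
      ext m; simp [hT]
    rw [this]; exact hc
  have hb5' : ∀ j x t, ∀ T : Finset ι, (∀ m, C.δ m x ≤ t → m ∈ T) → t ≤ Δ → T.card < 2 ^ j →
      t ≤ b j x := by
    intro j x t T hT ht hc
    apply hb5 j x t ht
    refine lt_of_le_of_lt (Finset.card_le_card ?_) hc
    intro m hm
    exact hT m (by simpa using hm)
  have hK := fun p : (ι ≃ Fin (Fintype.card ι)) × ι × Fin I =>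
    kernel_bounds (fun x => g p.2.2 * ampl C Δ (b p.2.2) p.1 p.2.1 x)
      (fun x => mul_nonneg (hg0 _).le (ampl_nonneg C Δ _ p.1 p.2.1 x))
      (fun x => g p.2.2 • U p.2.1 x)
  choose K instN instI instC T hT1 hT2 hT3 using hK
  have hgU : ∀ (j : ℕ) l x y, ‖g j • U l x - g j • U l y‖ ^ 2 = g j ^ 2 * ‖U l x - U l y‖ ^ 2 := by
    intro j l x y
    rw [← smul_sub, norm_smul, mul_pow, Real.norm_of_nonneg (hg0 j).le]
  have hfac : (0 : ℝ) < ((Fintype.card ι).factorial : ℝ) := by positivity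
  have hCD : 0 < 1 + 12 * D ^ 2 * D := by positivity
  set A : ℝ := C2 / ((Fintype.card ι).factorial : ℝ) with hA
  have hA0 : 0 ≤ A := by positivity
  refine ⟨PiLp 2 K, inferInstance, inferInstance,
    fun x => Real.sqrt A • WithLp.toLp 2 (fun p => T p x), fun x y => ?_⟩
  have hnorm : ‖Real.sqrt A • WithLp.toLp 2 (fun p => T p x) -
      Real.sqrt A • WithLp.toLp 2 (fun p => T p y)‖ ^ 2 =
      A * ∑ σ : ι ≃ Fin (Fintype.card ι), ∑ l : ι, ∑ j : Fin I,
        ‖T (σ, l, j) x - T (σ, l, j) y‖ ^ 2 := by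
    rw [← smul_sub, norm_smul, mul_pow, Real.norm_of_nonneg (Real.sqrt_nonneg _),
      Real.sq_sqrt hA0, PiLp.norm_sq_eq_of_L2, Fintype.sum_prod_type]
    simp [Fintype.sum_prod_type]
  rw [hnorm]
  constructor
  · -- lower bound
    rcases eq_or_ne x y with rfl | hxy
    · simp
    have hs : 0 < dist x y := dist_pos.mpr hxy
    obtain ⟨l0, hl0⟩ := C.cov x
    set τ0 : ℝ := dist x y / (4 * (1 + 12 * D ^ 2 * D)) with hτ0
    have hτ0pos : 0 < τ0 := by positivity
    have hsτ : dist x y = 4 * (1 + 12 * D ^ 2 * D) * τ0 := by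
      rw [hτ0]; field_simp
    set τ : ℕ → ℝ := fun i => τ0 / 2 ^ i with hτ
    have hτpos : ∀ i, 0 < τ i := fun i => by
      show 0 < τ0 / 2 ^ i
      positivity
    have hτle : ∀ i, τ i ≤ τ0 := fun i =>
      div_le_self hτ0pos.le (one_le_pow₀ (by norm_num))
    have hτstep : ∀ i, τ (i + 1) = τ i / 2 := by
      intro i
      simp only [hτ]
      rw [pow_succ]
      field_simp
    set N : ℕ → Finset ι := fun i => univ.filter (fun m => min (C.δ m x) (C.δ m y) ≤ τ i) with hN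
    have hmono : ∀ i, N (i + 1) ⊆ N i := by
      intro i m hm
      simp only [hN, mem_filter, mem_univ, true_and] at hm ⊢
      have := hτstep i
      have := hτpos i
      linarith
    have hne : ∀ i, (N i).Nonempty := by
      intro i
      refine ⟨l0, ?_⟩
      simp only [hN, mem_filter, mem_univ, true_and]
      rw [C.δ_eq_zero hl0]
      exact (min_le_left _ _).trans (hτpos i).le
    obtain ⟨i, hcard, hsize⟩ := chain_q k hk N hne q hq0 hq1
    obtain ⟨G, hgood, hG⟩ : ∃ G : Finset (ι ≃ Fin (Fintype.card ι)),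
        q * ((Fintype.card ι).factorial : ℝ) ≤ (G.card : ℝ) ∧
        ∀ σ ∈ G, ∃ l ∈ N (i + 1), ∀ m ∈ N i, m ≠ l → σ l < σ m :=
      ⟨_, first_mem_q (N i) (N (i + 1)) (hmono i) (hne i) q hcard,
        fun σ hσ => (Finset.mem_filter.mp hσ).2⟩
    -- the level
    have hNpos : 0 < (N i).card := Finset.card_pos.mpr (hne i)
    have hNk : (N i).card ≤ k := (Finset.card_le_univ _).trans hk
    obtain ⟨j, hj⟩ : ∃ j : ℕ, j = Nat.log 2 (N i).card + 1 := ⟨_, rfl⟩
    have hjI : j < I := by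
      have := Nat.log_mono_right (b := 2) hNk
      omega
    have hj1 : (N i).card < 2 ^ j := by
      rw [hj]
      exact Nat.lt_pow_succ_log_self (by norm_num) _
    have hj2 : 2 ^ j ≤ 2 * (N i).card := by
      rw [hj, pow_succ]
      have := Nat.pow_log_le_self 2 hNpos.ne'
      omega
    have hgj : (2 : ℝ) ^ (-((D - 1) / 2)) * 4 ^ i ≤ g j ^ 2 := by
      rw [hgsq]
      have h1 : (2 : ℝ) ^ j ≤ 2 * (q ^ i * k) := by
        calc (2 : ℝ) ^ j ≤ 2 * ((N i).card : ℝ) := by exact_mod_cast hj2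
          _ ≤ 2 * (q ^ i * k) := by linarith
      have h2 : (2 * q ^ i)⁻¹ ≤ (k : ℝ) / 2 ^ j := by
        rw [le_div_iff₀ (by positivity)]
        calc (2 * q ^ i)⁻¹ * 2 ^ j ≤ (2 * q ^ i)⁻¹ * (2 * (q ^ i * k)) := by gcongr
          _ = k := by field_simp
      refine le_trans (le_of_eq ?_) (Real.rpow_le_rpow (by positivity) h2 (by linarith))
      rw [Real.inv_rpow (by positivity), Real.mul_rpow (by norm_num) (by positivity), mul_inv,
        ← Real.rpow_neg (by norm_num)]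
      congr 1
      have h3 : (q ^ i : ℝ) ^ ((D - 1) / 2) = (4 ^ i)⁻¹ := by
        have h4 : -(4 / (D - 1)) * (i : ℝ) * ((D - 1) / 2) = -((2 * i : ℕ) : ℝ) := by
          push_cast
          field_simp
          ring
        have h20 : (0 : ℝ) ≤ 2 := by norm_num
        rw [hq, ← Real.rpow_mul_natCast h20, ← Real.rpow_mul h20, h4, Real.rpow_neg h20,
          Real.rpow_natCast, pow_mul]
        norm_num
      rw [h3, inv_inv]
    -- for a good order the sum over `l` is large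
    have hkey : ∀ σ : ι ≃ Fin (Fintype.card ι), (∃ l ∈ N (i + 1), ∀ m ∈ N i, m ≠ l → σ l < σ m) →
        (2 : ℝ) ^ (-((D - 1) / 2)) * (τ0 ^ 2 / 4) ≤
          ∑ l : ι, ∑ j : Fin I, ‖T (σ, l, j) x - T (σ, l, j) y‖ ^ 2 := by
      rintro σ ⟨l, hl, hfirst⟩
      refine le_trans ?_ (Finset.single_le_sum
        (f := fun l => ∑ j : Fin I, ‖T (σ, l, j) x - T (σ, l, j) y‖ ^ 2)
        (fun _ _ => Finset.sum_nonneg (fun _ _ => sq_nonneg _)) (mem_univ l))
      refine le_trans ?_ (Finset.single_le_sum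
        (f := fun j : Fin I => ‖T (σ, l, j) x - T (σ, l, j) y‖ ^ 2)
        (fun _ _ => sq_nonneg _) (mem_univ (⟨j, hjI⟩ : Fin I)))
      -- symmetric statement
      have hcore : ∀ p q' : X, dist p q' = 4 * (1 + 12 * D ^ 2 * D) * τ0 →
          C.δ l p ≤ τ (i + 1) → (∀ m, C.δ m p ≤ τ i → m ∈ N i) →
          (∀ m, σ m < σ l → τ i ≤ C.δ m p) →
          (2 : ℝ) ^ (-((D - 1) / 2)) * (τ0 ^ 2 / 4) ≤
            ‖T (σ, l, ⟨j, hjI⟩) p - T (σ, l, ⟨j, hjI⟩) q'‖ ^ 2 := by
        intro p q' hpq hp hmem hm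
        have h8 : (2 : ℝ) ^ (-((D - 1) / 2)) * (τ0 ^ 2 / 4) ≤ (g j * (τ i / 2)) ^ 2 := by
          have h9 : (4 : ℝ) ^ i * τ i ^ 2 = τ0 ^ 2 := by
            simp only [hτ]
            rw [div_pow, ← pow_mul, mul_comm i 2, pow_mul]
            norm_num
            field_simp
          calc (2 : ℝ) ^ (-((D - 1) / 2)) * (τ0 ^ 2 / 4)
              = ((2 : ℝ) ^ (-((D - 1) / 2)) * 4 ^ i) * (τ i ^ 2 / 4) := by rw [← h9]; ring
            _ ≤ g j ^ 2 * (τ i ^ 2 / 4) := by gcongr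
            _ = (g j * (τ i / 2)) ^ 2 := by ring
        refine h8.trans (le_trans ?_ (hT3 (σ, l, ⟨j, hjI⟩) p q'))
        refine le_min ?_ ?_
        · refine pow_le_pow_left₀ (by have := hg0 j; have := hτpos i; positivity) ?_ 2
          show g j * (τ i / 2) ≤ g j * ampl C Δ (b j) σ l p
          refine mul_le_mul_of_nonneg_left ?_ (hg0 j).le
          have hΔ' : τ i ≤ Δ := by
            refine (hτle i).trans (le_trans ?_ (hΔ p q'))
            rw [hpq]
            have hCD' : 0 ≤ 12 * D ^ 2 * D := by positivity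
            nlinarith [mul_nonneg hCD' hτ0pos.le]
          have h1 : τ i ≤ aval C Δ σ l p := le_aval C σ p hΔ' hm
          have h2 : τ i ≤ b j p := hb5' j p (τ i) (N i) hmem hΔ' hj1
          have h3 : τ i ≤ min (aval C Δ σ l p) (b j p) := le_min h1 h2
          calc τ i / 2 ≤ min (aval C Δ σ l p) (b j p) - C.δ l p := by
                rw [hτstep] at hp; linarith
            _ ≤ ampl C Δ (b j) σ l p := le_max_left _ _
        · show (g j * (τ i / 2)) ^ 2 ≤ ‖g j • U l p - g j • U l q'‖ ^ 2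
          rw [hgU, hUn, mul_pow]
          refine mul_le_mul_of_nonneg_left ?_ (sq_nonneg _)
          have h1 := sep_lower C D hD.le (φ l) l (hφ1 l) (12 * D ^ 2) (by nlinarith) (F l)
            (hF2 l) p q' τ0 hτ0pos.le hpq (hp.trans (hτle _))
          refine le_trans ?_ h1
          refine pow_le_pow_left₀ (by have := hτpos i; positivity) ?_ 2
          have := hτle i
          have := hτpos i
          linarith
      have hl' : min (C.δ l x) (C.δ l y) ≤ τ (i + 1) := by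
        simpa only [hN, mem_filter, mem_univ, true_and] using hl
      have hmemx : ∀ m, C.δ m x ≤ τ i → m ∈ N i := by
        intro m hm
        simp only [hN, mem_filter, mem_univ, true_and]
        exact (min_le_left _ _).trans hm
      have hmemy : ∀ m, C.δ m y ≤ τ i → m ∈ N i := by
        intro m hm
        simp only [hN, mem_filter, mem_univ, true_and]
        exact (min_le_right _ _).trans hm
      have hnot : ∀ m, σ m < σ l → τ i < min (C.δ m x) (C.δ m y) := by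
        intro m hm
        by_contra hcon
        push Not at hcon
        have hmem : m ∈ N i := by
          simpa only [hN, mem_filter, mem_univ, true_and] using hcon
        have hml : m ≠ l := by
          rintro rfl
          exact lt_irrefl _ hm
        exact lt_asymm hm (hfirst m hmem hml)
      rcases min_le_iff.mp hl' with h | h
      · exact hcore x y hsτ h hmemx (fun m hm => ((hnot m hm).trans_le (min_le_left _ _)).le)
      · have := hcore y x (by rw [dist_comm]; exact hsτ) h hmemy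
          (fun m hm => ((hnot m hm).trans_le (min_le_right _ _)).le)
        rwa [norm_sub_rev] at this
    have hsum : (q * ((Fintype.card ι).factorial : ℝ)) *
        ((2 : ℝ) ^ (-((D - 1) / 2)) * (τ0 ^ 2 / 4)) ≤
        ∑ σ : ι ≃ Fin (Fintype.card ι), ∑ l : ι, ∑ j : Fin I,
          ‖T (σ, l, j) x - T (σ, l, j) y‖ ^ 2 := by
      calc (q * ((Fintype.card ι).factorial : ℝ)) *
          ((2 : ℝ) ^ (-((D - 1) / 2)) * (τ0 ^ 2 / 4))
          ≤ (G.card : ℝ) * ((2 : ℝ) ^ (-((D - 1) / 2)) * (τ0 ^ 2 / 4)) :=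
            mul_le_mul_of_nonneg_right hgood (by positivity)
        _ = ∑ σ ∈ G, ((2 : ℝ) ^ (-((D - 1) / 2)) * (τ0 ^ 2 / 4)) := by
            rw [Finset.sum_const, nsmul_eq_mul]
        _ ≤ ∑ σ ∈ G, ∑ l : ι, ∑ j : Fin I, ‖T (σ, l, j) x - T (σ, l, j) y‖ ^ 2 :=
            Finset.sum_le_sum fun σ hσ => hkey σ (hG σ hσ)
        _ ≤ _ := Finset.sum_le_sum_of_subset_of_nonneg (Finset.subset_univ _)
            (fun _ _ _ => Finset.sum_nonneg fun _ _ => Finset.sum_nonneg fun _ _ => sq_nonneg _)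
    calc dist x y ^ 2 = A * ((q * ((Fintype.card ι).factorial : ℝ)) *
          ((2 : ℝ) ^ (-((D - 1) / 2)) * (τ0 ^ 2 / 4))) := by
          rw [hA, hC2, hsτ, Real.rpow_neg (by norm_num)]
          field_simp
          ring
      _ ≤ _ := mul_le_mul_of_nonneg_left hsum hA0
  · -- upper bound
    set V : ι → X → ℝ := fun l z =>
      M * (((Rk C 1 l z).card : ℝ) ^ (D - 1) + (k : ℝ) ^ (3 / 4 * (D - 1))) with hV
    set S : (ι ≃ Fin (Fintype.card ι)) → ι → ℕ → X → Prop := fun σ l j z =>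
      (∀ m, σ m < σ l → C.δ l z < C.δ m z) ∧ (Rk C 1 l z).card < 2 ^ j with hS
    set E : ι → ℕ → X → ℝ := fun l j z =>
      ((k : ℝ) / 2 ^ j) ^ ((D - 1) / 2) * (18 + 2 * (V l z) ^ 2) with hE
    have hE0 : ∀ l j z, 0 ≤ E l j z := fun l j z => by
      show 0 ≤ ((k : ℝ) / 2 ^ j) ^ ((D - 1) / 2) * (18 + 2 * (V l z) ^ 2)
      positivity
    have hTle : ∀ σ l (j : Fin I) (z : X), (z = x ∨ z = y) →
        ‖T (σ, l, j) x - T (σ, l, j) y‖ ^ 2 ≤ E l j z * dist x y ^ 2 := by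
      intro σ l j z hz
      have h1 := hT1 (σ, l, j) x y
      have h2 := ampl_lip C Δ (b j) (hb1 j) σ l x y
      have h3 := hUn l x y
      have h4 : ‖F l x - F l y‖ ^ 2 ≤ (V l z * dist x y) ^ 2 := by
        refine pow_le_pow_left₀ (norm_nonneg _) ?_ 2
        rcases hz with rfl | rfl
        · exact hF3 l z y
        · rw [norm_sub_rev, dist_comm]
          exact hF3 l z x
      have h5 := δ_sq_lip C l x y
      have h6 : ‖g j • U l x - g j • U l y‖ ^ 2 = g j ^ 2 * ‖U l x - U l y‖ ^ 2 := hgU j l x y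
      have h7 : E l j z = g j ^ 2 * (18 + 2 * (V l z) ^ 2) := by rw [hgsq]
      rw [h7]
      have h8 : (g j * ampl C Δ (b j) σ l x - g j * ampl C Δ (b j) σ l y) ^ 2 ≤
          g j ^ 2 * (4 * dist x y ^ 2) := by
        calc (g j * ampl C Δ (b j) σ l x - g j * ampl C Δ (b j) σ l y) ^ 2
            = g j ^ 2 * (ampl C Δ (b j) σ l x - ampl C Δ (b j) σ l y) ^ 2 := by ring
          _ ≤ _ := mul_le_mul_of_nonneg_left h2 (sq_nonneg _)
      have h9 : g j ^ 2 * ‖U l x - U l y‖ ^ 2 ≤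
          g j ^ 2 * ((V l z * dist x y) ^ 2 + dist x y ^ 2) := by
        apply mul_le_mul_of_nonneg_left _ (sq_nonneg _)
        rw [h3]
        exact add_le_add h4 h5
      calc ‖T (σ, l, j) x - T (σ, l, j) y‖ ^ 2
          ≤ 4 * (g j * ampl C Δ (b j) σ l x - g j * ampl C Δ (b j) σ l y) ^ 2 +
            2 * ‖g j • U l x - g j • U l y‖ ^ 2 := h1
        _ ≤ 4 * (g j ^ 2 * (4 * dist x y ^ 2)) +
            2 * (g j ^ 2 * ((V l z * dist x y) ^ 2 + dist x y ^ 2)) := by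
            rw [h6]
            linarith
        _ = g j ^ 2 * (18 + 2 * (V l z) ^ 2) * dist x y ^ 2 := by ring
    have hterm : ∀ σ l (j : Fin I), ‖T (σ, l, j) x - T (σ, l, j) y‖ ^ 2 ≤
        (if S σ l j x then E l j x else 0) * dist x y ^ 2 +
        (if S σ l j y then E l j y else 0) * dist x y ^ 2 := by
      intro σ l j
      by_cases hx : S σ l j x
      · rw [if_pos hx]
        have h1 := hTle σ l j x (Or.inl rfl)
        have h2 : 0 ≤ (if S σ l j y then E l j y else 0) * dist x y ^ 2 := by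
          apply mul_nonneg _ (sq_nonneg _)
          split_ifs
          · exact hE0 _ _ _
          · exact le_rfl
        linarith
      · rw [if_neg hx]
        by_cases hy : S σ l j y
        · rw [if_pos hy]
          have h1 := hTle σ l j y (Or.inr rfl)
          linarith
        · rw [if_neg hy]
          have hax := ampl_eq_zero C Δ (b j) (2 ^ (j : ℕ)) (hb4' j) σ l x hx
          have hay := ampl_eq_zero C Δ (b j) (2 ^ (j : ℕ)) (hb4' j) σ l y hy
          have h1 := hT2 (σ, l, j) x y (by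
            show g j * ampl C Δ (b j) σ l x = 0
            rw [hax, mul_zero]) (by
            show g j * ampl C Δ (b j) σ l y = 0
            rw [hay, mul_zero])
          rw [h1]
          simp
    have hU1 := embS_upper C D M hD hM k hk1 hk I x
    have hU2 := embS_upper C D M hD hM k hk1 hk I y
    rw [← hC1] at hU1 hU2
    have hsum : ∑ σ : ι ≃ Fin (Fintype.card ι), ∑ l : ι, ∑ j : Fin I,
        ‖T (σ, l, j) x - T (σ, l, j) y‖ ^ 2 ≤
        2 * (C1 * ((Fintype.card ι).factorial : ℝ) * (k : ℝ) ^ (2 * (D - 1))) * dist x y ^ 2 := by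
      calc ∑ σ : ι ≃ Fin (Fintype.card ι), ∑ l : ι, ∑ j : Fin I,
            ‖T (σ, l, j) x - T (σ, l, j) y‖ ^ 2
          ≤ ∑ σ : ι ≃ Fin (Fintype.card ι), ∑ l : ι, ∑ j : Fin I,
            ((if S σ l j x then E l j x else 0) * dist x y ^ 2 +
            (if S σ l j y then E l j y else 0) * dist x y ^ 2) :=
            Finset.sum_le_sum fun σ _ => Finset.sum_le_sum fun l _ =>
              Finset.sum_le_sum fun j _ => hterm σ l j
        _ = (∑ σ : ι ≃ Fin (Fintype.card ι), ∑ l : ι, ∑ j ∈ range I,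
              (if S σ l j x then E l j x else 0)) * dist x y ^ 2 +
            (∑ σ : ι ≃ Fin (Fintype.card ι), ∑ l : ι, ∑ j ∈ range I,
              (if S σ l j y then E l j y else 0)) * dist x y ^ 2 := by
            simp only [Finset.sum_add_distrib, Finset.sum_mul]
            congr 1
            · refine Finset.sum_congr rfl (fun σ _ => Finset.sum_congr rfl (fun l _ => ?_))
              exact Fin.sum_univ_eq_sum_range
                (fun j => (if S σ l j x then E l j x else 0) * dist x y ^ 2) I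
            · refine Finset.sum_congr rfl (fun σ _ => Finset.sum_congr rfl (fun l _ => ?_))
              exact Fin.sum_univ_eq_sum_range
                (fun j => (if S σ l j y then E l j y else 0) * dist x y ^ 2) I
        _ ≤ (C1 * ((Fintype.card ι).factorial : ℝ) * (k : ℝ) ^ (2 * (D - 1))) * dist x y ^ 2 +
            (C1 * ((Fintype.card ι).factorial : ℝ) * (k : ℝ) ^ (2 * (D - 1))) * dist x y ^ 2 :=
            add_le_add (mul_le_mul_of_nonneg_right hU1 (sq_nonneg _))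
              (mul_le_mul_of_nonneg_right hU2 (sq_nonneg _))
        _ = _ := by ring
    have hfin : A * (2 * (C1 * ((Fintype.card ι).factorial : ℝ) * (k : ℝ) ^ (2 * (D - 1))) *
        dist x y ^ 2) ≤ ((1 + C2 * (2 * C1)) * (k : ℝ) ^ (D - 1)) ^ 2 * dist x y ^ 2 := by
      have e1 : (k : ℝ) ^ (2 * (D - 1)) = ((k : ℝ) ^ (D - 1)) ^ 2 := by
        rw [← Real.rpow_natCast, ← Real.rpow_mul hk0.le]
        congr 1; push_cast; ring
      have e2 : A * (2 * (C1 * ((Fintype.card ι).factorial : ℝ) * (k : ℝ) ^ (2 * (D - 1))) *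
        dist x y ^ 2) = (C2 * (2 * C1)) * ((k : ℝ) ^ (D - 1)) ^ 2 * dist x y ^ 2 := by
        rw [hA, e1]
        field_simp
      rw [e2, mul_pow]
      have h1 : C2 * (2 * C1) ≤ (1 + C2 * (2 * C1)) ^ 2 := by
        nlinarith [mul_nonneg hC20 hC10, sq_nonneg (C2 * (2 * C1))]
      gcongr
    exact (mul_le_mul_of_nonneg_left hsum hA0).trans hfin

end Pool.Agent.Lib.MP_caca3f_an.Opt
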