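import Pool.Agent.Lib.MP_caca3f_an.Opt.Top
import Pool.Agent.Lib.MP_caca3f_an.Opt.EmbedS
import Pool.Agent.Lib.MP_caca3f_an.Ext.Final

/-!
# JOB S8. The union theorem with the optimal order of growth
-/

namespace Pool.Agent.Lib.MP_caca3f_an.Opt

open Pool.Agent.Lib.MP_caca3f_an.Ext

universe u

/-- the data attached to a finite subset of a union -/
theorem finalS_finite_union (D : ℝ) (hD : 1 < D) : ∃ W : ℝ, 1 ≤ W ∧
    ∀ {X : Type u} [MetricSpace X] (k : ℕ) (_ : 1 ≤ k) (A : Fin k → Set X)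
      (_ : ⋃ i, A i = Set.univ) (_ : ∀ i, EmbedsWithDistortion (A i) D) (S : Finset X),
      ∃ (H : Type u) (_ : NormedAddCommGroup H) (_ : InnerProductSpace ℝ H) (F : S → H),
        ∀ x y : S, dist x y ^ 2 ≤ ‖F x - F y‖ ^ 2 ∧ ‖F x - F y‖ ^ 2 ≤
          (W * (k : ℝ) ^ (D - 1)) ^ 2 * dist x y ^ 2 := by
  classical
  obtain ⟨M, hM, htop⟩ := top_ext.{u, 0, u, u} D hD
  obtain ⟨W, hW, hemb⟩ := sharp_embedding.{u, 0, u} D M hD hM
  refine ⟨W, hW, ?_⟩
  intro X _ k hk A hcov hA S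
  set ι : Type := {l : Fin k // ∃ x : S, x.1 ∈ A l} with hι
  have hz : ∀ (l : ι) (x : S), ∃ z : S, z.1 ∈ A l.1 ∧ ∀ b : S, b.1 ∈ A l.1 → dist x z ≤ dist x b := by
    intro l x
    obtain ⟨x0, hx0⟩ := l.2
    obtain ⟨z, hz1, hz2⟩ := Finset.exists_min_image (Finset.univ.filter fun b : S => b.1 ∈ A l.1)
      (fun b => dist x b) ⟨x0, by simpa using hx0⟩
    refine ⟨z, by simpa using hz1, fun b hb => hz2 b (by simpa using hb)⟩
  choose z hz1 hz2 using hz
  let C : Cover S ι :=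
    { B := fun l => {x : S | x.1 ∈ A l.1}
      z := z
      zmem := fun l x => hz1 l x
      zmin := fun l x b hb => hz2 l x b hb
      cov := by
        intro x
        have : x.1 ∈ ⋃ i, A i := by rw [hcov]; trivial
        obtain ⟨i, hi⟩ := Set.mem_iUnion.mp this
        exact ⟨⟨i, x, hi⟩, hi⟩ }
  choose H i1 i2 i3 f s hs hf using hA
  let φ : ∀ l : ι, S → H l.1 := fun l x =>
    if h : x.1 ∈ A l.1 then (1 / s l.1) • f l.1 ⟨x.1, h⟩ else 0
  have key : ∀ l : ι, ∀ x ∈ C.B l, ∀ y ∈ C.B l,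
      dist x y ≤ ‖φ l x - φ l y‖ ∧ ‖φ l x - φ l y‖ ≤ D * dist x y := by
    intro l x hx y hy
    have hx' : x.1 ∈ A l.1 := hx
    have hy' : y.1 ∈ A l.1 := hy
    have hsl : 0 < s l.1 := hs l.1
    simp only [φ]
    rw [dif_pos hx', dif_pos hy', ← smul_sub, norm_smul, Real.norm_eq_abs,
      abs_of_pos (by positivity)]
    have h1 := hf l.1 ⟨x.1, hx'⟩ ⟨y.1, hy'⟩
    have h2 : dist (⟨x.1, hx'⟩ : A l.1) ⟨y.1, hy'⟩ = dist x y := rfl
    rw [h2] at h1
    constructor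
    · rw [one_div, inv_mul_eq_div, le_div_iff₀ hsl]; linarith [h1.1]
    · rw [one_div, inv_mul_eq_div, div_le_iff₀ hsl]; linarith [h1.2]
  have hcard : Fintype.card ι ≤ k := by
    calc Fintype.card ι ≤ Fintype.card (Fin k) := Fintype.card_subtype_le _
      _ = k := Fintype.card_fin k
  exact hemb C (fun l => H l.1) φ
    (fun l x hx y hy => (key l x hx y hy).1) (fun l x hx y hy => (key l x hx y hy).2)
    k hk hcard
    (fun l => htop C (fun l => H l.1) φ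
      (fun l x hx y hy => (key l x hx y hy).1) (fun l x hx y hy => (key l x hx y hy).2)
      k hk hcard l)

theorem union_embeds_sharp (D : ℝ) (hD : 1 < D) : ∃ W : ℝ, 1 ≤ W ∧
    ∀ {X : Type u} [MetricSpace X] (k : ℕ) (_ : 1 ≤ k) (A : Fin k → Set X)
      (_ : ⋃ i, A i = Set.univ) (_ : ∀ i, EmbedsWithDistortion (A i) D),
      EmbedsWithDistortion X (W * (k : ℝ) ^ (D - 1)) := by
  classical
  obtain ⟨W, hW, hfin⟩ := finalS_finite_union.{u} D hD
  refine ⟨W, hW, ?_⟩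
  intro X _ k hk A hcov hA
  have hW0 : 0 ≤ W := by linarith
  have hC'0 : 0 ≤ W * (k : ℝ) ^ (D - 1) := by positivity
  obtain ⟨H, i1, i2, i3, F, hF⟩ := hilbert_compactness (fun x y : X => dist x y)
    ((W * (k : ℝ) ^ (D - 1)) ^ 2) (by
    intro S
    obtain ⟨H, i1, i2, F, hF⟩ := hfin k hk A hcov hA S
    refine ⟨H, i1, i2, fun x => if h : x ∈ S then F ⟨x, h⟩ else 0, ?_⟩
    intro x hx y hy
    simp only [dif_pos hx, dif_pos hy]
    exact hF ⟨x, hx⟩ ⟨y, hy⟩)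
  refine ⟨H, i1, i2, i3, F, 1, one_pos, fun x y => ?_⟩
  obtain ⟨h1, h2⟩ := hF x y
  constructor
  · rw [one_mul]
    exact (sq_le_sq₀ dist_nonneg (norm_nonneg _)).mp h1
  · rw [one_mul]
    apply (sq_le_sq₀ (norm_nonneg _) (by positivity)).mp
    rw [mul_pow]; exact h2

end Pool.Agent.Lib.MP_caca3f_an.Opt
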