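import Pool.Agent.Lib.MP_caca3f_an.Opt.Defs
import Pool.Agent.Lib.MP_caca3f_an.Opt.Ckr

/-!
# JOB S3. The recursive extension operator
-/

namespace Pool.Agent.Lib.MP_caca3f_an.Opt

open Finset Pool.Agent.Lib.MP_caca3f_an.Ext

universe u v w v'

section InternAux

variable {X : Type u} [MetricSpace X] {ι : Type v}

/-- the anchoring estimate with an arbitrary bound for the inner anchor -/
theorem intern_anchor {K : Type w} [NormedAddCommGroup K]
    (C : Cover X ι) (D Λ c A : ℝ) (hD : 1 ≤ D) (hΛ : 1 ≤ Λ) (hc : c ≤ 3 * D) (hA : 0 ≤ A)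
    (l m : ι) (L : ℝ) (hL : 0 ≤ L) (f g G : X → K)
    (hf : ∀ x ∈ C.B l, ∀ y ∈ C.B l, ‖f x - f y‖ ≤ L * dist x y)
    (hg : ∀ w ∈ C.B m, ‖g w - f (C.z l w)‖ ≤ 6 * D ^ 2 * Λ * L * C.δ l w)
    (x : X) (hG : ‖G x - g (C.z m x)‖ ≤ A * (c * L) * C.δ m x)
    (θ : ℝ) (hx : C.δ m x ≤ θ * C.δ l x) :
    ‖G x - f (C.z l x)‖ ≤
      (A * (3 * D) * θ + 6 * D ^ 2 * Λ * (1 + θ) + (2 + 2 * θ)) * (L * C.δ l x) := by
  have hD0 : 0 < D := by linarith
  have hΛ0 : 0 < Λ := by linarith
  have hδm : 0 ≤ C.δ m x := C.δ_nonneg m x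
  have hδl : 0 ≤ C.δ l x := C.δ_nonneg l x
  set w := C.z m x with hw
  have hwm : w ∈ C.B m := C.zmem m x
  have hdw : dist x w = C.δ m x := rfl
  have hδw : C.δ l w ≤ (1 + θ) * C.δ l x := by
    have := C.δ_le l w x
    rw [dist_comm, hdw] at this
    linarith
  have e : G x - f (C.z l x) = (G x - g w) + (g w - f (C.z l w)) +
      (f (C.z l w) - f (C.z l x)) := by abel
  have h1 : ‖G x - g w‖ ≤ A * (3 * D * L) * (θ * C.δ l x) := by
    refine hG.trans ?_
    gcongr
  have h2 : ‖g w - f (C.z l w)‖ ≤ 6 * D ^ 2 * Λ * L * ((1 + θ) * C.δ l x) := by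
    refine (hg w hwm).trans ?_
    gcongr
  have h3 : ‖f (C.z l w) - f (C.z l x)‖ ≤ L * ((2 + 2 * θ) * C.δ l x) := by
    refine (hf _ (C.zmem l w) _ (C.zmem l x)).trans ?_
    apply mul_le_mul_of_nonneg_left _ hL
    refine (dist_z_le C l w x).trans ?_
    rw [dist_comm w x, hdw]
    linarith
  rw [e]
  refine (norm_add_le _ _).trans ((add_le_add ((norm_add_le _ _).trans (add_le_add h1 h2))
    h3).trans (le_of_eq ?_))
  ring

theorem intern_AA_nonneg (D : ℝ) (n : ℕ) : 0 ≤ AA D n := by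
  unfold AA
  positivity

theorem intern_AA_mono (D : ℝ) (hD : 1 ≤ D) {m n : ℕ} (h : m ≤ n) : AA D m ≤ AA D n := by
  unfold AA
  have : (m : ℝ) ^ ((D - 1) / 2) ≤ (n : ℝ) ^ ((D - 1) / 2) :=
    Real.rpow_le_rpow (Nat.cast_nonneg m) (by exact_mod_cast h) (by linarith)
  exact mul_le_mul_of_nonneg_left this (by positivity)

theorem intern_one_le_q (D : ℝ) (hD : 1 ≤ D) {n : ℕ} (h : 1 ≤ n) :
    1 ≤ (n : ℝ) ^ ((D - 1) / 2) :=
  Real.one_le_rpow (by exact_mod_cast h) (by linarith)

theorem intern_c (D : ℝ) (hD : 1 ≤ D) (i : ℕ) :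
    0 ≤ D + 2 / lam D i ∧ D + 2 / lam D i ≤ 3 * D := by
  have h1 := one_le_lam D hD i
  have h0 : 0 < lam D i := by linarith
  have h2 : 2 / lam D i ≤ 2 := by rw [div_le_iff₀ h0]; linarith
  have h3 : 0 ≤ 2 / lam D i := by positivity
  constructor <;> linarith

variable [Fintype ι]

theorem intern_Rk_left (C : Cover X ι) (ε : ℝ) (l : ι) (x y : X) :
    Rk C ε l x ⊆ rel C ε l x y := by
  intro m hm
  rw [mem_Rk] at hm
  rw [mem_rel]
  exact Or.inl hm

theorem intern_Rk_right (C : Cover X ι) (ε : ℝ) (l : ι) (x y : X) :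
    Rk C ε l y ⊆ rel C ε l x y := by
  intro m hm
  rw [mem_Rk] at hm
  rw [mem_rel]
  exact Or.inr hm

theorem intern_Rk_sub (C : Cover X ι) (ε : ℝ) (hε : 0 ≤ ε) (l m : ι) (x : X)
    (h : C.δ m x ≤ C.δ l x) : Rk C ε m x ⊆ Rk C ε l x := by
  intro m' hm'
  rw [mem_Rk] at hm' ⊢
  exact hm'.trans (mul_le_mul_of_nonneg_left h hε)

theorem intern_Rk_pos (C : Cover X ι) (ε : ℝ) (hε : 0 ≤ ε) (l : ι) (x : X) :
    1 ≤ (Rk C ε l x).card := by
  obtain ⟨m, hm⟩ := C.cov x
  rw [Nat.one_le_iff_ne_zero, Finset.card_ne_zero]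
  refine ⟨m, ?_⟩
  rw [mem_Rk, C.δ_eq_zero hm]
  exact mul_nonneg hε (C.δ_nonneg l x)

theorem intern_cnt (C : Cover X ι) (l : ι) (x : X) (hx : 0 < C.δ l x) (ρ : ℝ) :
    cnt (fun m => C.δ m x / C.δ l x) ρ = (Rk C ρ l x).card := by
  classical
  unfold cnt
  congr 1
  ext m
  rw [Finset.mem_filter, mem_Rk, div_le_iff₀ hx]
  simp

theorem intern_eps (D : ℝ) (hD : 1 ≤ D) : 0 < 1 / (6 * D) ∧ 1 / (6 * D) ≤ 1 / 6 ∧
    0 < 1 / (24 * D) ∧ 1 / (24 * D) ≤ 1 / 24 ∧ 1 / (24 * D) = 1 / 4 * (1 / (6 * D)) := by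
  have hD0 : 0 < D := by linarith
  refine ⟨by positivity, ?_, by positivity, ?_, ?_⟩
  · apply one_div_le_one_div_of_le (by norm_num); linarith
  · apply one_div_le_one_div_of_le (by norm_num); linarith
  · field_simp; norm_num

/-- a class much closer to `x` than `l` is much closer to `y` than `l` -/
theorem intern_two (C : Cover X ι) (D : ℝ) (hD : 1 ≤ D) (l m : ι) (x y : X)
    (hn : Near C (1 / (24 * D)) l x y) (hm : C.δ m x ≤ 1 / (6 * D) * C.δ l x) :
    C.δ m y ≤ 2 * (1 / (6 * D)) * C.δ l y := by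
  obtain ⟨he0, he1, hf0, hf1, hf2⟩ := intern_eps D hD
  obtain ⟨hx, hy⟩ := near_pos C _ hf0 l x y hn
  have hd0 : 0 ≤ dist x y := dist_nonneg
  have h2 := C.δ_le m y x
  have h3 := C.δ_le l x y
  rw [dist_comm y x] at h2
  have h4 : 1 / (6 * D) * C.δ l x ≤ 1 / (6 * D) * (C.δ l y + dist x y) :=
    mul_le_mul_of_nonneg_left h3 he0.le
  have h6 : dist x y ≤ 1 / (24 * D) * C.δ l y := by
    refine (le_of_lt hn).trans ?_
    exact mul_le_mul_of_nonneg_left (min_le_right _ _) hf0.le
  rw [hf2] at h6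
  have h10 : 1 / (6 * D) * dist x y ≤ 1 / 6 * dist x y := mul_le_mul_of_nonneg_right he1 hd0
  have h11 : 0 ≤ 1 / (6 * D) * C.δ l y := by positivity
  nlinarith

theorem intern_rel_sub (C : Cover X ι) (D : ℝ) (hD : 1 ≤ D) (m : ι) (x y : X)
    (hn : Near C (1 / (24 * D)) m x y) (m' : ι) (hm' : m' ∈ rel C (1 / (6 * D)) m x y) :
    C.δ m' x < C.δ m x := by
  refine rel_sub C D 2 hD (by norm_num) m x y ?_ m' hm'
  have : 12 * D * 2 = 24 * D := by ring
  rw [this]
  exact hn

/-- far pairs -/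
theorem intern_far {K : Type w} [NormedAddCommGroup K] (C : Cover X ι) (D c A : ℝ) (hD : 1 ≤ D)
    (hc : 0 ≤ c) (hA : 20 ≤ A) (m : ι) (L : ℝ) (hL : 0 ≤ L) (g G : X → K)
    (hg : ∀ x ∈ C.B m, ∀ y ∈ C.B m, ‖g x - g y‖ ≤ c * L * dist x y)
    (x y : X) (hGx : ‖G x - g (C.z m x)‖ ≤ A * (c * L) * C.δ m x)
    (hGy : ‖G y - g (C.z m y)‖ ≤ A * (c * L) * C.δ m y)
    (h : ¬ Near C (1 / (24 * D)) m x y) :
    ‖G x - G y‖ ≤ 53 * D * A * (c * L * dist x y) := by
  have hD0 : 0 < D := by linarith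
  set d := dist x y with hd
  have hd0 : 0 ≤ d := dist_nonneg
  have h1 : min (C.δ m x) (C.δ m y) ≤ 24 * D * d := by
    unfold Near at h
    rw [not_lt] at h
    have hpos : 0 < 24 * D := by positivity
    rw [one_div, inv_mul_le_iff₀ hpos] at h
    exact h
  have h2 : C.δ m x + C.δ m y ≤ 2 * min (C.δ m x) (C.δ m y) + d := by
    have hxy := C.δ_le m x y
    have hyx := C.δ_le m y x
    rw [dist_comm] at hyx
    rcases le_total (C.δ m x) (C.δ m y) with hh | hh
    · rw [min_eq_left hh]; linarith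
    · rw [min_eq_right hh]; linarith
  have hcL : 0 ≤ c * L := mul_nonneg hc hL
  have h3 : ‖G x - G y‖ ≤ A * (c * L) * C.δ m x + c * L * (C.δ m x + d + C.δ m y) +
      A * (c * L) * C.δ m y := by
    have e : G x - G y = (G x - g (C.z m x)) + (g (C.z m x) - g (C.z m y)) -
        (G y - g (C.z m y)) := by abel
    rw [e]
    refine (norm_sub_le _ _).trans (add_le_add ((norm_add_le _ _).trans
      (add_le_add hGx ?_)) hGy)
    refine (hg _ (C.zmem m x) _ (C.zmem m y)).trans ?_
    exact mul_le_mul_of_nonneg_left (dist_z_le C m x y) hcL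
  have h4 : C.δ m x + C.δ m y ≤ 49 * D * d := by nlinarith
  have hDd : d ≤ D * d := by nlinarith
  have hA0 : 0 ≤ A := by linarith
  calc ‖G x - G y‖ ≤ c * L * ((A + 1) * (C.δ m x + C.δ m y) + d) := by
        refine h3.trans (le_of_eq ?_); ring
    _ ≤ c * L * ((A + 1) * (49 * D * d) + D * d) := by gcongr
    _ = (49 * A + 50) * (D * (c * L * d)) := by ring
    _ ≤ (53 * A) * (D * (c * L * d)) := by
        apply mul_le_mul_of_nonneg_right _ (by positivity)
        linarith
    _ = _ := by ring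

open Classical in
/-- the estimate for the first sum -/
theorem intern_first {K : Type w} [NormedAddCommGroup K] (C : Cover X ι) (D : ℝ) (hD : 1 ≤ D)
    (vv : ℕ → ℝ) (hv : Monotone vv) (hv0 : ∀ n, 0 ≤ vv n) (hrec : Rec D vv)
    (j : ℕ) (l : ι) (L : ℝ) (hL : 0 ≤ L) (g G : ι → ℕ → X → K)
    (hg1 : ∀ m i, ∀ x ∈ C.B m, ∀ y ∈ C.B m,
      ‖g m i x - g m i y‖ ≤ (D + 2 / lam D i) * L * dist x y)
    (hG2 : ∀ m i, ∀ x, ‖G m i x - g m i (C.z m x)‖ ≤
      AA D (Rk C (1 / (6 * D)) m x).card * ((D + 2 / lam D i) * L) * C.δ m x)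
    (hG3 : ∀ m i, ∀ x y, Near C (1 / (24 * D)) m x y → (rel C (1 / (6 * D)) m x y).card ≤ j →
      ‖G m i x - G m i y‖ ≤
        vv (rel C (1 / (6 * D)) m x y).card * ((D + 2 / lam D i) * L) * dist x y)
    (I : ℕ) (hI : Fintype.card ι < 2 ^ I)
    (x y : X) (hn : Near C (1 / (24 * D)) l x y) (n : ℕ)
    (hnn : n = (rel C (1 / (6 * D)) l x y).card) (hj : n ≤ j + 1) :
    ∑ m, ∑ i ∈ range I, pw (1 / (6 * D)) (fun m => C.δ m x / C.δ l x) m i *
        ‖G m i x - G m i y‖ ≤
      (vv n - 17000 * D ^ 4 * ((1 + Real.log n) * (n : ℝ) ^ ((D - 1) / 2)) +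
        159 * D ^ 2 * AA D n) * (L * dist x y) := by
  obtain ⟨he0, he1, hf0, hf1, hf2⟩ := intern_eps D hD
  have hD0 : 0 < D := by linarith
  obtain ⟨hx, hy⟩ := near_pos C _ hf0 l x y hn
  have hd0 : 0 ≤ dist x y := dist_nonneg
  refine pw_avg (1 / (6 * D)) he0 (fun m => C.δ m x / C.δ l x) ?_ I hI
    (fun m i => ‖G m i x - G m i y‖) _ ?_
  · obtain ⟨m, hm⟩ := C.cov x
    exact ⟨m, by simp [C.δ_eq_zero hm]⟩
  intro ρ hρ1 hρ2
  have hρ0 : 0 ≤ ρ := by linarith
  have hcnt : cnt (fun m => C.δ m x / C.δ l x) ρ = (Rk C ρ l x).card := intern_cnt C l x hx ρ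
  have hfil : univ.filter (fun m => C.δ m x / C.δ l x ≤ ρ) = Rk C ρ l x := by
    ext m
    rw [Finset.mem_filter, mem_Rk, div_le_iff₀ hx]
    simp
  simp only [hcnt, hfil]
  set S := Rk C ρ l x with hS
  set i := Nat.log 2 S.card with hi
  have hSpos : 1 ≤ S.card := intern_Rk_pos C ρ hρ0 l x
  have hmS : ∀ m, m ∈ S ↔ C.δ m x ≤ ρ * C.δ l x := fun m => mem_Rk C ρ l m x
  have hSrel : S ⊆ rel C (1 / (6 * D)) l x y := by
    intro m hm
    rw [mem_rel]
    left
    rw [hmS] at hm
    exact hm.trans (mul_le_mul_of_nonneg_right hρ2 hx.le)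
  have hSn : S.card ≤ n := by rw [hnn]; exact Finset.card_le_card hSrel
  have hn1 : 1 ≤ n := hSpos.trans hSn
  have hAn : 20 ≤ AA D n := by
    unfold AA
    have h1 := intern_one_le_q D hD hn1
    have h2 : 1 ≤ D ^ 2 := one_le_pow₀ hD
    have h3 : 1 ≤ D ^ 2 * (n : ℝ) ^ ((D - 1) / 2) := one_le_mul_of_one_le_of_one_le h2 h1
    linarith
  obtain ⟨hc0, hc3⟩ := intern_c D hD i
  have hcL : 0 ≤ (D + 2 / lam D i) * L := mul_nonneg hc0 hL
  -- the rank
  let r : ι → ℕ := fun m =>
    if Near C (1 / (24 * D)) m x y then (rel C (1 / (6 * D)) m x y).card else 0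
  have hrsub : ∀ m ∈ S, Near C (1 / (24 * D)) m x y →
      rel C (1 / (6 * D)) m x y ⊆ S.filter (fun m' => C.δ m' x < C.δ m x) := by
    intro m hm hnm m' hm'
    have h1 := intern_rel_sub C D hD m x y hnm m' hm'
    rw [Finset.mem_filter]
    refine ⟨?_, h1⟩
    rw [hmS] at hm ⊢
    linarith
  have hrank : ∑ m ∈ S, vv (r m) ≤ ∑ j ∈ range S.card, vv j := by
    refine rank_sum S (fun m => C.δ m x) r vv hv ?_
    intro m hm T hT
    simp only [r]
    split_ifs with h
    · apply Finset.card_le_card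
      intro m' hm'
      rw [hT]
      have := hrsub m hm h hm'
      rw [Finset.mem_filter] at this
      exact this
    · exact Nat.zero_le _
  have hterm : ∀ m ∈ S, ‖G m i x - G m i y‖ ≤
      (vv (r m) + 53 * D * AA D n) * ((D + 2 / lam D i) * L * dist x y) := by
    intro m hm
    by_cases h : Near C (1 / (24 * D)) m x y
    · have h1 : (rel C (1 / (6 * D)) m x y).card < S.card := by
        calc (rel C (1 / (6 * D)) m x y).card ≤
            (S.filter (fun m' => C.δ m' x < C.δ m x)).card :=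
              Finset.card_le_card (hrsub m hm h)
          _ < S.card := by
              apply Finset.card_lt_card
              rw [Finset.ssubset_iff_of_subset (Finset.filter_subset _ _)]
              exact ⟨m, hm, by simp⟩
      have h2 := hG3 m i x y h (by omega)
      have h3 : r m = (rel C (1 / (6 * D)) m x y).card := by simp only [r]; rw [if_pos h]
      rw [h3]
      refine h2.trans ?_
      have h4 : 0 ≤ 53 * D * AA D n * ((D + 2 / lam D i) * L * dist x y) := by
        have := mul_nonneg hcL hd0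
        have := intern_AA_nonneg D n
        positivity
      linarith
    · have h3 : r m = 0 := by simp only [r]; rw [if_neg h]
      rw [h3]
      have hmx : C.δ m x ≤ 1 / (6 * D) * C.δ l x :=
        ((hmS m).1 hm).trans (mul_le_mul_of_nonneg_right hρ2 hx.le)
      have hmx' : C.δ m x ≤ C.δ l x := by
        refine hmx.trans ?_
        have : 1 / (6 * D) * C.δ l x ≤ 1 / 6 * C.δ l x := mul_le_mul_of_nonneg_right he1 hx.le
        linarith
      have hmy' : C.δ m y ≤ C.δ l y := by
        refine (intern_two C D hD l m x y hn hmx).trans ?_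
        have : 1 / (6 * D) * C.δ l y ≤ 1 / 6 * C.δ l y := mul_le_mul_of_nonneg_right he1 hy.le
        linarith
      have hAx : AA D (Rk C (1 / (6 * D)) m x).card ≤ AA D n := by
        apply intern_AA_mono D hD
        rw [hnn]
        exact Finset.card_le_card ((intern_Rk_sub C _ he0.le l m x hmx').trans
          (intern_Rk_left C _ l x y))
      have hAy : AA D (Rk C (1 / (6 * D)) m y).card ≤ AA D n := by
        apply intern_AA_mono D hD
        rw [hnn]
        exact Finset.card_le_card ((intern_Rk_sub C _ he0.le l m y hmy').trans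
          (intern_Rk_right C _ l x y))
      have h5 := intern_far C D (D + 2 / lam D i) (AA D n) hD hc0 hAn m L hL (g m i) (G m i)
        (hg1 m i) x y
        ((hG2 m i x).trans (by
          have := C.δ_nonneg m x
          gcongr))
        ((hG2 m i y).trans (by
          have := C.δ_nonneg m y
          gcongr)) h
      refine h5.trans ?_
      have h6 := mul_nonneg (hv0 0) (mul_nonneg hcL hd0)
      linarith
  have hN0 : (0 : ℝ) < S.card := by exact_mod_cast hSpos
  have hsum : ∑ m ∈ S, ‖G m i x - G m i y‖ ≤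
      ((∑ j ∈ range S.card, vv j) + S.card * (53 * D * AA D n)) *
        ((D + 2 / lam D i) * L * dist x y) := by
    calc ∑ m ∈ S, ‖G m i x - G m i y‖ ≤
        ∑ m ∈ S, (vv (r m) + 53 * D * AA D n) * ((D + 2 / lam D i) * L * dist x y) :=
          Finset.sum_le_sum hterm
      _ = ((∑ m ∈ S, vv (r m)) + S.card * (53 * D * AA D n)) *
          ((D + 2 / lam D i) * L * dist x y) := by
          rw [← Finset.sum_mul, Finset.sum_add_distrib, Finset.sum_const, nsmul_eq_mul]
      _ ≤ _ := by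
          apply mul_le_mul_of_nonneg_right _ (mul_nonneg hcL hd0)
          linarith
  rw [div_le_iff₀ hN0]
  refine hsum.trans ?_
  have hr := hrec n S.card hSpos hSn
  rw [← hi] at hr
  set q := (n : ℝ) ^ ((D - 1) / 2) with hq
  set W := ∑ j ∈ range S.card, vv j with hW
  have hLd : 0 ≤ L * dist x y := mul_nonneg hL hd0
  have h7 : (D + 2 / lam D i) * (W / S.card) + (D + 2 / lam D i) * (53 * D * AA D n) ≤
      vv n - 17000 * D ^ 4 * ((1 + Real.log n) * q) + 159 * D ^ 2 * AA D n := by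
    have h8 : (D + 2 / lam D i) * (53 * D * AA D n) ≤ 3 * D * (53 * D * AA D n) := by
      apply mul_le_mul_of_nonneg_right hc3
      have := intern_AA_nonneg D n
      positivity
    linarith
  calc (W + S.card * (53 * D * AA D n)) * ((D + 2 / lam D i) * L * dist x y)
      = ((D + 2 / lam D i) * (W / S.card) + (D + 2 / lam D i) * (53 * D * AA D n)) *
        (L * dist x y) * S.card := by
        field_simp
    _ ≤ _ := by
        apply mul_le_mul_of_nonneg_right _ hN0.le
        exact mul_le_mul_of_nonneg_right h7 hLd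

open Classical in
/-- the total variation estimate -/
theorem intern_tv (C : Cover X ι) (D : ℝ) (hD : 1 ≤ D) (l : ι) (x y : X)
    (hx : 0 < C.δ l x) (hy : 0 < C.δ l y) (I : ℕ) (hI : Fintype.card ι < 2 ^ I) (n : ℕ)
    (hnn : n = (rel C (1 / (6 * D)) l x y).card) :
    ∑ m, ∑ i ∈ range I, |pw (1 / (6 * D)) (fun m => C.δ m x / C.δ l x) m i -
        pw (1 / (6 * D)) (fun m => C.δ m y / C.δ l y) m i| ≤
      20 * ((2 * dist x y / min (C.δ l x) (C.δ l y)) / (1 / (6 * D))) * (1 + Real.log n) := by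
  obtain ⟨he0, he1, hf0, hf1, hf2⟩ := intern_eps D hD
  have hD0 : 0 < D := by linarith
  have hR : 0 < min (C.δ l x) (C.δ l y) := lt_min hx hy
  have hε1 : 1 / (6 * D) ≤ 1 := by linarith
  refine pw_tv (1 / (6 * D)) (2 * dist x y / min (C.δ l x) (C.δ l y)) he0 (by positivity)
    (fun m => C.δ m x / C.δ l x) (fun m => C.δ m y / C.δ l y)
    (fun m => div_nonneg (C.δ_nonneg m x) hx.le)
    (fun m => div_nonneg (C.δ_nonneg m y) hy.le) ?_ ?_ ?_ I hI n ?_
  · obtain ⟨m, hm⟩ := C.cov x
    exact ⟨m, by simp [C.δ_eq_zero hm]⟩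
  · obtain ⟨m, hm⟩ := C.cov y
    exact ⟨m, by simp [C.δ_eq_zero hm]⟩
  · intro m hm
    have key : ∀ a b : X, 0 < C.δ l a → 0 < C.δ l b → C.δ m a / C.δ l a ≤ 1 →
        |C.δ m a / C.δ l a - C.δ m b / C.δ l b| ≤ 2 * dist a b / C.δ l b := by
      intro a b ha hb hab
      have e : C.δ m a / C.δ l a - C.δ m b / C.δ l b =
          ((C.δ m a / C.δ l a) * (C.δ l b - C.δ l a) + (C.δ m a - C.δ m b)) / C.δ l b := by
        field_simp
        ring
      rw [e, abs_div, abs_of_pos hb]
      apply div_le_div_of_nonneg_right _ hb.le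
      have h1 : |C.δ l b - C.δ l a| ≤ dist a b := by
        rw [abs_sub_le_iff]
        have h1 := C.δ_le l b a
        have h2 := C.δ_le l a b
        rw [dist_comm b a] at h1
        constructor <;> linarith
      have h2 : |C.δ m a - C.δ m b| ≤ dist a b := by
        rw [abs_sub_le_iff]
        have h1 := C.δ_le m b a
        have h2 := C.δ_le m a b
        rw [dist_comm b a] at h1
        constructor <;> linarith
      have h3 : 0 ≤ C.δ m a / C.δ l a := div_nonneg (C.δ_nonneg m a) ha.le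
      calc |(C.δ m a / C.δ l a) * (C.δ l b - C.δ l a) + (C.δ m a - C.δ m b)|
          ≤ |(C.δ m a / C.δ l a) * (C.δ l b - C.δ l a)| + |C.δ m a - C.δ m b| := abs_add_le _ _
        _ = (C.δ m a / C.δ l a) * |C.δ l b - C.δ l a| + |C.δ m a - C.δ m b| := by
            rw [abs_mul, abs_of_nonneg h3]
        _ ≤ 1 * dist a b + dist a b := by
            apply add_le_add _ h2
            exact mul_le_mul hab h1 (abs_nonneg _) (by norm_num)
        _ = 2 * dist a b := by ring
    rcases hm with h | h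
    · refine (key x y hx hy (h.trans hε1)).trans ?_
      apply div_le_div_of_nonneg_left _ hR (min_le_right _ _)
      positivity
    · have h4 := key y x hy hx (h.trans hε1)
      rw [abs_sub_comm] at h4
      refine h4.trans ?_
      rw [dist_comm y x]
      apply div_le_div_of_nonneg_left _ hR (min_le_left _ _)
      positivity
  · rw [hnn]
    apply Finset.card_le_card
    intro m hm
    rw [Finset.mem_filter] at hm
    rw [mem_rel]
    rcases hm.2 with h | h
    · left; rwa [div_le_iff₀ hx] at h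
    · right; rwa [div_le_iff₀ hy] at h

/-- norms of double sums -/
theorem intern_norm_sum {K : Type w} [NormedAddCommGroup K] [NormedSpace ℝ K] (I : ℕ)
    (p : ι → ℕ → ℝ) (g : ι → ℕ → K) :
    ‖∑ m, ∑ i ∈ range I, p m i • g m i‖ ≤ ∑ m, ∑ i ∈ range I, |p m i| * ‖g m i‖ := by
  refine (norm_sum_le _ _).trans (Finset.sum_le_sum fun m _ => ?_)
  refine (norm_sum_le _ _).trans (le_of_eq ?_)
  exact Finset.sum_congr rfl (fun i _ => by rw [norm_smul, Real.norm_eq_abs])

theorem intern_zero (C : Cover X ι) (D : ℝ) (hD : 1 ≤ D) (vv : ℕ → ℝ) (K : Type w)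
    [NormedAddCommGroup K] : IntOp C D vv K 0 := by
  intro l L f hL _
  have hD0 : 0 < D := by linarith
  refine ⟨fun x => f (C.z l x), fun x hx => congrArg f (C.z_eq hx), fun x => ?_,
    fun x y _ hc => ?_⟩
  · have := C.δ_nonneg l x
    have h2 := intern_AA_nonneg D (Rk C (1 / (6 * D)) l x).card
    simp only [sub_self, norm_zero]
    positivity
  · exfalso
    obtain ⟨m, hm⟩ := C.cov x
    have h1 : m ∈ rel C (1 / (6 * D)) l x y := by
      rw [mem_rel]
      left
      rw [C.δ_eq_zero hm]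
      have := C.δ_nonneg l x
      positivity
    rw [Nat.le_zero, Finset.card_eq_zero] at hc
    rw [hc] at h1
    simp at h1

end InternAux

theorem intern_step {X : Type u} [Fintype X] [MetricSpace X] {ι : Type v} [Fintype ι]
    (C : Cover X ι) (D : ℝ) (hD : 1 ≤ D) (H : ι → Type v')
    [∀ l, NormedAddCommGroup (H l)] [∀ l, InnerProductSpace ℝ (H l)] (φ : ∀ l, X → H l)
    (hφ1 : ∀ l, ∀ x ∈ C.B l, ∀ y ∈ C.B l, dist x y ≤ ‖φ l x - φ l y‖)
    (hφ2 : ∀ l, ∀ x ∈ C.B l, ∀ y ∈ C.B l, ‖φ l x - φ l y‖ ≤ D * dist x y)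
    (vv : ℕ → ℝ) (hv : Monotone vv) (hv0 : ∀ n, 0 ≤ vv n) (hrec : Rec D vv)
    (K : Type w) [NormedAddCommGroup K] [InnerProductSpace ℝ K] (j : ℕ)
    (hj : IntOp C D vv K j) : IntOp C D vv K (j + 1) := by
  classical
  intro l L f hL hf
  obtain ⟨he0, he1, hf0, hf1, hf2⟩ := intern_eps D hD
  have hD0 : 0 < D := by linarith
  have hD1 : 1 ≤ D ^ 2 := one_le_pow₀ hD
  have hI : Fintype.card ι < 2 ^ Fintype.card ι := Nat.lt_two_pow_self
  set I := Fintype.card ι with hIdef
  have hlm := fun (m : ι) (i : ℕ) => local_map C D (lam D i) hD (one_le_lam D hD i) (φ m) l m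
    (hφ1 m) (hφ2 m) L hL f hf
  choose g hg1 hg2 using hlm
  have hcL : ∀ i, 0 ≤ (D + 2 / lam D i) * L := fun i => mul_nonneg (intern_c D hD i).1 hL
  choose G hG1 hG2 hG3 using fun (m : ι) (i : ℕ) =>
    hj m ((D + 2 / lam D i) * L) (g m i) (hcL i) (hg1 m i)
  obtain ⟨p, hp⟩ : ∃ p : X → ι → ℕ → ℝ, p = fun x =>
    pw (1 / (6 * D)) (fun m => C.δ m x / C.δ l x) := ⟨_, rfl⟩
  have hs0 : ∀ x, ∃ m, (fun m => C.δ m x / C.δ l x) m = 0 := by
    intro x
    obtain ⟨m, hm⟩ := C.cov x
    exact ⟨m, by simp [C.δ_eq_zero hm]⟩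
  have hp0 : ∀ x m i, 0 ≤ p x m i := fun x m i => by rw [hp]; exact pw_nonneg _ he0 _ _ _
  have hp1 : ∀ x, ∑ m, ∑ i ∈ range I, p x m i = 1 := fun x => by
    rw [hp]; exact pw_sum _ he0 _ (hs0 x) I hI
  have hppos : ∀ x m i, 0 < C.δ l x → 0 < p x m i →
      C.δ m x ≤ 1 / (6 * D) * C.δ l x ∧ 2 ^ i ≤ (Rk C (1 / (6 * D)) l x).card := by
    intro x m i hx h
    rw [hp] at h
    have := pw_pos _ he0 _ (hs0 x) m i h
    rw [intern_cnt C l x hx, div_le_iff₀ hx] at this
    exact this
  have hq1 : ∀ n : ℕ, 1 ≤ n → 1 ≤ D ^ 2 * (n : ℝ) ^ ((D - 1) / 2) := fun n hn =>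
    one_le_mul_of_one_le_of_one_le hD1 (intern_one_le_q D hD hn)
  refine ⟨fun x => if x ∈ C.B l then f x else ∑ m, ∑ i ∈ range I, p x m i • G m i x,
    ?_, ?_, ?_⟩
  · intro x hx
    simp [hx]
  · intro x
    by_cases hx : x ∈ C.B l
    · simp only [hx, if_true]
      rw [C.z_eq hx, sub_self, norm_zero]
      have := C.δ_nonneg l x
      have h2 := intern_AA_nonneg D (Rk C (1 / (6 * D)) l x).card
      positivity
    · simp only [hx, if_false]
      have hδ : 0 < C.δ l x :=
        lt_of_le_of_ne (C.δ_nonneg l x) (fun h => hx (C.mem_of_δ_eq_zero h.symm))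
      set n := (Rk C (1 / (6 * D)) l x).card with hn
      have hn1 : 1 ≤ n := intern_Rk_pos C _ he0.le l x
      have e : (∑ m, ∑ i ∈ range I, p x m i • G m i x) - f (C.z l x) =
          ∑ m, ∑ i ∈ range I, p x m i • (G m i x - f (C.z l x)) := by
        simp only [smul_sub, Finset.sum_sub_distrib, ← Finset.sum_smul, hp1, one_smul]
      rw [e]
      refine (intern_norm_sum I _ _).trans ?_
      have h1 : ∀ m i, |p x m i| * ‖G m i x - f (C.z l x)‖ ≤
          p x m i * (AA D n * L * C.δ l x) := by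
        intro m i
        rw [abs_of_nonneg (hp0 x m i)]
        rcases (hp0 x m i).eq_or_lt with h | h
        · rw [← h]; simp
        · apply mul_le_mul_of_nonneg_left _ (hp0 x m i)
          obtain ⟨h2, h3⟩ := hppos x m i hδ h
          have h4 : C.δ m x ≤ C.δ l x := by
            have : 1 / (6 * D) * C.δ l x ≤ 1 / 6 * C.δ l x :=
              mul_le_mul_of_nonneg_right he1 hδ.le
            linarith
          have h5 : AA D (Rk C (1 / (6 * D)) m x).card ≤ AA D n :=
            intern_AA_mono D hD (Finset.card_le_card (intern_Rk_sub C _ he0.le l m x h4))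
          have h6 : lam D i ≤ (n : ℝ) ^ ((D - 1) / 2) := lam_le D hD i n h3
          have h7 := intern_anchor C D (lam D i) (D + 2 / lam D i) (AA D n) hD
            (one_le_lam D hD i) (intern_c D hD i).2 (intern_AA_nonneg D n) l m L hL f (g m i)
            (G m i) hf (hg2 m i) x ((hG2 m i x).trans (by
              have := C.δ_nonneg m x
              have := hcL i
              gcongr)) (1 / (6 * D)) h2
          refine h7.trans ?_
          have e2 : AA D n * L * C.δ l x = AA D n * (L * C.δ l x) := by ring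
          rw [e2]
          apply mul_le_mul_of_nonneg_right _ (mul_nonneg hL hδ.le)
          have h8 : AA D n * (3 * D) * (1 / (6 * D)) = AA D n / 2 := by field_simp; ring
          have h9 : 6 * D ^ 2 * lam D i * (1 + 1 / (6 * D)) ≤
              7 * (D ^ 2 * (n : ℝ) ^ ((D - 1) / 2)) := by
            have : 6 * D ^ 2 * lam D i * (1 + 1 / (6 * D)) ≤
                6 * D ^ 2 * (n : ℝ) ^ ((D - 1) / 2) * (1 + 1 / 6) := by
              gcongr
            refine this.trans (le_of_eq ?_); ring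
          have h10 := hq1 n hn1
          rw [h8]
          have h11 : AA D n = 20 * (D ^ 2 * (n : ℝ) ^ ((D - 1) / 2)) := by unfold AA; ring
          rw [h11]
          linarith
      refine (Finset.sum_le_sum fun m _ => Finset.sum_le_sum fun i _ => h1 m i).trans
        (le_of_eq ?_)
      simp only [← Finset.sum_mul]
      rw [hp1, one_mul]
  · intro x y hn hcj
    obtain ⟨hx, hy⟩ := near_pos C _ hf0 l x y hn
    have hxB : x ∉ C.B l := fun h => hx.ne' (C.δ_eq_zero h)
    have hyB : y ∉ C.B l := fun h => hy.ne' (C.δ_eq_zero h)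
    simp only [hxB, hyB, if_false]
    have hd0 : 0 ≤ dist x y := dist_nonneg
    have hLd : 0 ≤ L * dist x y := mul_nonneg hL hd0
    have hpx : p x = pw (1 / (6 * D)) (fun m => C.δ m x / C.δ l x) := by rw [hp]
    have hpy : p y = pw (1 / (6 * D)) (fun m => C.δ m y / C.δ l y) := by rw [hp]
    obtain ⟨n, hnn⟩ : ∃ n, n = (rel C (1 / (6 * D)) l x y).card := ⟨_, rfl⟩
    rw [← hnn] at hcj ⊢
    have hfirst := intern_first C D hD vv hv hv0 hrec j l L hL g G hg1 hG2 hG3 I hI x y hn n
      hnn hcj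
    have htv := intern_tv C D hD l x y hx hy I hI n hnn
    rw [← hpx] at hfirst
    rw [← hpx, ← hpy] at htv
    have hn1 : 1 ≤ n := by
      rw [hnn]
      exact (intern_Rk_pos C _ he0.le l x).trans (Finset.card_le_card (intern_Rk_left C _ l x y))
    set q := (n : ℝ) ^ ((D - 1) / 2) with hq
    have hq0 : 1 ≤ q := intern_one_le_q D hD hn1
    have hlog : 0 ≤ Real.log n := Real.log_nonneg (by exact_mod_cast hn1)
    have e : (∑ m, ∑ i ∈ range I, p x m i • G m i x) - ∑ m, ∑ i ∈ range I, p y m i • G m i y =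
        ∑ m, ∑ i ∈ range I, p x m i • (G m i x - G m i y) +
          ∑ m, ∑ i ∈ range I, (p x m i - p y m i) • (G m i y - f (C.z l y)) := by
      simp only [smul_sub, sub_smul, Finset.sum_sub_distrib, ← Finset.sum_smul, hp1]
      abel
    rw [e]
    have hR : 0 < min (C.δ l x) (C.δ l y) := lt_min hx hy
    have hyR : C.δ l y ≤ 25 / 24 * min (C.δ l x) (C.δ l y) := by
      have hdR : dist x y < 1 / 24 * min (C.δ l x) (C.δ l y) :=
        lt_of_lt_of_le hn (mul_le_mul_of_nonneg_right hf1 hR.le)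
      rcases le_total (C.δ l x) (C.δ l y) with h | h
      · have h1 := C.δ_le l y x
        rw [dist_comm y x] at h1
        rw [min_eq_left h] at hdR ⊢
        linarith
      · rw [min_eq_right h]; linarith
    have hsecond : ‖∑ m, ∑ i ∈ range I, (p x m i - p y m i) • (G m i y - f (C.z l y))‖ ≤
        8000 * (D ^ 3 * (1 + Real.log n) * q * (L * dist x y)) := by
      refine (intern_norm_sum I _ _).trans ?_
      have h1 : ∀ m i, |p x m i - p y m i| * ‖G m i y - f (C.z l y)‖ ≤
          |p x m i - p y m i| * (31 * (D ^ 2 * q) * (L * C.δ l y)) := by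
        intro m i
        by_cases hm : 0 < p x m i ∨ 0 < p y m i
        · apply mul_le_mul_of_nonneg_left _ (abs_nonneg _)
          have h2 : C.δ m y ≤ 2 * (1 / (6 * D)) * C.δ l y ∧ 2 ^ i ≤ n := by
            rcases hm with h | h
            · obtain ⟨h2, h3⟩ := hppos x m i hx h
              refine ⟨intern_two C D hD l m x y hn h2, h3.trans ?_⟩
              rw [hnn]
              exact Finset.card_le_card (intern_Rk_left C _ l x y)
            · obtain ⟨h2, h3⟩ := hppos y m i hy h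
              refine ⟨?_, h3.trans ?_⟩
              · have : 0 ≤ 1 / (6 * D) * C.δ l y := by positivity
                linarith
              · rw [hnn]
                exact Finset.card_le_card (intern_Rk_right C _ l x y)
          obtain ⟨h2, h3⟩ := h2
          have h4 : C.δ m y ≤ C.δ l y := by
            have : 1 / (6 * D) * C.δ l y ≤ 1 / 6 * C.δ l y :=
              mul_le_mul_of_nonneg_right he1 hy.le
            linarith
          have h5 : AA D (Rk C (1 / (6 * D)) m y).card ≤ AA D n := by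
            apply intern_AA_mono D hD
            rw [hnn]
            exact Finset.card_le_card ((intern_Rk_sub C _ he0.le l m y h4).trans
              (intern_Rk_right C _ l x y))
          have h6 : lam D i ≤ q := lam_le D hD i n h3
          have h7 := intern_anchor C D (lam D i) (D + 2 / lam D i) (AA D n) hD
            (one_le_lam D hD i) (intern_c D hD i).2 (intern_AA_nonneg D n) l m L hL f (g m i)
            (G m i) hf (hg2 m i) y ((hG2 m i y).trans (by
              have := C.δ_nonneg m y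
              have := hcL i
              gcongr)) (2 * (1 / (6 * D))) h2
          refine h7.trans ?_
          apply mul_le_mul_of_nonneg_right _ (mul_nonneg hL hy.le)
          have h8 : AA D n * (3 * D) * (2 * (1 / (6 * D))) = AA D n := by field_simp; ring
          have h9 : 6 * D ^ 2 * lam D i * (1 + 2 * (1 / (6 * D))) ≤ 8 * (D ^ 2 * q) := by
            have : 6 * D ^ 2 * lam D i * (1 + 2 * (1 / (6 * D))) ≤
                6 * D ^ 2 * q * (1 + 2 * (1 / 6)) := by
              gcongr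
            refine this.trans (le_of_eq ?_); ring
          have h10 : 1 ≤ D ^ 2 * q := hq1 n hn1
          rw [h8]
          have h11 : AA D n = 20 * (D ^ 2 * q) := by unfold AA; rw [hq]; ring
          rw [h11]
          linarith
        · rw [not_or] at hm
          have h2 : p x m i = 0 := le_antisymm (not_lt.mp hm.1) (hp0 x m i)
          have h3 : p y m i = 0 := le_antisymm (not_lt.mp hm.2) (hp0 y m i)
          rw [h2, h3]; simp
      refine (Finset.sum_le_sum fun m _ => Finset.sum_le_sum fun i _ => h1 m i).trans ?_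
      simp only [← Finset.sum_mul]
      calc (∑ m, ∑ i ∈ range I, |p x m i - p y m i|) * (31 * (D ^ 2 * q) * (L * C.δ l y))
          ≤ (20 * ((2 * dist x y / min (C.δ l x) (C.δ l y)) / (1 / (6 * D))) *
              (1 + Real.log n)) *
            (31 * (D ^ 2 * q) * (L * (25 / 24 * min (C.δ l x) (C.δ l y)))) := by
            gcongr
        _ = 7750 * (D ^ 3 * (1 + Real.log n) * q * (L * dist x y)) := by
            field_simp
            ring
        _ ≤ 8000 * (D ^ 3 * (1 + Real.log n) * q * (L * dist x y)) := by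
            have : 0 ≤ D ^ 3 * (1 + Real.log n) * q * (L * dist x y) := by positivity
            linarith
    have hfirst' : ‖∑ m, ∑ i ∈ range I, p x m i • (G m i x - G m i y)‖ ≤
        (vv n - 17000 * D ^ 4 * ((1 + Real.log n) * q) + 159 * D ^ 2 * AA D n) *
          (L * dist x y) := by
      refine (intern_norm_sum I _ _).trans ?_
      refine le_trans (le_of_eq ?_) hfirst
      exact Finset.sum_congr rfl fun m _ => Finset.sum_congr rfl fun i _ => by
        rw [abs_of_nonneg (hp0 x m i)]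
    refine (norm_add_le _ _).trans ((add_le_add hfirst' hsecond).trans ?_)
    have h11 : AA D n = 20 * (D ^ 2 * q) := by unfold AA; rw [hq]; ring
    rw [h11]
    have h12 : D ^ 3 ≤ D ^ 4 := pow_le_pow_right₀ hD (by norm_num)
    have h13 : 1 ≤ 1 + Real.log n := by linarith
    have h14 : D ^ 4 * q ≤ D ^ 4 * ((1 + Real.log n) * q) := by
      have : q ≤ (1 + Real.log n) * q := le_mul_of_one_le_left (by linarith) h13
      gcongr
    have h15 : D ^ 3 * (1 + Real.log n) * q ≤ D ^ 4 * ((1 + Real.log n) * q) := by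
      rw [mul_assoc]
      gcongr
    have h16 : 0 ≤ D ^ 4 * ((1 + Real.log n) * q) := by positivity
    calc (vv n - 17000 * D ^ 4 * ((1 + Real.log n) * q) + 159 * D ^ 2 * (20 * (D ^ 2 * q))) *
          (L * dist x y) + 8000 * (D ^ 3 * (1 + Real.log n) * q * (L * dist x y))
        = (vv n - 17000 * (D ^ 4 * ((1 + Real.log n) * q)) + 3180 * (D ^ 4 * q) +
          8000 * (D ^ 3 * (1 + Real.log n) * q)) * (L * dist x y) := by ring
      _ ≤ vv n * (L * dist x y) := by
          apply mul_le_mul_of_nonneg_right _ hLd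
          linarith
      _ = _ := by ring

theorem internal_ext {X : Type u} [Fintype X] [MetricSpace X] {ι : Type v} [Fintype ι]
    (C : Cover X ι) (D : ℝ) (hD : 1 ≤ D) (H : ι → Type v')
    [∀ l, NormedAddCommGroup (H l)] [∀ l, InnerProductSpace ℝ (H l)] (φ : ∀ l, X → H l)
    (hφ1 : ∀ l, ∀ x ∈ C.B l, ∀ y ∈ C.B l, dist x y ≤ ‖φ l x - φ l y‖)
    (hφ2 : ∀ l, ∀ x ∈ C.B l, ∀ y ∈ C.B l, ‖φ l x - φ l y‖ ≤ D * dist x y)
    (vv : ℕ → ℝ) (hv : Monotone vv) (hv0 : ∀ n, 0 ≤ vv n) (hrec : Rec D vv)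
    (K : Type w) [NormedAddCommGroup K] [InnerProductSpace ℝ K] (j : ℕ) :
    IntOp C D vv K j := by
  induction j with
  | zero => exact intern_zero C D hD vv K
  | succ j ih => exact intern_step C D hD H φ hφ1 hφ2 vv hv hv0 hrec K j ih

end Pool.Agent.Lib.MP_caca3f_an.Opt
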