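import Pool.Agent.Lib.MP_caca3f_an.Opt.Defs

/-!
# JOB S2. The sequence of constants
-/

namespace Pool.Agent.Lib.MP_caca3f_an.Opt

open Finset

/-- forcing term -/
noncomputable def seqK (D : ℝ) (n : ℕ) : ℝ :=
  17000 * D ^ 4 * ((1 + Real.log n) * (n : ℝ) ^ ((D - 1) / 2))

/-- coefficient -/
noncomputable def seqC (D : ℝ) (N : ℕ) : ℝ := D + 2 / lam D (Nat.log 2 N)

/-- the pair (sum of the first `n` terms, maximum of the averages) -/
noncomputable def seqS (D : ℝ) : ℕ → ℝ × ℝ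
  | 0 => (0, 0)
  | n + 1 =>
    ((seqS D n).1 + ((seqS D n).2 + seqK D n),
      max (seqS D n).2 (seqC D (n + 1) *
        (((seqS D n).1 + ((seqS D n).2 + seqK D n)) / ((n : ℝ) + 1))))

/-- the sequence -/
noncomputable def seqV (D : ℝ) (n : ℕ) : ℝ := (seqS D n).2 + seqK D n

theorem seqK_nonneg (D : ℝ) (n : ℕ) : 0 ≤ seqK D n := by
  unfold seqK
  have : 0 ≤ Real.log n := Real.log_natCast_nonneg n
  positivity

theorem seqK_mono (D : ℝ) (hD : 1 < D) (n : ℕ) : seqK D n ≤ seqK D (n + 1) := by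
  unfold seqK
  have h1 : 0 ≤ Real.log n := Real.log_natCast_nonneg n
  have h3 : (n:ℝ) ^ ((D - 1) / 2) ≤ ((n + 1 : ℕ):ℝ) ^ ((D - 1) / 2) := by
    apply Real.rpow_le_rpow (Nat.cast_nonneg _) _ (by linarith)
    push_cast; linarith
  have h2 : Real.log n ≤ Real.log ((n + 1 : ℕ) : ℝ) := by
    rcases Nat.eq_zero_or_pos n with h | h
    · subst h; simp
    · apply Real.log_le_log (by exact_mod_cast h)
      push_cast; linarith
  have h4 : 0 ≤ 17000 * D ^ 4 := by positivity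
  apply mul_le_mul_of_nonneg_left _ h4
  apply mul_le_mul (by linarith) h3 (by positivity) (by linarith)

theorem seqC_nonneg (D : ℝ) (hD : 1 < D) (n : ℕ) : 0 ≤ seqC D n := by
  unfold seqC
  have := one_le_lam D hD.le (Nat.log 2 n)
  positivity

theorem seqS_two_mono (D : ℝ) (n : ℕ) : (seqS D n).2 ≤ (seqS D (n + 1)).2 := by
  rw [seqS]; exact le_max_left _ _

theorem seqS_two_nonneg (D : ℝ) (n : ℕ) : 0 ≤ (seqS D n).2 := by
  induction n with
  | zero => simp [seqS]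
  | succ n ih => exact ih.trans (seqS_two_mono D n)

theorem seqV_nonneg (D : ℝ) (n : ℕ) : 0 ≤ seqV D n :=
  add_nonneg (seqS_two_nonneg D n) (seqK_nonneg D n)

theorem seqV_mono (D : ℝ) (hD : 1 < D) : Monotone (seqV D) := by
  apply monotone_nat_of_le_succ
  intro n
  exact add_le_add (seqS_two_mono D n) (seqK_mono D hD n)

theorem seqS_one_succ (D : ℝ) (n : ℕ) : (seqS D (n + 1)).1 = (seqS D n).1 + seqV D n := rfl

theorem seqS_one (D : ℝ) (n : ℕ) : (seqS D n).1 = ∑ j ∈ range n, seqV D j := by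
  induction n with
  | zero => simp [seqS]
  | succ n ih => rw [Finset.sum_range_succ, ← ih, seqS_one_succ]

theorem seqS_two_succ (D : ℝ) (n : ℕ) : (seqS D (n + 1)).2 =
    max (seqS D n).2 (seqC D (n + 1) * ((seqS D (n + 1)).1 / ((n:ℝ) + 1))) := rfl

theorem seqS_two_ge (D : ℝ) {N n : ℕ} (hN : 1 ≤ N) (h : N ≤ n) :
    seqC D N * ((seqS D N).1 / N) ≤ (seqS D n).2 := by
  induction n with
  | zero => omega
  | succ n ih =>
    rcases Nat.lt_or_ge n N with h1 | h1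
    · have : N = n + 1 := by omega
      subst this
      rw [seqS_two_succ]
      push_cast
      exact le_max_right _ _
    · exact (ih h1).trans (seqS_two_mono D n)

/-- `g N = 2 N^D - N^(γ+1)`, `γ = 3 (D-1) / 4` -/
noncomputable def seqg (D : ℝ) (n : ℝ) : ℝ := 2 * n ^ D - n ^ (3 * (D - 1) / 4 + 1)

/-- bound for the averages -/
noncomputable def seqf (D : ℝ) (n : ℝ) : ℝ :=
  D * (2 * n ^ (D - 1) - n ^ (3 * (D - 1) / 4)) + 4 * 2 ^ ((D - 1) / 2) * n ^ ((D - 1) / 2)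

theorem seqg_ge (D : ℝ) (hD : 1 < D) {n : ℝ} (hn : 1 ≤ n) : 1 ≤ seqg D n := by
  unfold seqg
  have h1 : n ^ (3 * (D - 1) / 4 + 1) ≤ n ^ D := Real.rpow_le_rpow_of_exponent_le hn (by linarith)
  have h2 : 1 ≤ n ^ D := Real.one_le_rpow hn (by linarith)
  linarith

theorem seq_aux (D : ℝ) (hD : 1 < D) {a b : ℝ} (ha : 1 ≤ a) (hab : a ≤ b) :
    2 * a ^ (D - 1) - a ^ (3 * (D - 1) / 4) ≤ 2 * b ^ (D - 1) - b ^ (3 * (D - 1) / 4) := by
  have ha0 : 0 < a := by linarith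
  have hb0 : 0 < b := by linarith
  have e : ∀ c : ℝ, 0 < c → 2 * c ^ (D - 1) - c ^ (3 * (D - 1) / 4) =
      c ^ (3 * (D - 1) / 4) * (2 * c ^ ((D - 1) / 4) - 1) := by
    intro c hc
    have : c ^ (D - 1) = c ^ (3 * (D - 1) / 4) * c ^ ((D - 1) / 4) := by
      rw [← Real.rpow_add hc]; ring_nf
    rw [this]; ring
  rw [e a ha0, e b hb0]
  have h1 : a ^ (3 * (D - 1) / 4) ≤ b ^ (3 * (D - 1) / 4) :=
    Real.rpow_le_rpow ha0.le hab (by linarith)
  have h2 : a ^ ((D - 1) / 4) ≤ b ^ ((D - 1) / 4) := Real.rpow_le_rpow ha0.le hab (by linarith)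
  have h3 : 1 ≤ a ^ ((D - 1) / 4) := Real.one_le_rpow ha (by linarith)
  apply mul_le_mul h1 (by linarith) (by linarith) (by positivity)

theorem seqf_mono (D : ℝ) (hD : 1 < D) {a b : ℝ} (ha : 1 ≤ a) (hab : a ≤ b) :
    seqf D a ≤ seqf D b := by
  unfold seqf
  have h1 := seq_aux D hD ha hab
  have h2 : a ^ ((D - 1) / 2) ≤ b ^ ((D - 1) / 2) :=
    Real.rpow_le_rpow (by linarith) hab (by linarith)
  have h3 : (0:ℝ) ≤ 4 * 2 ^ ((D - 1) / 2) := by positivity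
  have := mul_le_mul_of_nonneg_left h1 (by linarith : (0:ℝ) ≤ D)
  have := mul_le_mul_of_nonneg_left h2 h3
  linarith

theorem seqf_nonneg (D : ℝ) (hD : 1 < D) {a : ℝ} (ha : 1 ≤ a) : 0 ≤ seqf D a := by
  unfold seqf
  have h1 : a ^ (3 * (D - 1) / 4) ≤ a ^ (D - 1) :=
    Real.rpow_le_rpow_of_exponent_le ha (by linarith)
  have h2 : 0 ≤ a ^ (D - 1) := by positivity
  have h3 : 0 ≤ 4 * (2:ℝ) ^ ((D - 1) / 2) * a ^ ((D - 1) / 2) := by positivity
  have : 0 ≤ D * (2 * a ^ (D - 1) - a ^ (3 * (D - 1) / 4)) := by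
    apply mul_nonneg <;> linarith
  linarith

/-- bound for `2 / lam` -/
theorem lam_ge (D : ℝ) (hD : 1 < D) {N : ℕ} (hN : 1 ≤ N) :
    2 / lam D (Nat.log 2 N) ≤ 2 * 2 ^ ((D - 1) / 2) * (N:ℝ) ^ (-((D - 1) / 2)) := by
  have hN0 : (0:ℝ) < N := by exact_mod_cast hN
  have h1 : (N:ℝ) / 2 ≤ 2 ^ (Nat.log 2 N) := by
    have := Nat.lt_pow_succ_log_self (b := 2) (by norm_num) N
    have h2 : (N:ℝ) ≤ 2 ^ (Nat.log 2 N + 1) := by exact_mod_cast this.le
    rw [pow_succ] at h2; linarith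
  have h2 : ((N:ℝ) / 2) ^ ((D - 1) / 2) ≤ lam D (Nat.log 2 N) := by
    unfold lam
    rw [mul_comm, Real.rpow_mul (by norm_num), Real.rpow_natCast]
    exact Real.rpow_le_rpow (by positivity) h1 (by linarith)
  have h3 : 0 < ((N:ℝ) / 2) ^ ((D - 1) / 2) := by positivity
  calc 2 / lam D (Nat.log 2 N) ≤ 2 / ((N:ℝ) / 2) ^ ((D - 1) / 2) :=
        div_le_div_of_nonneg_left (by norm_num) h3 h2
    _ = 2 * 2 ^ ((D - 1) / 2) * (N:ℝ) ^ (-((D - 1) / 2)) := by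
        rw [Real.div_rpow hN0.le (by norm_num), Real.rpow_neg hN0.le]
        field_simp

/-- the averages of `g` -/
theorem seqC_g (D : ℝ) (hD : 1 < D) {N : ℕ} (hN : 1 ≤ N) :
    seqC D N * (seqg D N / N) ≤ seqf D N := by
  have hN1 : (1:ℝ) ≤ N := by exact_mod_cast hN
  have hN0 : (0:ℝ) < N := by linarith
  have e1 : seqg D N / N = 2 * (N:ℝ) ^ (D - 1) - (N:ℝ) ^ (3 * (D - 1) / 4) := by
    unfold seqg
    rw [Real.rpow_add_one hN0.ne', Real.rpow_sub_one hN0.ne']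
    field_simp
  rw [e1]
  unfold seqC seqf
  have h1 := lam_ge D hD hN
  have h2 : 0 ≤ 2 * (N:ℝ) ^ (D - 1) - (N:ℝ) ^ (3 * (D - 1) / 4) := by
    have : (N:ℝ) ^ (3 * (D - 1) / 4) ≤ (N:ℝ) ^ (D - 1) :=
      Real.rpow_le_rpow_of_exponent_le hN1 (by linarith)
    have h3 : (0:ℝ) ≤ (N:ℝ) ^ (D - 1) := by positivity
    linarith
  have h3 : 2 * (N:ℝ) ^ (D - 1) - (N:ℝ) ^ (3 * (D - 1) / 4) ≤ 2 * (N:ℝ) ^ (D - 1) := by
    have : (0:ℝ) ≤ (N:ℝ) ^ (3 * (D - 1) / 4) := by positivity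
    linarith
  have h4 : 0 ≤ 2 * (2:ℝ) ^ ((D - 1) / 2) * (N:ℝ) ^ (-((D - 1) / 2)) := by positivity
  rw [add_mul]
  apply add_le_add_right
  calc 2 / lam D (Nat.log 2 N) * (2 * (N:ℝ) ^ (D - 1) - (N:ℝ) ^ (3 * (D - 1) / 4))
      ≤ (2 * 2 ^ ((D - 1) / 2) * (N:ℝ) ^ (-((D - 1) / 2))) * (2 * (N:ℝ) ^ (D - 1)) :=
        mul_le_mul h1 h3 h2 h4
    _ = 4 * 2 ^ ((D - 1) / 2) * ((N:ℝ) ^ (-((D - 1) / 2)) * (N:ℝ) ^ (D - 1)) := by ring
    _ = 4 * 2 ^ ((D - 1) / 2) * (N:ℝ) ^ ((D - 1) / 2) := by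
        rw [← Real.rpow_add hN0]; ring_nf

/-- Bernoulli -/
theorem rpow_succ_ge {p n : ℝ} (hp : 1 ≤ p) (hn : 0 < n) :
    n ^ p + p * n ^ (p - 1) ≤ (n + 1) ^ p := by
  have h1 := one_add_mul_self_le_rpow_one_add (s := 1 / n) (p := p)
    (by have : 0 < 1 / n := by positivity
        linarith) hp
  have h2 : 0 < n ^ p := by positivity
  have h3 : (n + 1) ^ p = n ^ p * (1 + 1 / n) ^ p := by
    rw [← Real.mul_rpow hn.le (by positivity)]
    congr 1; field_simp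
  rw [h3, Real.rpow_sub_one hn.ne']
  calc n ^ p + p * (n ^ p / n) = n ^ p * (1 + p * (1 / n)) := by ring
    _ ≤ n ^ p * (1 + 1 / n) ^ p := mul_le_mul_of_nonneg_left h1 h2.le

theorem rpow_succ_le {p n : ℝ} (hp : 1 ≤ p) (hn : 0 < n) :
    (n + 1) ^ p ≤ n ^ p + p * (n + 1) ^ (p - 1) := by
  have hn1 : 0 < n + 1 := by linarith
  have h1 := one_add_mul_self_le_rpow_one_add (s := -(1 / (n + 1))) (p := p)
    (by have : 1 / (n + 1) ≤ 1 := by rw [div_le_one hn1]; linarith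
        linarith) hp
  have h2 : 0 < (n + 1) ^ p := by positivity
  have h3 : n ^ p = (n + 1) ^ p * (1 + -(1 / (n + 1))) ^ p := by
    have h4 : 0 ≤ 1 + -(1 / (n + 1)) := by
      have : 1 / (n + 1) ≤ 1 := by rw [div_le_one hn1]; linarith
      linarith
    rw [← Real.mul_rpow hn1.le h4]
    congr 1; field_simp; ring
  rw [h3, Real.rpow_sub_one hn1.ne']
  have h5 := mul_le_mul_of_nonneg_left h1 h2.le
  have h6 : (n + 1) ^ p * (1 + p * -(1 / (n + 1))) = (n + 1) ^ p - p * ((n + 1) ^ p / (n + 1)) := by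
    ring
  linarith

/-- the asymptotic inequality -/
theorem seq_ev (D : ℝ) (hD : 1 < D) : ∀ᶠ n : ℕ in Filter.atTop,
    (3 * (D - 1) / 4 + 1) * ((n:ℝ) + 1) ^ (3 * (D - 1) / 4) +
      4 * 2 ^ ((D - 1) / 2) * (n:ℝ) ^ ((D - 1) / 2) + seqK D n ≤ D * (n:ℝ) ^ (3 * (D - 1) / 4) := by
  set γ := 3 * (D - 1) / 4 with hγ
  set C1 := 4 * (2:ℝ) ^ ((D - 1) / 2) with hC1
  have hx : 0 < (D - 1) / 4 := by linarith
  have t1 : Filter.Tendsto (fun n : ℕ => (1 + 1 / (n:ℝ)) ^ γ) Filter.atTop (nhds 1) := by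
    have h1 : Filter.Tendsto (fun n : ℕ => 1 + 1 / (n:ℝ)) Filter.atTop (nhds (1 + 0)) :=
      tendsto_one_div_atTop_nhds_zero_nat.const_add 1
    rw [add_zero] at h1
    have h2 := h1.rpow_const (p := γ) (Or.inl one_ne_zero)
    rwa [Real.one_rpow] at h2
  have t2 : Filter.Tendsto (fun n : ℕ => (n:ℝ) ^ (-((D - 1) / 4))) Filter.atTop (nhds 0) :=
    (tendsto_rpow_neg_atTop hx).comp tendsto_natCast_atTop_atTop
  have t3 : Filter.Tendsto (fun n : ℕ => Real.log n * (n:ℝ) ^ (-((D - 1) / 4))) Filter.atTop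
      (nhds 0) := by
    have h1 := (isLittleO_log_rpow_atTop hx).tendsto_div_nhds_zero
    have h2 := h1.comp tendsto_natCast_atTop_atTop
    refine h2.congr fun n => ?_
    simp only [Function.comp_apply]
    rw [Real.rpow_neg (Nat.cast_nonneg n)]; rfl
  have t4 : Filter.Tendsto (fun n : ℕ => (γ + 1) * (1 + 1 / (n:ℝ)) ^ γ +
      C1 * (n:ℝ) ^ (-((D - 1) / 4)) + 17000 * D ^ 4 * ((n:ℝ) ^ (-((D - 1) / 4)) +
        Real.log n * (n:ℝ) ^ (-((D - 1) / 4)))) Filter.atTop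
      (nhds ((γ + 1) * 1 + C1 * 0 + 17000 * D ^ 4 * (0 + 0))) :=
    ((t1.const_mul _).add (t2.const_mul _)).add ((t2.add t3).const_mul _)
  have h5 : (γ + 1) * 1 + C1 * 0 + 17000 * D ^ 4 * (0 + 0) < D := by
    rw [hγ]; linarith
  filter_upwards [t4.eventually_lt_const h5, Filter.eventually_ge_atTop 1] with n hn hn1
  have hn0 : (0:ℝ) < n := by exact_mod_cast hn1
  have hp : 0 < (n:ℝ) ^ γ := by positivity
  have h6 := mul_le_mul_of_nonneg_right hn.le hp.le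
  refine le_trans (le_of_eq ?_) h6
  have e1 : ((n:ℝ) + 1) ^ γ = (1 + 1 / (n:ℝ)) ^ γ * (n:ℝ) ^ γ := by
    rw [← Real.mul_rpow (by positivity) hn0.le]
    congr 1; field_simp
  have e2 : (n:ℝ) ^ ((D - 1) / 2) = (n:ℝ) ^ (-((D - 1) / 4)) * (n:ℝ) ^ γ := by
    rw [← Real.rpow_add hn0]; congr 1; rw [hγ]; ring
  unfold seqK
  rw [e1, e2]; ring

/-- one step of the growth estimate -/
theorem seq_step (D : ℝ) (hD : 1 < D) {n : ℕ} (hn : 1 ≤ n)
    (h : (3 * (D - 1) / 4 + 1) * ((n:ℝ) + 1) ^ (3 * (D - 1) / 4) +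
      4 * 2 ^ ((D - 1) / 2) * (n:ℝ) ^ ((D - 1) / 2) + seqK D n ≤ D * (n:ℝ) ^ (3 * (D - 1) / 4)) :
    seqg D n + seqf D n + seqK D n ≤ seqg D ((n:ℝ) + 1) := by
  have hn0 : (0:ℝ) < n := by exact_mod_cast hn
  unfold seqg seqf
  have h1 := rpow_succ_ge (p := D) hD.le hn0
  have h2 := rpow_succ_le (p := 3 * (D - 1) / 4 + 1) (n := (n:ℝ)) (by linarith) hn0
  rw [add_sub_cancel_right] at h2
  linarith

theorem seq_growth (D : ℝ) (hD : 1 < D) : ∃ B : ℝ, 1 ≤ B ∧ ∀ n : ℕ, 1 ≤ n →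
    (seqS D n).1 ≤ B * seqg D n ∧ (seqS D n).2 ≤ B * seqf D n := by
  obtain ⟨N0, hN0⟩ := Filter.eventually_atTop.1 (seq_ev D hD)
  set B : ℝ := 1 + ∑ N ∈ range (N0 + 2), |(seqS D N).1| with hB
  have hB1 : 1 ≤ B := by
    have : 0 ≤ ∑ N ∈ range (N0 + 2), |(seqS D N).1| := Finset.sum_nonneg fun _ _ => abs_nonneg _
    linarith
  have hsmall : ∀ n : ℕ, 1 ≤ n → n ≤ N0 + 1 → (seqS D n).1 ≤ B * seqg D n := by
    intro n hn hn2
    have h1 : |(seqS D n).1| ≤ ∑ N ∈ range (N0 + 2), |(seqS D N).1| :=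
      Finset.single_le_sum (f := fun N => |(seqS D N).1|) (fun _ _ => abs_nonneg _)
        (Finset.mem_range.2 (by omega))
    have h2 := le_abs_self (seqS D n).1
    have h3 := seqg_ge D hD (n := (n:ℝ)) (by exact_mod_cast hn)
    nlinarith
  refine ⟨B, hB1, ?_⟩
  intro n hn
  induction n, hn using Nat.le_induction with
  | base =>
    have h1 := hsmall 1 le_rfl (by omega)
    refine ⟨h1, ?_⟩
    have h2 : (seqS D 1).2 = max (seqS D 0).2 (seqC D (0 + 1) * ((seqS D (0 + 1)).1 / ((0:ℕ) + 1 : ℝ)))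
      := seqS_two_succ D 0
    rw [h2]
    have h3 := seqC_g D hD (N := 1) le_rfl
    have h4 : (0:ℝ) ≤ B := by linarith
    apply max_le
    · have : (seqS D 0).2 = 0 := rfl
      rw [this]
      exact mul_nonneg h4 (seqf_nonneg D hD (by norm_num))
    · have h5 : seqC D 1 * ((seqS D 1).1 / ((1:ℕ):ℝ)) ≤ B * (seqC D 1 * (seqg D (1:ℕ) / (1:ℕ))) := by
        have := mul_le_mul_of_nonneg_left h1 (seqC_nonneg D hD 1)
        push_cast at this ⊢
        rw [div_one, div_one]; linarith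
      have h6 := mul_le_mul_of_nonneg_left h3 h4
      push_cast at h5 h6 ⊢
      simp only [zero_add] at h5 h6 ⊢
      linarith
  | succ n hn ih =>
    obtain ⟨ih1, ih2⟩ := ih
    have hn1 : (1:ℝ) ≤ n := by exact_mod_cast hn
    have hn2 : (0:ℝ) < (n:ℝ) + 1 := by linarith
    have hB0 : (0:ℝ) ≤ B := by linarith
    have key : (seqS D (n + 1)).1 ≤ B * seqg D ((n + 1 : ℕ) : ℝ) := by
      rcases Nat.lt_or_ge n (N0 + 1) with h1 | h1
      · exact hsmall (n + 1) (by omega) (by omega)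
      · have h2 := seq_step D hD hn (hN0 n (by omega))
        rw [seqS_one_succ]
        unfold seqV
        push_cast
        have h3 := mul_le_mul_of_nonneg_left h2 hB0
        have h4 : seqK D n ≤ B * seqK D n := by
          have := seqK_nonneg D n
          nlinarith
        linarith
    refine ⟨key, ?_⟩
    rw [seqS_two_succ]
    apply max_le
    · refine ih2.trans (mul_le_mul_of_nonneg_left ?_ hB0)
      apply seqf_mono D hD hn1
      push_cast; linarith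
    · have h3 := seqC_g D hD (N := n + 1) (by omega)
      have h6 := mul_le_mul_of_nonneg_left h3 hB0
      refine le_trans ?_ h6
      have h7 : (seqS D (n + 1)).1 / ((n:ℝ) + 1) ≤ B * seqg D ((n + 1 : ℕ) : ℝ) / ((n:ℝ) + 1) :=
        div_le_div_of_nonneg_right key hn2.le
      have h8 := mul_le_mul_of_nonneg_left h7 (seqC_nonneg D hD (n + 1))
      refine h8.trans (le_of_eq ?_)
      push_cast
      ring

/-- there is a sequence which satisfies the recurrence and grows like `n^(D-1)` -/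
theorem exists_seq (D : ℝ) (hD : 1 < D) :
    ∃ (vv : ℕ → ℝ) (B : ℝ), Monotone vv ∧ (∀ n, 0 ≤ vv n) ∧ Rec D vv ∧
      ∀ n : ℕ, 1 ≤ n → vv n ≤ B * (n : ℝ) ^ (D - 1) := by
  obtain ⟨B, hB1, hB⟩ := seq_growth D hD
  refine ⟨seqV D, B * (2 * D + 4 * 2 ^ ((D - 1) / 2)) +
    17000 * D ^ 4 * (1 + 1 / ((D - 1) / 2)), seqV_mono D hD, seqV_nonneg D, ?_, ?_⟩
  · intro n N hN hNn
    have h1 := seqS_two_ge D hN hNn
    rw [seqS_one] at h1
    unfold seqV
    unfold seqC at h1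
    unfold seqV at h1
    unfold seqK at h1 ⊢
    linarith
  · intro n hn
    have hn1 : (1:ℝ) ≤ n := by exact_mod_cast hn
    have hn0 : (0:ℝ) < n := by linarith
    have h1 := (hB n hn).2
    have h2 : (n:ℝ) ^ ((D - 1) / 2) ≤ (n:ℝ) ^ (D - 1) :=
      Real.rpow_le_rpow_of_exponent_le hn1 (by linarith)
    have h3 : seqf D n ≤ (2 * D + 4 * 2 ^ ((D - 1) / 2)) * (n:ℝ) ^ (D - 1) := by
      unfold seqf
      have h4 : 0 ≤ (n:ℝ) ^ (3 * (D - 1) / 4) := by positivity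
      have h5 : 0 ≤ D * (n:ℝ) ^ (3 * (D - 1) / 4) := by positivity
      have h6 := mul_le_mul_of_nonneg_left h2 (by positivity : (0:ℝ) ≤ 4 * 2 ^ ((D - 1) / 2))
      nlinarith
    have h7 : (1 + Real.log n) * (n:ℝ) ^ ((D - 1) / 2) ≤
        (1 + 1 / ((D - 1) / 2)) * (n:ℝ) ^ (D - 1) := by
      have h8 := Real.log_le_rpow_div hn0.le (ε := (D - 1) / 2) (by linarith)
      have h9 : (n:ℝ) ^ ((D - 1) / 2) * (n:ℝ) ^ ((D - 1) / 2) = (n:ℝ) ^ (D - 1) := by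
        rw [← Real.rpow_add hn0]; ring_nf
      have h10 : 0 ≤ (n:ℝ) ^ ((D - 1) / 2) := by positivity
      calc (1 + Real.log n) * (n:ℝ) ^ ((D - 1) / 2)
          ≤ (1 + (n:ℝ) ^ ((D - 1) / 2) / ((D - 1) / 2)) * (n:ℝ) ^ ((D - 1) / 2) :=
            mul_le_mul_of_nonneg_right (by linarith) h10
        _ = (n:ℝ) ^ ((D - 1) / 2) + 1 / ((D - 1) / 2) *
            ((n:ℝ) ^ ((D - 1) / 2) * (n:ℝ) ^ ((D - 1) / 2)) := by ring
        _ = (n:ℝ) ^ ((D - 1) / 2) + 1 / ((D - 1) / 2) * (n:ℝ) ^ (D - 1) := by rw [h9]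
        _ ≤ (n:ℝ) ^ (D - 1) + 1 / ((D - 1) / 2) * (n:ℝ) ^ (D - 1) := by linarith
        _ = _ := by ring
    have h11 := mul_le_mul_of_nonneg_left h3 (by linarith : (0:ℝ) ≤ B)
    have h12 := mul_le_mul_of_nonneg_left h7 (by positivity : (0:ℝ) ≤ 17000 * D ^ 4)
    unfold seqV seqK
    linarith

end Pool.Agent.Lib.MP_caca3f_an.Opt
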