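import Pool.Agent.Lib.MP_caca3f_an.Opt.Defs
import Pool.Agent.Lib.MP_caca3f_an.Ext.Order

/-!
# JOB S5. Order statistics, ranks and sums over ranks
-/

namespace Pool.Agent.Lib.MP_caca3f_an.Opt

open Finset Pool.Agent.Lib.MP_caca3f_an.Ext

universe u v

/-- the function whose minimum is the truncated order statistics -/
private noncomputable def statG {X : Type u} [MetricSpace X] {ι : Type v}
    (C : Cover X ι) (Δ : ℝ) (x : X) : Option (Finset ι) → ℝ
  | none => Δ
  | some S => ((S.sup (fun m => (⟨C.δ m x, C.δ_nonneg m x⟩ : NNReal)) : NNReal) : ℝ)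

private theorem statG_lip {X : Type u} [MetricSpace X] {ι : Type v}
    (C : Cover X ι) (Δ : ℝ) (x y : X) (s : Option (Finset ι)) :
    statG C Δ x s ≤ statG C Δ y s + dist x y := by
  cases s with
  | none => simp only [statG]; linarith [dist_nonneg (x := x) (y := y)]
  | some S =>
    simp only [statG]
    have h : S.sup (fun m => (⟨C.δ m x, C.δ_nonneg m x⟩ : NNReal)) ≤
        S.sup (fun m => (⟨C.δ m y, C.δ_nonneg m y⟩ : NNReal)) + ⟨dist x y, dist_nonneg⟩ := by
      apply Finset.sup_le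
      intro m hm
      have h1 : (⟨C.δ m y, C.δ_nonneg m y⟩ : NNReal) ≤
          S.sup (fun m => (⟨C.δ m y, C.δ_nonneg m y⟩ : NNReal)) :=
        Finset.le_sup (f := fun m => (⟨C.δ m y, C.δ_nonneg m y⟩ : NNReal)) hm
      have h2 : (⟨C.δ m x, C.δ_nonneg m x⟩ : NNReal) ≤
          ⟨C.δ m y, C.δ_nonneg m y⟩ + ⟨dist x y, dist_nonneg⟩ := by
        exact (show C.δ m x ≤ C.δ m y + dist x y from C.δ_le m x y)
      exact h2.trans (by gcongr)
    have h3 := NNReal.coe_le_coe.mpr h
    push_cast at h3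
    exact h3

open Classical in
/-- truncated order statistics: for every `J ≥ 1` there is a 1-Lipschitz function `b` with
`b ≤ Δ`, which is at most `max` of any `J` distances, and at least `τ` if fewer than `J` of them
are at most `τ ≤ Δ` -/
theorem exists_stat {X : Type u} [MetricSpace X] {ι : Type v} [Fintype ι]
    (C : Cover X ι) (Δ : ℝ) (hΔ : 0 ≤ Δ) (J : ℕ) (hJ : 1 ≤ J) :
    ∃ b : X → ℝ, (∀ x y, |b x - b y| ≤ dist x y) ∧ (∀ x, 0 ≤ b x) ∧ (∀ x, b x ≤ Δ) ∧
      (∀ x t, J ≤ (univ.filter (fun m => C.δ m x ≤ t)).card → b x ≤ t) ∧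
      (∀ x t, t ≤ Δ → (univ.filter (fun m => C.δ m x ≤ t)).card < J → t ≤ b x) := by
  let F : Finset (Option (Finset ι)) := Finset.insertNone (Finset.powersetCard J univ)
  have hF : F.Nonempty := ⟨none, Finset.none_mem_insertNone⟩
  have hFs : ∀ S : Finset ι, some S ∈ F ↔ S.card = J := by
    intro S
    simp [F, Finset.some_mem_insertNone, Finset.mem_powersetCard]
  let b : X → ℝ := fun x => F.inf' hF (statG C Δ x)
  have hle : ∀ x y, b x ≤ b y + dist x y := by
    intro x y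
    obtain ⟨s, hs, hs2⟩ := Finset.exists_mem_eq_inf' hF (statG C Δ y)
    have h1 : b x ≤ statG C Δ x s := Finset.inf'_le _ hs
    have h2 : b y = statG C Δ y s := hs2
    rw [h2]
    exact h1.trans (statG_lip C Δ x y s)
  refine ⟨b, ?_, ?_, ?_, ?_, ?_⟩
  · intro x y
    rw [abs_le]
    have h1 := hle x y
    have h2 := hle y x
    rw [dist_comm y x] at h2
    constructor <;> linarith
  · intro x
    apply Finset.le_inf'
    intro s _
    cases s with
    | none => exact hΔ
    | some S => exact NNReal.coe_nonneg _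
  · intro x
    exact Finset.inf'_le (statG C Δ x) (Finset.none_mem_insertNone)
  · intro x t h
    obtain ⟨S, hS, hSc⟩ := Finset.exists_subset_card_eq h
    have h1 : b x ≤ statG C Δ x (some S) := Finset.inf'_le _ ((hFs S).mpr hSc)
    refine h1.trans ?_
    obtain ⟨m0, hm0⟩ : S.Nonempty := by
      rw [← Finset.card_pos]; omega
    have ht : 0 ≤ t := (C.δ_nonneg m0 x).trans (Finset.mem_filter.mp (hS hm0)).2
    have h2 : S.sup (fun m => (⟨C.δ m x, C.δ_nonneg m x⟩ : NNReal)) ≤ ⟨t, ht⟩ := by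
      apply Finset.sup_le
      intro m hm
      exact (show C.δ m x ≤ t from (Finset.mem_filter.mp (hS hm)).2)
    exact NNReal.coe_le_coe.mpr h2
  · intro x t ht h
    apply Finset.le_inf'
    intro s hs
    cases s with
    | none => exact ht
    | some S =>
      have hSc := (hFs S).mp hs
      obtain ⟨m, hm, hm2⟩ : ∃ m ∈ S, m ∉ univ.filter (fun m => C.δ m x ≤ t) := by
        by_contra hcon
        push Not at hcon
        have := Finset.card_le_card (s := S) (t := univ.filter (fun m => C.δ m x ≤ t)) hcon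
        omega
      have h3 : t < C.δ m x := by
        by_contra hcon
        exact hm2 (Finset.mem_filter.mpr ⟨Finset.mem_univ _, not_lt.mp hcon⟩)
      have h4 : (⟨C.δ m x, C.δ_nonneg m x⟩ : NNReal) ≤
          S.sup (fun m => (⟨C.δ m x, C.δ_nonneg m x⟩ : NNReal)) :=
        Finset.le_sup (f := fun m => (⟨C.δ m x, C.δ_nonneg m x⟩ : NNReal)) hm
      have h5 : C.δ m x ≤ statG C Δ x (some S) := NNReal.coe_le_coe.mpr h4
      exact h3.le.trans h5

/-- comparison of a sum over ranks with the sum over positions -/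
private theorem stat_sum_le {ι : Type v} [DecidableEq ι] (a : ι → ℝ) (φ : ℕ → ℝ)
    (hφ : ∀ m n, 1 ≤ m → m ≤ n → φ n ≤ φ m) (S : Finset ι) :
    ∑ l ∈ S, φ (S.filter (fun m => a m ≤ a l)).card ≤ ∑ i ∈ Finset.range S.card, φ (i + 1) := by
  induction S using Finset.induction_on_max_value a with
  | empty => simp
  | insert x S hx hmax ih =>
    rw [Finset.sum_insert hx, Finset.card_insert_of_notMem hx, Finset.sum_range_succ]
    have h1 : ((insert x S).filter (fun m => a m ≤ a x)) = insert x S := by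
      apply Finset.filter_true_of_mem
      intro m hm
      rcases Finset.mem_insert.mp hm with rfl | hm
      · exact le_rfl
      · exact hmax m hm
    rw [h1, Finset.card_insert_of_notMem hx]
    have h2 : ∑ l ∈ S, φ ((insert x S).filter (fun m => a m ≤ a l)).card ≤
        ∑ l ∈ S, φ (S.filter (fun m => a m ≤ a l)).card := by
      apply Finset.sum_le_sum
      intro l hl
      have hpos : 0 < (S.filter (fun m => a m ≤ a l)).card :=
        Finset.card_pos.mpr ⟨l, Finset.mem_filter.mpr ⟨hl, le_rfl⟩⟩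
      apply hφ _ _ hpos
      exact Finset.card_le_card (Finset.filter_subset_filter _ (Finset.subset_insert x S))
    linarith

private theorem stat_sum_pos (y : ℝ) (hy : 0 < y) (hy1 : y ≤ 1) (n : ℕ) :
    ∑ i ∈ Finset.range n, (1 / ((i + 1 : ℕ) : ℝ)) * (((i + 1 : ℕ) : ℝ)) ^ y ≤
      (1 / y) * (n : ℝ) ^ y := by
  induction n with
  | zero => simp [Real.zero_rpow hy.ne']
  | succ n ih =>
    rw [Finset.sum_range_succ]
    have hn : (0 : ℝ) < ((n + 1 : ℕ) : ℝ) := by positivity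
    have hb := rpow_one_add_le_one_add_mul_self (s := -(1 / ((n + 1 : ℕ) : ℝ)))
      (by
        have : 1 / ((n + 1 : ℕ) : ℝ) ≤ 1 := by
          rw [div_le_one hn]
          push_cast
          have : (0 : ℝ) ≤ n := Nat.cast_nonneg n
          linarith
        linarith) hy.le hy1
    have hn' : (n : ℝ) = ((n + 1 : ℕ) : ℝ) * (1 + -(1 / ((n + 1 : ℕ) : ℝ))) := by
      field_simp
      push_cast
      ring
    have h1 : (n : ℝ) ^ y = ((n + 1 : ℕ) : ℝ) ^ y * (1 + -(1 / ((n + 1 : ℕ) : ℝ))) ^ y := by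
      conv_lhs => rw [hn']
      rw [Real.mul_rpow hn.le]
      have : 1 / ((n + 1 : ℕ) : ℝ) ≤ 1 := by
        rw [div_le_one hn]
        push_cast
        have : (0 : ℝ) ≤ n := Nat.cast_nonneg n
        linarith
      linarith
    have h2 : (n : ℝ) ^ y ≤ ((n + 1 : ℕ) : ℝ) ^ y * (1 + y * -(1 / ((n + 1 : ℕ) : ℝ))) := by
      rw [h1]
      exact mul_le_mul_of_nonneg_left hb (Real.rpow_nonneg hn.le y)
    have h3 : (1 / y) * (n : ℝ) ^ y ≤
        (1 / y) * (((n + 1 : ℕ) : ℝ) ^ y * (1 + y * -(1 / ((n + 1 : ℕ) : ℝ)))) :=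
      mul_le_mul_of_nonneg_left h2 (by positivity)
    have h4 : (1 / y) * (((n + 1 : ℕ) : ℝ) ^ y * (1 + y * -(1 / ((n + 1 : ℕ) : ℝ)))) =
        (1 / y) * ((n + 1 : ℕ) : ℝ) ^ y -
          (1 / ((n + 1 : ℕ) : ℝ)) * ((n + 1 : ℕ) : ℝ) ^ y := by
      field_simp
      ring
    linarith

private theorem stat_sum_neg (y : ℝ) (hy : 0 < y) (n : ℕ) :
    ∑ i ∈ Finset.range (n + 1), (1 / ((i + 1 : ℕ) : ℝ)) * (((i + 1 : ℕ) : ℝ)) ^ (-y) ≤
      1 + 1 / y - (1 / y) * ((n + 1 : ℕ) : ℝ) ^ (-y) := by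
  induction n with
  | zero => simp
  | succ n ih =>
    rw [Finset.sum_range_succ]
    have hn : (0 : ℝ) < ((n + 1 + 1 : ℕ) : ℝ) := by positivity
    have hn1 : (0 : ℝ) < ((n + 1 : ℕ) : ℝ) := by positivity
    set u : ℝ := 1 / ((n + 1 + 1 : ℕ) : ℝ) with hu
    have hupos : 0 < u := by positivity
    have hu1 : u < 1 := by
      rw [hu, div_lt_one hn]
      push_cast
      have : (0 : ℝ) ≤ n := Nat.cast_nonneg n
      linarith
    have hn' : ((n + 1 : ℕ) : ℝ) = ((n + 1 + 1 : ℕ) : ℝ) * (1 - u) := by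
      rw [hu]
      field_simp
      push_cast
      ring
    have hbern : 1 + y * u ≤ (1 - u) ^ (-y) := by
      have h0 : (0 : ℝ) < 1 - u := by linarith
      rw [Real.rpow_def_of_pos h0]
      have h1 : Real.log (1 - u) ≤ -u := by
        have := Real.log_le_sub_one_of_pos h0
        linarith
      have h2 := Real.add_one_le_exp (Real.log (1 - u) * -y)
      nlinarith
    have h1 : ((n + 1 : ℕ) : ℝ) ^ (-y) = ((n + 1 + 1 : ℕ) : ℝ) ^ (-y) * (1 - u) ^ (-y) := by
      conv_lhs => rw [hn']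
      rw [Real.mul_rpow hn.le (by linarith)]
    have h2 : ((n + 1 + 1 : ℕ) : ℝ) ^ (-y) * (1 + y * u) ≤ ((n + 1 : ℕ) : ℝ) ^ (-y) := by
      rw [h1]
      exact mul_le_mul_of_nonneg_left hbern (Real.rpow_nonneg hn.le _)
    have h3 : (1 / y) * (((n + 1 + 1 : ℕ) : ℝ) ^ (-y) * (1 + y * u)) ≤
        (1 / y) * ((n + 1 : ℕ) : ℝ) ^ (-y) :=
      mul_le_mul_of_nonneg_left h2 (by positivity)
    have h4 : (1 / y) * (((n + 1 + 1 : ℕ) : ℝ) ^ (-y) * (1 + y * u)) =
        (1 / y) * ((n + 1 + 1 : ℕ) : ℝ) ^ (-y) + u * ((n + 1 + 1 : ℕ) : ℝ) ^ (-y) := by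
      field_simp
    linarith

/-- sum over ranks: if `r l` is the number of `m` with `a m ≤ a l` -/
theorem sum_ranks {ι : Type v} [Fintype ι] (a : ι → ℝ) (r : ι → ℕ)
    (hr : ∀ l, ∀ T : Finset ι, (∀ m, m ∈ T ↔ a m ≤ a l) → r l = T.card)
    (k : ℕ) (hk : Fintype.card ι ≤ k) (y : ℝ) (hy : 0 < y) :
    ∑ l, (1 / (r l : ℝ)) * (r l : ℝ) ^ y ≤ (1 + 1 / y) * (k : ℝ) ^ y := by
  classical
  have hr' : ∀ l, r l = (univ.filter (fun m => a m ≤ a l)).card := by
    intro l
    apply hr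
    intro m
    simp
  have hrpos : ∀ l, 1 ≤ r l := by
    intro l
    rw [hr']
    exact Finset.card_pos.mpr ⟨l, Finset.mem_filter.mpr ⟨Finset.mem_univ _, le_rfl⟩⟩
  have hrle : ∀ l, r l ≤ Fintype.card ι := by
    intro l
    rw [hr']
    exact Finset.card_le_univ _
  have hnk : ((Fintype.card ι : ℕ) : ℝ) ^ y ≤ (k : ℝ) ^ y :=
    Real.rpow_le_rpow (Nat.cast_nonneg _) (by exact_mod_cast hk) hy.le
  have hk0 : (0 : ℝ) ≤ (k : ℝ) ^ y := Real.rpow_nonneg (Nat.cast_nonneg _) _
  have hy' : 0 < 1 / y := by positivity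
  rcases le_total y 1 with hy1 | hy1
  · -- decreasing summand
    have hφ : ∀ m n : ℕ, 1 ≤ m → m ≤ n →
        (1 / (n : ℝ)) * (n : ℝ) ^ y ≤ (1 / (m : ℝ)) * (m : ℝ) ^ y := by
      intro m n hm hmn
      have hm0 : (0 : ℝ) < m := by exact_mod_cast hm
      have hn0 : (0 : ℝ) < n := by exact_mod_cast (lt_of_lt_of_le hm hmn)
      have e : ∀ t : ℝ, 0 < t → (1 / t) * t ^ y = t ^ (y - 1) := by
        intro t ht
        rw [Real.rpow_sub_one ht.ne']
        ring
      rw [e _ hm0, e _ hn0]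
      exact Real.rpow_le_rpow_of_nonpos hm0 (by exact_mod_cast hmn) (by linarith)
    have h1 := stat_sum_le a (fun n => (1 / (n : ℝ)) * (n : ℝ) ^ y) hφ univ
    simp only [Finset.card_univ] at h1
    have h2 := stat_sum_pos y hy hy1 (Fintype.card ι)
    have h3 : ∑ l, (1 / (r l : ℝ)) * (r l : ℝ) ^ y =
        ∑ l, (1 / (((univ.filter (fun m => a m ≤ a l)).card : ℕ) : ℝ)) *
          (((univ.filter (fun m => a m ≤ a l)).card : ℕ) : ℝ) ^ y := by
      apply Finset.sum_congr rfl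
      intro l _
      rw [hr' l]
    rw [h3]
    calc _ ≤ _ := h1
      _ ≤ _ := h2
      _ ≤ (1 / y) * (k : ℝ) ^ y := mul_le_mul_of_nonneg_left hnk hy'.le
      _ ≤ (1 + 1 / y) * (k : ℝ) ^ y := mul_le_mul_of_nonneg_right (by linarith) hk0
  · -- increasing summand
    have h1 : ∀ l ∈ (univ : Finset ι), (1 / (r l : ℝ)) * (r l : ℝ) ^ y ≤
        (1 / ((Fintype.card ι : ℕ) : ℝ)) * ((Fintype.card ι : ℕ) : ℝ) ^ y := by
      intro l _
      have hm0 : (0 : ℝ) < r l := by exact_mod_cast hrpos l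
      have hn0 : (0 : ℝ) < ((Fintype.card ι : ℕ) : ℝ) := by
        exact_mod_cast (lt_of_lt_of_le (hrpos l) (hrle l))
      have e : ∀ t : ℝ, 0 < t → (1 / t) * t ^ y = t ^ (y - 1) := by
        intro t ht
        rw [Real.rpow_sub_one ht.ne']
        ring
      rw [e _ hm0, e _ hn0]
      exact Real.rpow_le_rpow hm0.le (by exact_mod_cast hrle l) (by linarith)
    have h2 := Finset.sum_le_sum h1
    rw [Finset.sum_const, Finset.card_univ, nsmul_eq_mul] at h2
    refine h2.trans ?_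
    have h3 : ((Fintype.card ι : ℕ) : ℝ) *
        ((1 / ((Fintype.card ι : ℕ) : ℝ)) * ((Fintype.card ι : ℕ) : ℝ) ^ y) ≤
        ((Fintype.card ι : ℕ) : ℝ) ^ y := by
      rcases Nat.eq_zero_or_pos (Fintype.card ι) with h0 | h0
      · rw [h0]; simp [Real.zero_rpow hy.ne']
      · have : (0 : ℝ) < ((Fintype.card ι : ℕ) : ℝ) := by exact_mod_cast h0
        rw [← mul_assoc, mul_one_div_cancel this.ne', one_mul]
    refine h3.trans (hnk.trans ?_)
    nlinarith

/-- sum over ranks with a negative exponent -/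
theorem sum_ranks_neg {ι : Type v} [Fintype ι] (a : ι → ℝ) (r : ι → ℕ)
    (hr : ∀ l, ∀ T : Finset ι, (∀ m, m ∈ T ↔ a m ≤ a l) → r l = T.card) (y : ℝ) (hy : 0 < y) :
    ∑ l, (1 / (r l : ℝ)) * (r l : ℝ) ^ (-y) ≤ 1 + 1 / y := by
  classical
  have hr' : ∀ l, r l = (univ.filter (fun m => a m ≤ a l)).card := by
    intro l
    apply hr
    intro m
    simp
  have hφ : ∀ m n : ℕ, 1 ≤ m → m ≤ n →
      (1 / (n : ℝ)) * (n : ℝ) ^ (-y) ≤ (1 / (m : ℝ)) * (m : ℝ) ^ (-y) := by
    intro m n hm hmn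
    have hm0 : (0 : ℝ) < m := by exact_mod_cast hm
    have hmn' : (m : ℝ) ≤ n := by exact_mod_cast hmn
    have hn0 : (0 : ℝ) < n := by linarith
    apply mul_le_mul
    · exact one_div_le_one_div_of_le hm0 hmn'
    · exact Real.rpow_le_rpow_of_nonpos hm0 hmn' (by linarith)
    · exact Real.rpow_nonneg hn0.le _
    · positivity
  have h1 := stat_sum_le a (fun n => (1 / (n : ℝ)) * (n : ℝ) ^ (-y)) hφ univ
  simp only [Finset.card_univ] at h1
  have h3 : ∑ l, (1 / (r l : ℝ)) * (r l : ℝ) ^ (-y) =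
      ∑ l, (1 / (((univ.filter (fun m => a m ≤ a l)).card : ℕ) : ℝ)) *
        (((univ.filter (fun m => a m ≤ a l)).card : ℕ) : ℝ) ^ (-y) := by
    apply Finset.sum_congr rfl
    intro l _
    rw [hr' l]
  rw [h3]
  refine h1.trans ?_
  have hy' : 0 < 1 / y := by positivity
  rcases Nat.eq_zero_or_pos (Fintype.card ι) with h0 | h0
  · rw [h0]; simp; positivity
  · obtain ⟨n, hn⟩ : ∃ n, Fintype.card ι = n + 1 := ⟨Fintype.card ι - 1, by omega⟩
    rw [hn]
    have h2 := stat_sum_neg y hy n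
    have h4 : 0 ≤ (1 / y) * ((n + 1 : ℕ) : ℝ) ^ (-y) :=
      mul_nonneg hy'.le (Real.rpow_nonneg (Nat.cast_nonneg _) _)
    refine h2.trans ?_
    linarith

open Classical in
/-- `l` is a record of `a` in exactly `n!/r` orders, `r` the number of `m` with `a m ≤ a l` -/
theorem record_count {ι : Type v} [Fintype ι] (a : ι → ℝ) (l : ι) :
    ((univ.filter (fun m => a m ≤ a l)).card : ℝ) *
      ((univ.filter (fun σ : ι ≃ Fin (Fintype.card ι) => ∀ m, σ m < σ l → a l < a m)).card : ℝ)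
      ≤ ((Fintype.card ι).factorial : ℝ) := by
  have hl : l ∈ univ.filter (fun m => a m ≤ a l) :=
    Finset.mem_filter.mpr ⟨Finset.mem_univ _, le_rfl⟩
  have hc := first_count (univ.filter (fun m => a m ≤ a l)) l hl
  have heq : (univ.filter (fun σ : ι ≃ Fin (Fintype.card ι) =>
      ∀ m, σ m < σ l → a l < a m)) =
      (univ.filter (fun σ : ι ≃ Fin (Fintype.card ι) =>
      ∀ m ∈ univ.filter (fun m => a m ≤ a l), m ≠ l → σ l < σ m)) := by
    apply Finset.filter_congr
    intro σ _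
    constructor
    · intro h m hm hne
      have hm' := (Finset.mem_filter.mp hm).2
      rcases lt_trichotomy (σ m) (σ l) with h3 | h3 | h3
      · exact absurd (h m h3) (not_lt.mpr hm')
      · exact absurd (σ.injective h3) hne
      · exact h3
    · intro h m hm
      by_contra hcon
      have h3 := h m (Finset.mem_filter.mpr ⟨Finset.mem_univ _, not_lt.mp hcon⟩)
        (by rintro rfl; exact lt_irrefl _ hm)
      exact absurd h3 (not_lt.mpr hm.le)
  rw [heq, ← hc]

open Classical in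
/-- the first element of `N` lies in `N'` in at least `q n!` orders -/
theorem first_mem_q {ι : Type v} [Fintype ι] (N N' : Finset ι) (hsub : N' ⊆ N)
    (hne : N.Nonempty) (q : ℝ) (hq : q * N.card ≤ N'.card) :
    q * ((Fintype.card ι).factorial : ℝ) ≤
      ((univ.filter (fun σ : ι ≃ Fin (Fintype.card ι) =>
        ∃ l ∈ N', ∀ m ∈ N, m ≠ l → σ l < σ m)).card : ℝ) := by
  have h1 : (univ.filter (fun σ : ι ≃ Fin (Fintype.card ι) =>
        ∃ l ∈ N', ∀ m ∈ N, m ≠ l → σ l < σ m)) =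
      N'.biUnion (fun l => univ.filter (fun σ : ι ≃ Fin (Fintype.card ι) =>
        ∀ m ∈ N, m ≠ l → σ l < σ m)) := by
    ext σ
    simp only [Finset.mem_filter, Finset.mem_univ, true_and, Finset.mem_biUnion]
  rw [h1, Finset.card_biUnion]
  · push_cast
    have hpos : (0 : ℝ) < (N.card : ℝ) := by exact_mod_cast Finset.card_pos.mpr hne
    have h2 : ∀ l ∈ N', ((univ.filter (fun σ : ι ≃ Fin (Fintype.card ι) =>
        ∀ m ∈ N, m ≠ l → σ l < σ m)).card : ℝ) =
        ((Fintype.card ι).factorial : ℝ) / (N.card : ℝ) := by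
      intro l hl
      have := first_count N l (hsub hl)
      rw [eq_div_iff hpos.ne', ← this]
      ring
    rw [Finset.sum_congr rfl h2, Finset.sum_const, nsmul_eq_mul]
    have hf : (0 : ℝ) ≤ ((Fintype.card ι).factorial : ℝ) := by positivity
    rw [← mul_div_assoc, le_div_iff₀ hpos]
    nlinarith
  · intro l hl l' hl' hne'
    rw [Function.onFun, Finset.disjoint_left]
    intro σ h3 h4
    have h5 := (Finset.mem_filter.mp h3).2 l' (hsub hl') (Ne.symm hne')
    have h6 := (Finset.mem_filter.mp h4).2 l (hsub hl) hne'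
    exact absurd h5 (not_lt.mpr h6.le)

/-- pigeonhole for a decreasing chain: the first index at which the sizes do not drop by a factor
`q` -/
theorem chain_q {ι : Type v} [Fintype ι] (k : ℕ) (hk : Fintype.card ι ≤ k) (N : ℕ → Finset ι)
    (hne : ∀ i, (N i).Nonempty) (q : ℝ) (hq0 : 0 < q) (hq1 : q < 1) :
    ∃ i : ℕ, q * ((N i).card : ℝ) ≤ (N (i + 1)).card ∧ ((N i).card : ℝ) ≤ q ^ i * k := by
  classical
  have hstep : ∀ i, (∀ j < i, ¬ (q * ((N j).card : ℝ) ≤ (N (j + 1)).card)) →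
      ((N i).card : ℝ) ≤ q ^ i * k := by
    intro i
    induction i with
    | zero =>
      intro _
      have h4 : (N 0).card ≤ Fintype.card ι := Finset.card_le_univ _
      simp only [pow_zero, one_mul]
      exact_mod_cast h4.trans hk
    | succ i ih =>
      intro h
      have h1 := ih (fun j hj => h j (by omega))
      have h2 := h i (by omega)
      push Not at h2
      calc ((N (i + 1)).card : ℝ) ≤ q * ((N i).card : ℝ) := h2.le
        _ ≤ q * (q ^ i * k) := mul_le_mul_of_nonneg_left h1 hq0.le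
        _ = q ^ (i + 1) * k := by ring
  have hex : ∃ i : ℕ, q * ((N i).card : ℝ) ≤ (N (i + 1)).card := by
    by_contra hcon
    push Not at hcon
    have h1 : ∀ i, ((N i).card : ℝ) ≤ q ^ i * k := fun i =>
      hstep i (fun j _ => not_le.mpr (hcon j))
    have hlim : Filter.Tendsto (fun i : ℕ => q ^ i * (k : ℝ)) Filter.atTop (nhds (0 * k)) :=
      (tendsto_pow_atTop_nhds_zero_of_lt_one hq0.le hq1).mul_const _
    rw [zero_mul] at hlim
    obtain ⟨i, hi⟩ := (hlim.eventually_lt_const (show (0 : ℝ) < 1 by norm_num)).exists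
    have h2 : (1 : ℝ) ≤ ((N i).card : ℝ) := by exact_mod_cast Finset.card_pos.mpr (hne i)
    linarith [h1 i]
  refine ⟨Nat.find hex, Nat.find_spec hex, ?_⟩
  exact hstep _ (fun j hj => Nat.find_min hex hj)

/-- geometric sum over dyadic levels -/
theorem geom_levels (y : ℝ) (hy : 0 < y) (r : ℕ) (hr : 1 ≤ r) (I : ℕ) :
    ∑ j ∈ (range I).filter (fun j => r < 2 ^ j), ((2 : ℝ) ^ j) ^ (-y) ≤
      1 / (1 - (2 : ℝ) ^ (-y)) * (r : ℝ) ^ (-y) := by
  have hs0 : (0 : ℝ) ≤ (2 : ℝ) ^ (-y) := Real.rpow_nonneg (by norm_num) _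
  have hs1 : (2 : ℝ) ^ (-y) < 1 := Real.rpow_lt_one_of_one_lt_of_neg (by norm_num) (by linarith)
  have hterm : ∀ j : ℕ, ((2 : ℝ) ^ j) ^ (-y) = ((2 : ℝ) ^ (-y)) ^ j := by
    intro j
    rw [← Real.rpow_natCast, ← Real.rpow_mul (by norm_num), mul_comm, Real.rpow_mul (by norm_num),
      Real.rpow_natCast]
  have hfil : (range I).filter (fun j => r < 2 ^ j) = Finset.Ico (Nat.log 2 r + 1) I := by
    ext j
    simp only [Finset.mem_filter, Finset.mem_range, Finset.mem_Ico]
    rw [← Nat.log_lt_iff_lt_pow (by norm_num) (by omega)]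
    omega
  rw [hfil, Finset.sum_congr rfl (fun j _ => hterm j)]
  refine (geom_sum_Ico_le_of_lt_one hs0 hs1).trans ?_
  rw [div_eq_mul_one_div, mul_comm]
  apply mul_le_mul_of_nonneg_left _ (by
    apply div_nonneg (by norm_num); linarith)
  rw [← hterm]
  apply Real.rpow_le_rpow_of_nonpos (by exact_mod_cast hr) _ (by linarith)
  have : r < 2 ^ (Nat.log 2 r + 1) := Nat.lt_pow_succ_log_self (by norm_num) r
  exact_mod_cast this.le

end Pool.Agent.Lib.MP_caca3f_an.Opt
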