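import Pool.Agent.Lib.MP_caca3f_an.Opt.Intern
import Pool.Agent.Lib.MP_caca3f_an.Opt.Seq

/-!
# JOB S4. The extension operator with a bounded anchor
-/

namespace Pool.Agent.Lib.MP_caca3f_an.Opt

open Finset Pool.Agent.Lib.MP_caca3f_an.Ext

universe u v w v'

section TopAux

variable {X : Type u} [MetricSpace X] {ι : Type v}

theorem top_AA_mono (D : ℝ) (hD : 1 ≤ D) {n m : ℕ} (h : n ≤ m) : AA D n ≤ AA D m := by
  unfold AA
  have h1 : (n : ℝ) ^ ((D - 1) / 2) ≤ (m : ℝ) ^ ((D - 1) / 2) :=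
    Real.rpow_le_rpow (by positivity) (by exact_mod_cast h) (by linarith)
  have h2 : 0 ≤ 20 * D ^ 2 := by positivity
  exact mul_le_mul_of_nonneg_left h1 h2

theorem top_AA_ge (D : ℝ) (hD : 1 ≤ D) (k : ℕ) (hk : 1 ≤ k) : 20 ≤ AA D k := by
  unfold AA
  have h1 : (1 : ℝ) ≤ (k : ℝ) ^ ((D - 1) / 2) :=
    Real.one_le_rpow (by exact_mod_cast hk) (by linarith)
  have h2 : 20 ≤ 20 * D ^ 2 := by nlinarith
  nlinarith

theorem top_anchor {K : Type w} [NormedAddCommGroup K]
    (C : Cover X ι) (D A c : ℝ) (hD : 1 ≤ D) (hA : 20 ≤ A) (hc : c ≤ 3 * D)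
    (l m : ι) (L : ℝ) (hL : 0 ≤ L) (f g G : X → K)
    (hf : ∀ x ∈ C.B l, ∀ y ∈ C.B l, ‖f x - f y‖ ≤ L * dist x y)
    (hg : ∀ w ∈ C.B m, ‖g w - f (C.z l w)‖ ≤ 6 * D ^ 2 * L * C.δ l w)
    (hG : ∀ x, ‖G x - g (C.z m x)‖ ≤ A * (c * L) * C.δ m x)
    (x : X) (hx : C.δ m x ≤ 2 * (1 / (12 * D * A)) * C.δ l x) :
    ‖G x - f (C.z l x)‖ ≤ 12 * D ^ 2 * L * C.δ l x := by
  have hD0 : 0 < D := by linarith
  have hA0 : 0 < A := by linarith
  obtain ⟨θ, hθ⟩ : ∃ θ : ℝ, θ = 2 * (1 / (12 * D * A)) := ⟨_, rfl⟩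
  rw [← hθ] at hx
  have hθ0 : 0 ≤ θ := by rw [hθ]; positivity
  have hθA : A * (3 * D) * θ = 1 / 2 := by rw [hθ]; field_simp; norm_num
  have hθ1 : θ ≤ 1 / 120 := by
    have h1 : 60 * θ ≤ A * (3 * D) * θ := by
      apply mul_le_mul_of_nonneg_right _ hθ0
      nlinarith
    linarith
  have hδm : 0 ≤ C.δ m x := C.δ_nonneg m x
  have hδl : 0 ≤ C.δ l x := C.δ_nonneg l x
  set w := C.z m x with hw
  have hwm : w ∈ C.B m := C.zmem m x
  have hdw : dist x w = C.δ m x := rfl
  have hδw : C.δ l w ≤ (1 + θ) * C.δ l x := by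
    have := C.δ_le l w x
    rw [dist_comm, hdw] at this
    linarith
  have e : G x - f (C.z l x) = (G x - g w) + (g w - f (C.z l w)) +
      (f (C.z l w) - f (C.z l x)) := by abel
  have h1 : ‖G x - g w‖ ≤ 1 / 2 * (L * C.δ l x) := by
    calc ‖G x - g w‖ ≤ A * (c * L) * C.δ m x := hG x
      _ ≤ A * (3 * D * L) * (θ * C.δ l x) := by gcongr
      _ = (A * (3 * D) * θ) * (L * C.δ l x) := by ring
      _ = _ := by rw [hθA]
  have h2 : ‖g w - f (C.z l w)‖ ≤ 6 * D ^ 2 * L * ((1 + θ) * C.δ l x) := by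
    refine (hg w hwm).trans ?_
    gcongr
  have h3 : ‖f (C.z l w) - f (C.z l x)‖ ≤ L * ((2 + 2 * θ) * C.δ l x) := by
    refine (hf _ (C.zmem l w) _ (C.zmem l x)).trans ?_
    apply mul_le_mul_of_nonneg_left _ hL
    refine (dist_z_le C l w x).trans ?_
    rw [dist_comm w x, hdw]
    linarith
  rw [e]
  refine (norm_add_le _ _).trans ((add_le_add ((norm_add_le _ _).trans (add_le_add h1 h2))
    h3).trans ?_)
  have h4 : 1 / 2 * (L * C.δ l x) + 6 * D ^ 2 * L * ((1 + θ) * C.δ l x) +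
      L * ((2 + 2 * θ) * C.δ l x) =
      (1 / 2 + 6 * (D ^ 2 * (1 + θ)) + (2 + 2 * θ)) * (L * C.δ l x) := by ring
  have h5 : 12 * D ^ 2 * L * C.δ l x = 12 * D ^ 2 * (L * C.δ l x) := by ring
  rw [h4, h5]
  apply mul_le_mul_of_nonneg_right _ (by positivity)
  have h6 : D ^ 2 * (1 + θ) ≤ D ^ 2 * (1 + 1 / 120) :=
    mul_le_mul_of_nonneg_left (by linarith) (by positivity)
  have h7 : 1 ≤ D ^ 2 := by nlinarith
  linarith

theorem top_pair [Fintype ι] (C : Cover X ι) (D A c : ℝ) (hD : 1 ≤ D) (hA : 20 ≤ A)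
    (hc0 : 0 ≤ c) (hc : c ≤ 3 * D)
    {K : Type w} [NormedAddCommGroup K] (vv : ℕ → ℝ) (hv : Monotone vv) (hv0 : ∀ n, 0 ≤ vv n)
    (m : ι) (L : ℝ) (hL : 0 ≤ L) (g G : X → K)
    (hg : ∀ x ∈ C.B m, ∀ y ∈ C.B m, ‖g x - g y‖ ≤ c * L * dist x y)
    (hG : ∀ x, ‖G x - g (C.z m x)‖ ≤ A * (c * L) * C.δ m x)
    (hG2 : ∀ x y, Near C (1 / (24 * D)) m x y →
      ‖G x - G y‖ ≤ vv (rel C (1 / (6 * D)) m x y).card * (c * L) * dist x y)
    (n : ℕ) (x y : X) (hn : (rel C (1 / (6 * D)) m x y).card ≤ n) :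
    ‖G x - G y‖ ≤ (vv n + 53 * D * A) * (3 * D * L * dist x y) := by
  have hD0 : 0 < D := by linarith
  have hA0 : 0 < A := by linarith
  have hd0 : 0 ≤ dist x y := dist_nonneg
  have hvn := hv0 n
  by_cases h : Near C (1 / (24 * D)) m x y
  · calc ‖G x - G y‖ ≤ vv (rel C (1 / (6 * D)) m x y).card * (c * L) * dist x y := hG2 x y h
      _ ≤ vv n * (3 * D * L) * dist x y := by
          have := hv hn
          gcongr
      _ = vv n * (3 * D * L * dist x y) := by ring
      _ ≤ _ := by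
          apply mul_le_mul_of_nonneg_right _ (by positivity)
          have : 0 ≤ 53 * D * A := by positivity
          linarith
  · have h1 : min (C.δ m x) (C.δ m y) ≤ 24 * D * dist x y := by
      unfold Near at h
      rw [not_lt] at h
      have hpos : 0 < 24 * D := by positivity
      rw [one_div, inv_mul_le_iff₀ hpos] at h
      exact h
    have h2 : C.δ m x + C.δ m y ≤ 2 * min (C.δ m x) (C.δ m y) + dist x y := by
      have hxy := C.δ_le m x y
      have hyx := C.δ_le m y x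
      rw [dist_comm] at hyx
      rcases le_total (C.δ m x) (C.δ m y) with hh | hh
      · rw [min_eq_left hh]; linarith
      · rw [min_eq_right hh]; linarith
    have h3 : ‖G x - G y‖ ≤ A * (c * L) * C.δ m x + c * L * (C.δ m x + dist x y + C.δ m y) +
        A * (c * L) * C.δ m y := by
      have e : G x - G y = (G x - g (C.z m x)) + (g (C.z m x) - g (C.z m y)) -
          (G y - g (C.z m y)) := by abel
      rw [e]
      refine (norm_sub_le _ _).trans (add_le_add ((norm_add_le _ _).trans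
        (add_le_add (hG x) ?_)) (hG y))
      refine (hg _ (C.zmem m x) _ (C.zmem m y)).trans ?_
      exact mul_le_mul_of_nonneg_left (dist_z_le C m x y) (by positivity)
    have h4 : C.δ m x + C.δ m y ≤ (48 * D + 1) * dist x y := by linarith
    have hcL : 0 ≤ c * L := by positivity
    have hDA : 20 ≤ D * A := by nlinarith
    calc ‖G x - G y‖ ≤ (c * L) * ((A + 1) * (C.δ m x + C.δ m y) + dist x y) := by
          refine h3.trans (le_of_eq ?_); ring
      _ ≤ (3 * D * L) * ((A + 1) * ((48 * D + 1) * dist x y) + dist x y) := by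
          have : 0 ≤ C.δ m x + C.δ m y := add_nonneg (C.δ_nonneg _ _) (C.δ_nonneg _ _)
          gcongr
      _ = ((A + 1) * (48 * D + 1) + 1) * (3 * D * L * dist x y) := by ring
      _ ≤ (vv n + 53 * D * A) * (3 * D * L * dist x y) := by
          apply mul_le_mul_of_nonneg_right _ (by positivity)
          have : A ≤ D * A := by nlinarith
          have : 20 * D ≤ D * A := by nlinarith
          nlinarith

theorem top_tv [Fintype ι] (C : Cover X ι) (β ε : ℝ) (hβ : 0 ≤ β) (hε : 0 ≤ ε) (hε1 : ε ≤ 1)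
    (hcard : (Fintype.card ι : ℝ) * Real.exp (-(β * ε)) ≤ 1 - Real.exp (-(β * ε)))
    (l : ι) (x y : X) (hx : 0 < C.δ l x) (hy : 0 < C.δ l y) :
    ∑ m, |pp β ε (fun m => C.δ m x / C.δ l x) m - pp β ε (fun m => C.δ m y / C.δ l y) m| ≤
      8 * β * (2 * dist x y / min (C.δ l x) (C.δ l y)) := by
  have hR : 0 < min (C.δ l x) (C.δ l y) := lt_min hx hy
  refine tv_bound β ε (2 * dist x y / min (C.δ l x) (C.δ l y))
    hβ hε (by positivity) (fun m => C.δ m x / C.δ l x)
    (fun m => C.δ m y / C.δ l y) (fun m => div_nonneg (C.δ_nonneg m x) hx.le)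
    (fun m => div_nonneg (C.δ_nonneg m y) hy.le) ?_ ?_ ?_ hcard
  · intro m hm
    have key : ∀ a b : X, 0 < C.δ l a → 0 < C.δ l b → C.δ m a / C.δ l a ≤ 1 →
        |C.δ m a / C.δ l a - C.δ m b / C.δ l b| ≤ 2 * dist a b / C.δ l b := by
      intro a b ha hb hab
      have e : C.δ m a / C.δ l a - C.δ m b / C.δ l b =
          ((C.δ m a / C.δ l a) * (C.δ l b - C.δ l a) + (C.δ m a - C.δ m b)) / C.δ l b := by
        field_simp
        ring
      rw [e, abs_div, abs_of_pos hb]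
      apply div_le_div_of_nonneg_right _ hb.le
      have h1 : |C.δ l b - C.δ l a| ≤ dist a b := by
        rw [abs_sub_le_iff]
        have h1 := C.δ_le l b a
        have h2 := C.δ_le l a b
        rw [dist_comm b a] at h1
        constructor <;> linarith
      have h2 : |C.δ m a - C.δ m b| ≤ dist a b := by
        rw [abs_sub_le_iff]
        have h1 := C.δ_le m b a
        have h2 := C.δ_le m a b
        rw [dist_comm b a] at h1
        constructor <;> linarith
      have h3 : 0 ≤ C.δ m a / C.δ l a := div_nonneg (C.δ_nonneg m a) ha.le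
      calc |(C.δ m a / C.δ l a) * (C.δ l b - C.δ l a) + (C.δ m a - C.δ m b)|
          ≤ |(C.δ m a / C.δ l a) * (C.δ l b - C.δ l a)| + |C.δ m a - C.δ m b| := abs_add_le _ _
        _ = (C.δ m a / C.δ l a) * |C.δ l b - C.δ l a| + |C.δ m a - C.δ m b| := by
            rw [abs_mul, abs_of_nonneg h3]
        _ ≤ 1 * dist a b + dist a b := by
            apply add_le_add _ h2
            exact mul_le_mul hab h1 (abs_nonneg _) (by norm_num)
        _ = 2 * dist a b := by ring
    rcases hm with h | h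
    · refine (key x y hx hy (h.le.trans hε1)).trans ?_
      apply div_le_div_of_nonneg_left _ hR (min_le_right _ _)
      positivity
    · have h4 := key y x hy hx (h.le.trans hε1)
      rw [abs_sub_comm] at h4
      refine h4.trans ?_
      rw [dist_comm y x]
      apply div_le_div_of_nonneg_left _ hR (min_le_left _ _)
      positivity
  · obtain ⟨m, hm⟩ := C.cov x
    exact ⟨m, by simp [C.δ_eq_zero hm]⟩
  · obtain ⟨m, hm⟩ := C.cov y
    exact ⟨m, by simp [C.δ_eq_zero hm]⟩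

/-- `rel` of a closer class is smaller -/
theorem top_rel_card [Fintype ι] (C : Cover X ι) (ε : ℝ) (hε : 0 ≤ ε) (l m : ι) (x y : X)
    (hx : C.δ m x ≤ C.δ l x) (hy : C.δ m y ≤ C.δ l y) :
    (rel C ε m x y).card ≤ (rel C ε l x y).card := by
  apply Finset.card_le_card
  intro m' hm'
  rw [mem_rel] at hm' ⊢
  rcases hm' with h | h
  · left
    exact h.trans (mul_le_mul_of_nonneg_left hx hε)
  · right
    exact h.trans (mul_le_mul_of_nonneg_left hy hε)

theorem top_rel_Rk [Fintype ι] (C : Cover X ι) (ε η : ℝ) (_hε : 0 ≤ ε) (hε1 : ε ≤ 1 / 6)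
    (hη : η ≤ 1 / 2) (l : ι) (x y : X) (hd : dist x y ≤ η * C.δ l x) :
    (rel C ε l x y).card ≤ (Rk C 1 l x).card := by
  apply Finset.card_le_card
  intro m hm
  have hx : 0 ≤ C.δ l x := C.δ_nonneg l x
  have hy : 0 ≤ C.δ l y := C.δ_nonneg l y
  rw [mem_rel] at hm
  rw [mem_Rk, one_mul]
  have hd' : dist x y ≤ 1 / 2 * C.δ l x := hd.trans (mul_le_mul_of_nonneg_right hη hx)
  rcases hm with h | h
  · have : ε * C.δ l x ≤ 1 / 6 * C.δ l x := mul_le_mul_of_nonneg_right hε1 hx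
    linarith
  · have h1 : ε * C.δ l y ≤ 1 / 6 * C.δ l y := mul_le_mul_of_nonneg_right hε1 hy
    have h2 := C.δ_le m x y
    have h3 := C.δ_le l y x
    rw [dist_comm y x] at h3
    linarith

theorem top_rel_pos [Fintype ι] (C : Cover X ι) (ε : ℝ) (hε : 0 ≤ ε) (l : ι) (x y : X) :
    1 ≤ (rel C ε l x y).card := by
  obtain ⟨m, hm⟩ := C.cov x
  apply Finset.card_pos.mpr
  refine ⟨m, ?_⟩
  rw [mem_rel]
  left
  rw [C.δ_eq_zero hm]
  exact mul_nonneg hε (C.δ_nonneg l x)

/-- the far estimate -/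
theorem top_far {K : Type w} [NormedAddCommGroup K] (C : Cover X ι) (D A : ℝ) (hD : 1 ≤ D)
    (hA : 20 ≤ A) (l : ι) (L : ℝ) (hL : 0 ≤ L) (f F : X → K)
    (hf : ∀ x ∈ C.B l, ∀ y ∈ C.B l, ‖f x - f y‖ ≤ L * dist x y)
    (hb : ∀ x, ‖F x - f (C.z l x)‖ ≤ 12 * D ^ 2 * L * C.δ l x)
    (x y : X) (h : ¬ Near C (1 / (48 * D * A)) l x y) :
    ‖F x - F y‖ ≤ 1300 * D ^ 3 * A * (L * dist x y) := by
  have hD0 : 0 < D := by linarith
  have hA0 : 0 < A := by linarith
  have hd0 : 0 ≤ dist x y := dist_nonneg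
  have h1 : min (C.δ l x) (C.δ l y) ≤ 48 * D * A * dist x y := by
    unfold Near at h
    rw [not_lt] at h
    have hpos : 0 < 48 * D * A := by positivity
    rw [one_div, inv_mul_le_iff₀ hpos] at h
    exact h
  have h2 : C.δ l x + C.δ l y ≤ 2 * min (C.δ l x) (C.δ l y) + dist x y := by
    have hxy := C.δ_le l x y
    have hyx := C.δ_le l y x
    rw [dist_comm] at hyx
    rcases le_total (C.δ l x) (C.δ l y) with hh | hh
    · rw [min_eq_left hh]; linarith
    · rw [min_eq_right hh]; linarith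
  have h3 : ‖F x - F y‖ ≤ 12 * D ^ 2 * L * C.δ l x + L * (C.δ l x + dist x y + C.δ l y) +
      12 * D ^ 2 * L * C.δ l y := by
    have e : F x - F y = (F x - f (C.z l x)) + (f (C.z l x) - f (C.z l y)) -
        (F y - f (C.z l y)) := by abel
    rw [e]
    refine (norm_sub_le _ _).trans (add_le_add ((norm_add_le _ _).trans
      (add_le_add (hb x) ?_)) (hb y))
    refine (hf _ (C.zmem l x) _ (C.zmem l y)).trans ?_
    exact mul_le_mul_of_nonneg_left (dist_z_le C l x y) hL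
  have h4 : C.δ l x + C.δ l y ≤ (96 * D * A + 1) * dist x y := by linarith
  have hDD2 : D ^ 2 ≤ D ^ 3 := by nlinarith [sq_nonneg (D - 1), mul_self_nonneg D]
  have hD2 : 1 ≤ D ^ 2 := by nlinarith
  have hDD : D ≤ D ^ 3 := by nlinarith [sq_nonneg (D - 1), mul_self_nonneg D]
  have h5 : D ^ 2 * 20 ≤ D ^ 3 * A := mul_le_mul hDD2 hA (by norm_num) (by positivity)
  have h6 : D * A ≤ D ^ 3 * A := mul_le_mul_of_nonneg_right hDD hA0.le
  have hLd : 0 ≤ L * dist x y := mul_nonneg hL hd0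
  calc ‖F x - F y‖ ≤ L * ((12 * D ^ 2 + 1) * (C.δ l x + C.δ l y) + dist x y) := by
        refine h3.trans (le_of_eq ?_); ring
    _ ≤ L * ((12 * D ^ 2 + 1) * ((96 * D * A + 1) * dist x y) + dist x y) := by
        gcongr
    _ = (1152 * (D ^ 3 * A) + 12 * D ^ 2 + 96 * (D * A) + 2) * (L * dist x y) := by ring
    _ ≤ (1300 * (D ^ 3 * A)) * (L * dist x y) := by
        apply mul_le_mul_of_nonneg_right _ hLd
        nlinarith
    _ = _ := by ring

end TopAux

/-- `1 + log k` is at most a constant times a small power of `k` -/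
theorem top_log (x : ℝ) (hx : 0 < x) (k : ℕ) (hk : 1 ≤ k) :
    1 + Real.log k ≤ (1 + 4 / x) * (k : ℝ) ^ (x / 4) := by
  have hk1 : (1 : ℝ) ≤ k := by exact_mod_cast hk
  have h1 : Real.log k ≤ (k : ℝ) ^ (x / 4) / (x / 4) :=
    Real.log_le_rpow_div (by linarith) (by positivity)
  have h2 : (1 : ℝ) ≤ (k : ℝ) ^ (x / 4) := Real.one_le_rpow hk1 (by positivity)
  have h3 : (k : ℝ) ^ (x / 4) / (x / 4) = 4 / x * (k : ℝ) ^ (x / 4) := by
    field_simp
  rw [h3] at h1
  linarith

theorem top_AA_log (D : ℝ) (hD : 1 < D) (k : ℕ) (hk : 1 ≤ k) :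
    AA D k * (1 + Real.log k) ≤
      20 * D ^ 2 * (1 + 4 / (D - 1)) * (k : ℝ) ^ (3 / 4 * (D - 1)) := by
  have hk0 : (0 : ℝ) < k := by exact_mod_cast hk
  have h1 := top_log (D - 1) (by linarith) k hk
  have h2 : (k : ℝ) ^ (3 / 4 * (D - 1)) = (k : ℝ) ^ ((D - 1) / 2) * (k : ℝ) ^ ((D - 1) / 4) := by
    rw [← Real.rpow_add hk0]
    congr 1
    ring
  have h3 : 0 ≤ (k : ℝ) ^ ((D - 1) / 2) := by positivity
  unfold AA
  rw [h2]
  calc 20 * D ^ 2 * (k : ℝ) ^ ((D - 1) / 2) * (1 + Real.log k) ≤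
      20 * D ^ 2 * (k : ℝ) ^ ((D - 1) / 2) * ((1 + 4 / (D - 1)) * (k : ℝ) ^ ((D - 1) / 4)) := by
        gcongr
    _ = _ := by ring

theorem top_near {X : Type u} [Fintype X] [MetricSpace X] {ι : Type v} [Fintype ι]
    (C : Cover X ι) (D : ℝ) (hD : 1 ≤ D) (vv : ℕ → ℝ) (hv : Monotone vv) (hv0 : ∀ n, 0 ≤ vv n)
    (K : Type w) [NormedAddCommGroup K] [InnerProductSpace ℝ K]
    (A Λ c : ℝ) (hA : 20 ≤ A) (hΛ : 1 ≤ Λ) (hc0 : 0 ≤ c) (hc : c ≤ 3 * D)
    (hcard : (Fintype.card ι : ℝ) * Real.exp (-Λ) ≤ 1 - Real.exp (-Λ))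
    (l : ι) (L : ℝ) (hL : 0 ≤ L) (f : X → K)
    (hf : ∀ x ∈ C.B l, ∀ y ∈ C.B l, ‖f x - f y‖ ≤ L * dist x y)
    (g G : ι → X → K)
    (hg1 : ∀ m, ∀ x ∈ C.B m, ∀ y ∈ C.B m, ‖g m x - g m y‖ ≤ c * L * dist x y)
    (hg2 : ∀ m, ∀ w ∈ C.B m, ‖g m w - f (C.z l w)‖ ≤ 6 * D ^ 2 * L * C.δ l w)
    (hG : ∀ m x, ‖G m x - g m (C.z m x)‖ ≤ A * (c * L) * C.δ m x)
    (hG2 : ∀ m x y, Near C (1 / (24 * D)) m x y →
      ‖G m x - G m y‖ ≤ vv (rel C (1 / (6 * D)) m x y).card * (c * L) * dist x y) :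
    ∃ F : X → K, (∀ x ∈ C.B l, F x = f x) ∧
      (∀ x, ‖F x - f (C.z l x)‖ ≤ 12 * D ^ 2 * L * C.δ l x) ∧
      ∀ x y, Near C (1 / (48 * D * A)) l x y → ‖F x - F y‖ ≤
        (3 * D * vv (Rk C 1 l x).card + 3000 * D ^ 3 * (A * Λ)) * (L * dist x y) := by
  classical
  have hD0 : 0 < D := by linarith
  have hA0 : 0 < A := by linarith
  have hΛ0 : 0 < Λ := by linarith
  obtain ⟨et, het⟩ : ∃ et : ℝ, et = 1 / (12 * D * A) := ⟨_, rfl⟩
  obtain ⟨β, hβ⟩ : ∃ β : ℝ, β = 12 * D * A * Λ := ⟨_, rfl⟩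
  have het0 : 0 < et := by rw [het]; positivity
  have hβ0 : 0 < β := by rw [hβ]; positivity
  have hDA : 20 ≤ D * A := by nlinarith
  have het1 : et ≤ 1 / 240 := by
    rw [het]
    apply one_div_le_one_div_of_le (by norm_num)
    linarith
  have hβε : β * et = Λ := by rw [hβ, het]; field_simp
  have het4 : 1 / (48 * D * A) = et / 4 := by rw [het]; field_simp; norm_num
  obtain ⟨p, hp⟩ : ∃ p : X → ι → ℝ, p = fun x =>
    pp β et (fun m => C.δ m x / C.δ l x) := ⟨_, rfl⟩
  have hs0 : ∀ x, ∃ m, (fun m => C.δ m x / C.δ l x) m = 0 := by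
    intro x
    obtain ⟨m, hm⟩ := C.cov x
    exact ⟨m, by simp [C.δ_eq_zero hm]⟩
  have hp0 : ∀ x m, 0 ≤ p x m := fun x m => by rw [hp]; exact pp_nonneg _ _ _ _
  have hp1 : ∀ x, ∑ m, p x m = 1 := fun x => by rw [hp]; exact pp_sum _ _ hβ0 het0 _ (hs0 x)
  have hplt : ∀ x m, 0 < C.δ l x → 0 < p x m → C.δ m x < et * C.δ l x := by
    intro x m hx h
    rw [hp] at h
    have := lt_of_pp_pos _ _ hβ0 _ m h
    rwa [div_lt_iff₀ hx] at this
  refine ⟨fun x => if x ∈ C.B l then f x else ∑ m, p x m • G m x, ?_, ?_, ?_⟩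
  · intro x hx
    simp [hx]
  · intro x
    by_cases hx : x ∈ C.B l
    · simp only [hx, if_true]
      rw [C.z_eq hx, sub_self, norm_zero]
      have := C.δ_nonneg l x
      positivity
    · simp only [hx, if_false]
      have hδ : 0 < C.δ l x :=
        lt_of_le_of_ne (C.δ_nonneg l x) (fun h => hx (C.mem_of_δ_eq_zero h.symm))
      have e : ∑ m, p x m • G m x - f (C.z l x) = ∑ m, p x m • (G m x - f (C.z l x)) := by
        simp only [smul_sub, Finset.sum_sub_distrib, ← Finset.sum_smul, hp1, one_smul]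
      rw [e]
      refine (norm_sum_smul_le _ _).trans ?_
      have h1 : ∀ m, |p x m| * ‖G m x - f (C.z l x)‖ ≤
          p x m * (12 * D ^ 2 * L * C.δ l x) := by
        intro m
        rw [abs_of_nonneg (hp0 x m)]
        rcases (hp0 x m).eq_or_lt with h | h
        · rw [← h]; simp
        · apply mul_le_mul_of_nonneg_left _ (hp0 x m)
          apply top_anchor C D A c hD hA hc l m L hL f (g m) (G m) hf (hg2 m) (hG m) x
          rw [← het]
          have h2 := hplt x m hδ h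
          have h3 : 0 ≤ et * C.δ l x := by positivity
          linarith
      refine (Finset.sum_le_sum (fun m _ => h1 m)).trans (le_of_eq ?_)
      rw [← Finset.sum_mul, hp1, one_mul]
  · intro x y hn
    obtain ⟨hx, hy⟩ := near_pos C _ (by positivity) l x y hn
    have hxB : x ∉ C.B l := fun h => hx.ne' (C.δ_eq_zero h)
    have hyB : y ∉ C.B l := fun h => hy.ne' (C.δ_eq_zero h)
    simp only [hxB, hyB, if_false]
    have hd0 : 0 ≤ dist x y := dist_nonneg
    rw [het4] at hn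
    have hR : 0 < min (C.δ l x) (C.δ l y) := lt_min hx hy
    have hn' : dist x y < et / 4 * min (C.δ l x) (C.δ l y) := hn
    have hdx : dist x y ≤ et / 4 * C.δ l x :=
      hn'.le.trans (mul_le_mul_of_nonneg_left (min_le_left _ _) (by positivity))
    have hdy : dist x y ≤ et / 4 * C.δ l y :=
      hn'.le.trans (mul_le_mul_of_nonneg_left (min_le_right _ _) (by positivity))
    have hlx := C.δ_le l x y
    have hly := C.δ_le l y x
    rw [dist_comm y x] at hly
    have hetx : et * C.δ l x ≤ et * (C.δ l y + dist x y) :=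
      mul_le_mul_of_nonneg_left hlx het0.le
    have hety : et * C.δ l y ≤ et * (C.δ l x + dist x y) :=
      mul_le_mul_of_nonneg_left hly het0.le
    have hetd : et * dist x y ≤ 1 / 240 * dist x y := mul_le_mul_of_nonneg_right het1 hd0
    have hfar : ∀ m, 0 < p x m ∨ 0 < p y m → C.δ m y ≤ 2 * et * C.δ l y := by
      intro m hm
      rcases hm with h | h
      · have h1 := hplt x m hx h
        have h2 := C.δ_le m y x
        rw [dist_comm y x] at h2
        linarith
      · have h1 := hplt y m hy h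
        have h2 : 0 ≤ et * C.δ l y := by positivity
        linarith
    have htv : ∑ m, |p x m - p y m| ≤ 8 * β * (2 * dist x y / min (C.δ l x) (C.δ l y)) := by
      rw [hp]
      apply top_tv C β et hβ0.le het0.le (by linarith) _ l x y hx hy
      rw [hβε]
      exact hcard
    have hnn : (rel C (1 / (6 * D)) l x y).card ≤ (Rk C 1 l x).card := by
      apply top_rel_Rk C _ (et / 4) (by positivity) _ (by linarith) l x y hdx
      apply one_div_le_one_div_of_le (by norm_num)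
      linarith
    obtain ⟨n, hndef⟩ : ∃ n : ℕ, n = (Rk C 1 l x).card := ⟨_, rfl⟩
    rw [← hndef] at hnn ⊢
    have e : ∑ m, p x m • G m x - ∑ m, p y m • G m y =
        ∑ m, p x m • (G m x - G m y) + ∑ m, (p x m - p y m) • (G m y - f (C.z l y)) := by
      simp only [smul_sub, sub_smul, Finset.sum_sub_distrib, ← Finset.sum_smul, hp1]
      abel
    rw [e]
    -- first sum
    have hfirst : ‖∑ m, p x m • (G m x - G m y)‖ ≤
        (vv n + 53 * D * A) * (3 * D * L * dist x y) := by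
      refine (norm_sum_smul_le _ _).trans ?_
      have h1 : ∀ m, |p x m| * ‖G m x - G m y‖ ≤
          p x m * ((vv n + 53 * D * A) * (3 * D * L * dist x y)) := by
        intro m
        rw [abs_of_nonneg (hp0 x m)]
        rcases (hp0 x m).eq_or_lt with h | h
        · rw [← h]; simp
        · apply mul_le_mul_of_nonneg_left _ (hp0 x m)
          apply top_pair C D A c hD hA hc0 hc vv hv hv0 m L hL (g m) (G m) (hg1 m) (hG m)
            (hG2 m) n x y
          refine (top_rel_card C _ (by positivity) l m x y ?_ ?_).trans hnn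
          · have h2 := hplt x m hx h
            have h3 : et * C.δ l x ≤ 1 / 240 * C.δ l x :=
              mul_le_mul_of_nonneg_right het1 hx.le
            linarith
          · have h2 := hfar m (Or.inl h)
            have h3 : et * C.δ l y ≤ 1 / 240 * C.δ l y :=
              mul_le_mul_of_nonneg_right het1 hy.le
            linarith
      refine (Finset.sum_le_sum (fun m _ => h1 m)).trans (le_of_eq ?_)
      rw [← Finset.sum_mul, hp1, one_mul]
    -- second sum
    have hyR : C.δ l y ≤ 25 / 24 * min (C.δ l x) (C.δ l y) := by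
      rcases le_total (C.δ l x) (C.δ l y) with h | h
      · rw [min_eq_left h]
        have h3 : et * C.δ l x ≤ 1 / 240 * C.δ l x :=
          mul_le_mul_of_nonneg_right het1 hx.le
        linarith
      · rw [min_eq_right h]; linarith
    have hsecond : ‖∑ m, (p x m - p y m) • (G m y - f (C.z l y))‖ ≤
        2400 * D ^ 3 * (A * Λ) * (L * dist x y) := by
      refine (norm_sum_smul_le _ _).trans ?_
      have h1 : ∀ m, |p x m - p y m| * ‖G m y - f (C.z l y)‖ ≤
          |p x m - p y m| * (12 * D ^ 2 * L * C.δ l y) := by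
        intro m
        by_cases hm : 0 < p x m ∨ 0 < p y m
        · apply mul_le_mul_of_nonneg_left _ (abs_nonneg _)
          apply top_anchor C D A c hD hA hc l m L hL f (g m) (G m) hf (hg2 m) (hG m) y
          rw [← het]
          exact hfar m hm
        · rw [not_or] at hm
          have h2 : p x m = 0 := le_antisymm (not_lt.mp hm.1) (hp0 x m)
          have h3 : p y m = 0 := le_antisymm (not_lt.mp hm.2) (hp0 y m)
          rw [h2, h3]; simp
      refine (Finset.sum_le_sum (fun m _ => h1 m)).trans ?_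
      rw [← Finset.sum_mul]
      calc (∑ m, |p x m - p y m|) * (12 * D ^ 2 * L * C.δ l y)
          ≤ (8 * β * (2 * dist x y / min (C.δ l x) (C.δ l y))) *
            (12 * D ^ 2 * L * (25 / 24 * min (C.δ l x) (C.δ l y))) := by
            gcongr
        _ = 2400 * D ^ 3 * (A * Λ) * (L * dist x y) := by
            rw [hβ]
            field_simp
            ring
    refine (norm_add_le _ _).trans ((add_le_add hfirst hsecond).trans ?_)
    have hLd : 0 ≤ L * dist x y := mul_nonneg hL hd0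
    have h1 : (vv n + 53 * D * A) * (3 * D * L * dist x y) +
        2400 * D ^ 3 * (A * Λ) * (L * dist x y) =
        (3 * D * vv n + 159 * (D ^ 2 * A) + 2400 * (D ^ 3 * (A * Λ))) * (L * dist x y) := by ring
    rw [h1]
    apply mul_le_mul_of_nonneg_right _ hLd
    have h2 : D ^ 2 * A ≤ D ^ 3 * (A * Λ) := by
      apply mul_le_mul _ _ hA0.le (by positivity)
      · nlinarith [sq_nonneg D]
      · exact le_mul_of_one_le_right hA0.le hΛ
    have h3 : 0 ≤ D ^ 3 * (A * Λ) := by positivity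
    linarith

theorem top_ext (D : ℝ) (hD : 1 < D) : ∃ M : ℝ, 1 ≤ M ∧
    ∀ {X : Type u} [Fintype X] [MetricSpace X] {ι : Type v} [Fintype ι]
      (C : Cover X ι) (H : ι → Type v')
      [∀ l, NormedAddCommGroup (H l)] [∀ l, InnerProductSpace ℝ (H l)] (φ : ∀ l, X → H l)
      (_ : ∀ l, ∀ x ∈ C.B l, ∀ y ∈ C.B l, dist x y ≤ ‖φ l x - φ l y‖)
      (_ : ∀ l, ∀ x ∈ C.B l, ∀ y ∈ C.B l, ‖φ l x - φ l y‖ ≤ D * dist x y)
      (k : ℕ) (_ : 1 ≤ k) (_ : Fintype.card ι ≤ k) (l : ι), ExtSharp.{u, v, w} C D M k l := by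
  obtain ⟨vv, B, hv, hv0, hrec, hB⟩ := exists_seq D hD
  have hD1 : 1 ≤ D := hD.le
  have hD0 : 0 < D := by linarith
  have hx0 : 0 < D - 1 := by linarith
  have hB0 : 0 ≤ B := by
    have h1 := hB 1 le_rfl
    have h2 := hv0 1
    simp only [Nat.cast_one, Real.one_rpow, mul_one] at h1
    linarith
  obtain ⟨M2, hM2⟩ : ∃ M2 : ℝ, M2 = 3000 * D ^ 3 * (20 * D ^ 2 * (1 + 4 / (D - 1))) := ⟨_, rfl⟩
  have hM20 : 0 ≤ M2 := by rw [hM2]; positivity
  refine ⟨3 * D * B + M2 + 1, by have : 0 ≤ 3 * D * B := by positivity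
                                 linarith, ?_⟩
  intro X _ _ ι _ C H _ _ φ hφ1 hφ2 k hk1 hk l K _ _ L f hL hf
  have hA := top_AA_ge D hD1 k hk1
  have hA0 : 0 < AA D k := by linarith
  have hk1' : (1 : ℝ) ≤ k := by exact_mod_cast hk1
  have hΛ : 1 ≤ 1 + Real.log k := by
    have := Real.log_nonneg hk1'
    linarith
  have hcard := tv_hk (Fintype.card ι) k hk1 hk (1 + Real.log k) rfl
  have hc0 : 0 ≤ D + 2 / 1 := by linarith
  have hc3 : D + 2 / 1 ≤ 3 * D := by linarith
  choose g hg1 hg2 using fun m => local_map C D 1 hD1 le_rfl (φ m) l m (hφ1 m) (hφ2 m) L hL f hf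
  have hInt := internal_ext C D hD1 H φ hφ1 hφ2 vv hv hv0 hrec K (Fintype.card ι)
  choose G hGa hGb hGc using fun m => hInt m ((D + 2 / 1) * L) (g m) (by positivity) (hg1 m)
  have hG : ∀ m x, ‖G m x - g m (C.z m x)‖ ≤ AA D k * ((D + 2 / 1) * L) * C.δ m x := by
    intro m x
    refine (hGb m x).trans ?_
    have h1 : AA D (Rk C (1 / (6 * D)) m x).card ≤ AA D k :=
      top_AA_mono D hD1 ((Finset.card_le_univ _).trans hk)
    have h2 := C.δ_nonneg m x
    gcongr
  have hG2 : ∀ m x y, Near C (1 / (24 * D)) m x y →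
      ‖G m x - G m y‖ ≤ vv (rel C (1 / (6 * D)) m x y).card * ((D + 2 / 1) * L) * dist x y :=
    fun m x y h => hGc m x y h (Finset.card_le_univ _)
  obtain ⟨F, hF1, hF2, hF3⟩ := top_near C D hD1 vv hv hv0 K (AA D k) (1 + Real.log k) (D + 2 / 1)
    hA hΛ hc0 hc3 hcard l L hL f hf g G hg1 (fun m w hw => by
      have := hg2 m w hw
      rwa [mul_one] at this) hG hG2
  refine ⟨F, hF1, hF2, ?_⟩
  intro x y
  have hLd : 0 ≤ L * dist x y := mul_nonneg hL dist_nonneg
  have hAΛ := top_AA_log D hD k hk1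
  have hkp : 0 ≤ (k : ℝ) ^ (3 / 4 * (D - 1)) := by positivity
  have hrp : 0 ≤ ((Rk C 1 l x).card : ℝ) ^ (D - 1) := by positivity
  have hr1 : 1 ≤ (Rk C 1 l x).card := by
    obtain ⟨m, hm⟩ := C.cov x
    apply Finset.card_pos.mpr
    refine ⟨m, ?_⟩
    rw [mem_Rk, C.δ_eq_zero hm]
    have := C.δ_nonneg l x
    positivity
  have h2 : 3000 * D ^ 3 * (AA D k * (1 + Real.log k)) ≤ M2 * (k : ℝ) ^ (3 / 4 * (D - 1)) := by
    calc 3000 * D ^ 3 * (AA D k * (1 + Real.log k)) ≤
        3000 * D ^ 3 * (20 * D ^ 2 * (1 + 4 / (D - 1)) * (k : ℝ) ^ (3 / 4 * (D - 1))) := by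
          gcongr
      _ = _ := by rw [hM2]; ring
  have key : ‖F x - F y‖ ≤
      (3 * D * (B * ((Rk C 1 l x).card : ℝ) ^ (D - 1)) + M2 * (k : ℝ) ^ (3 / 4 * (D - 1))) *
        (L * dist x y) := by
    by_cases hn : Near C (1 / (48 * D * AA D k)) l x y
    · refine (hF3 x y hn).trans ?_
      apply mul_le_mul_of_nonneg_right _ hLd
      have h1 := hB _ hr1
      have h3 : 3 * D * vv (Rk C 1 l x).card ≤
          3 * D * (B * ((Rk C 1 l x).card : ℝ) ^ (D - 1)) := by
        gcongr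
      linarith
    · refine (top_far C D (AA D k) hD1 hA l L hL f F hf hF2 x y hn).trans ?_
      apply mul_le_mul_of_nonneg_right _ hLd
      have h3 : 1300 * D ^ 3 * AA D k ≤ 3000 * D ^ 3 * (AA D k * (1 + Real.log k)) := by
        have h4 : AA D k ≤ AA D k * (1 + Real.log k) := le_mul_of_one_le_right hA0.le hΛ
        have h5 : 0 ≤ D ^ 3 := by positivity
        nlinarith [mul_le_mul_of_nonneg_left h4 h5, mul_nonneg h5 hA0.le]
      have h4 : 0 ≤ 3 * D * (B * ((Rk C 1 l x).card : ℝ) ^ (D - 1)) := by positivity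
      linarith
  refine key.trans ?_
  rw [mul_assoc _ L]
  apply mul_le_mul_of_nonneg_right _ hLd
  have h5 : 0 ≤ 3 * D * B := by positivity
  nlinarith [mul_nonneg h5 hkp, mul_nonneg hM20 hrp]

end Pool.Agent.Lib.MP_caca3f_an.Opt
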